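import Pool.Agent.Helper188.Morrey.Defs

set_option autoImplicit false

open Matrix

namespace Pool.Agent.W8h56.MC

open Pool.Agent.Helper188.Morrey

/-- The partial derivative of a real function of the plane in the direction of the `l`-th unit
vector. -/
noncomputable def dx (l : Fin 2) (f : (Fin 2 → ℝ) → ℝ) (x : Fin 2 → ℝ) : ℝ :=
  fderiv ℝ f x (Pi.single l 1)

/-- The partial derivative of a plane matrix field, entry by entry. -/
noncomputable def dM (l : Fin 2) (A : (Fin 2 → ℝ) → Matrix (Fin 2) (Fin 2) ℝ) (x : Fin 2 → ℝ) :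
    Matrix (Fin 2) (Fin 2) ℝ :=
  Matrix.of fun i j => dx l (fun y => A y i j) x

/-- The partial derivative of a plane vector field, entry by entry. -/
noncomputable def dV (l : Fin 2) (b : (Fin 2 → ℝ) → (Fin 2 → ℝ)) (x : Fin 2 → ℝ) : Fin 2 → ℝ :=
  fun i => dx l (fun y => b y i) x

/-- The vector `x` turned by a right angle (counterclockwise). -/
def perp (x : Fin 2 → ℝ) : Fin 2 → ℝ := ![-(x 1), x 0]

/-- The vector `(1/2) (∂ₗA) x + ∂ₗb`. -/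
noncomputable def zt (A : (Fin 2 → ℝ) → Matrix (Fin 2) (Fin 2) ℝ) (b : (Fin 2 → ℝ) → (Fin 2 → ℝ))
    (l : Fin 2) (x : Fin 2 → ℝ) : Fin 2 → ℝ :=
  (1 / 2 : ℝ) • (dM l A x *ᵥ x) + dV l b x

/-- The pair `(A, b)` of a matrix field and a vector field calibrates the map
`ϑ x = A x x + b x`: both fields are twice continuously differentiable off the origin, vanish off a
bounded set, `A` and `|x| |Db|` are bounded; the gradient of `ϑ` differs from `A` by a matrix of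
rank at most one; and for every symmetric bilinear form `Q` on the matrices that is nonnegative on
the matrices of rank one,
`Q(∂₁A, ((1/2) ∂₀A x + ∂₀b) ⊗ x^⊥) ≥ Q(∂₀A, ((1/2) ∂₁A x + ∂₁b) ⊗ x^⊥)`. -/
structure Calibrates (A : (Fin 2 → ℝ) → Matrix (Fin 2) (Fin 2) ℝ)
    (b ϑ : (Fin 2 → ℝ) → (Fin 2 → ℝ)) : Prop where
  smoothA : ∀ i j, ContDiffOn ℝ 2 (fun x => A x i j) {0}ᶜ
  smoothb : ∀ i, ContDiffOn ℝ 2 (fun x => b x i) {0}ᶜ
  supp : ∃ R : ℝ, ∀ x : Fin 2 → ℝ, R ≤ ‖x‖ → A x = 0 ∧ b x = 0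
  bddA : ∃ C : ℝ, ∀ x i j, |A x i j| ≤ C
  bddb : ∃ C : ℝ, ∀ x, x ≠ 0 → ∀ l i, ‖x‖ * |dV l b x i| ≤ C
  eq : ∀ x, ϑ x = A x *ᵥ x + b x
  rank : ∀ x, x ≠ 0 → (grad ϑ x - A x).rank ≤ 1
  ineq : ∀ x, x ≠ 0 → ∀ Q : Matrix (Fin 2) (Fin 2) ℝ →ₗ[ℝ] Matrix (Fin 2) (Fin 2) ℝ →ₗ[ℝ] ℝ,
    (∀ H K, Q H K = Q K H) → (∀ H, H.rank = 1 → 0 ≤ Q H H) →
    Q (dM 0 A x) (vecMulVec (zt A b 1 x) (perp x)) ≤ Q (dM 1 A x) (vecMulVec (zt A b 0 x) (perp x))

end Pool.Agent.W8h56.MC
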