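import Pool.Agent.W8h56.MC.Conv
import Pool.Agent.W8h56.MC.Defs

set_option autoImplicit false

open Matrix Set Filter Topology MeasureTheory
open scoped NNReal ENNReal ContDiff

namespace Pool.Agent.W8h56.MC

open Pool.Agent.Helper188.Morrey

abbrev E2 := Fin 2 → ℝ

/-- `f` is differentiable at `x` with partial derivatives `a` and `b`. -/
def HD (f : E2 → ℝ) (x : E2) (a b : ℝ) : Prop :=
  DifferentiableAt ℝ f x ∧ dx 0 f x = a ∧ dx 1 f x = b

section

variable {f g : E2 → ℝ} {x : E2} {a b c d : ℝ}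

theorem HD.add (hf : HD f x a b) (hg : HD g x c d) : HD (fun y => f y + g y) x (a + c) (b + d) := by
  refine ⟨hf.1.add hg.1, ?_, ?_⟩
  · rw [← hf.2.1, ← hg.2.1, dx, fderiv_fun_add hf.1 hg.1]; rfl
  · rw [← hf.2.2, ← hg.2.2, dx, fderiv_fun_add hf.1 hg.1]; rfl

theorem HD.sub (hf : HD f x a b) (hg : HD g x c d) : HD (fun y => f y - g y) x (a - c) (b - d) := by
  refine ⟨hf.1.sub hg.1, ?_, ?_⟩
  · rw [← hf.2.1, ← hg.2.1, dx, fderiv_fun_sub hf.1 hg.1]; rfl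
  · rw [← hf.2.2, ← hg.2.2, dx, fderiv_fun_sub hf.1 hg.1]; rfl

theorem HD.mul (hf : HD f x a b) (hg : HD g x c d) :
    HD (fun y => f y * g y) x (a * g x + f x * c) (b * g x + f x * d) := by
  refine ⟨hf.1.mul hg.1, ?_, ?_⟩
  · rw [← hf.2.1, ← hg.2.1, dx, fderiv_fun_mul hf.1 hg.1]
    simp only [ContinuousLinearMap.add_apply, ContinuousLinearMap.smul_apply, smul_eq_mul, dx]
    ring
  · rw [← hf.2.2, ← hg.2.2, dx, fderiv_fun_mul hf.1 hg.1]
    simp only [ContinuousLinearMap.add_apply, ContinuousLinearMap.smul_apply, smul_eq_mul, dx]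
    ring

theorem HD.neg (hf : HD f x a b) : HD (fun y => -f y) x (-a) (-b) := by
  refine ⟨hf.1.neg, ?_, ?_⟩
  · rw [← hf.2.1, dx, fderiv_fun_neg]; rfl
  · rw [← hf.2.2, dx, fderiv_fun_neg]; rfl

theorem HD.const (c : ℝ) (x : E2) : HD (fun _ => c) x 0 0 := by
  refine ⟨differentiableAt_const c, ?_, ?_⟩ <;> simp [dx]

theorem HD.coord0 (x : E2) : HD (fun y => y 0) x 1 0 := by
  have h : HasFDerivAt (fun y : E2 => y 0)
      (ContinuousLinearMap.proj (R := ℝ) (φ := fun _ : Fin 2 => ℝ) 0) x :=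
    (ContinuousLinearMap.proj (R := ℝ) (φ := fun _ : Fin 2 => ℝ) 0).hasFDerivAt
  refine ⟨h.differentiableAt, ?_, ?_⟩ <;> simp [dx, h.fderiv]

theorem HD.coord1 (x : E2) : HD (fun y => y 1) x 0 1 := by
  have h : HasFDerivAt (fun y : E2 => y 1)
      (ContinuousLinearMap.proj (R := ℝ) (φ := fun _ : Fin 2 => ℝ) 1) x :=
    (ContinuousLinearMap.proj (R := ℝ) (φ := fun _ : Fin 2 => ℝ) 1).hasFDerivAt
  refine ⟨h.differentiableAt, ?_, ?_⟩ <;> simp [dx, h.fderiv]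

theorem HD.of_diff (hf : DifferentiableAt ℝ f x) : HD f x (dx 0 f x) (dx 1 f x) := ⟨hf, rfl, rfl⟩

end

end Pool.Agent.W8h56.MC
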