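import Pool.Agent.W8h56.MC.Main

set_option autoImplicit false

open Matrix Set Filter Topology MeasureTheory
open scoped NNReal ENNReal ContDiff

namespace Pool.Agent.W8h56.MC

open Pool.Agent.Helper188.Morrey

theorem shift {W : M2 → ℝ} (hW : RankOneConvex W) (F₀ : M2) :
    RankOneConvex (fun F => W (F₀ + F)) := by
  intro F H hH t ht0 ht1
  have h1 := hW (F₀ + F) H hH t ht0 ht1
  have e1 : (1 - t) • (F₀ + F) + t • (F₀ + F + H) = F₀ + ((1 - t) • F + t • (F + H)) := by
    module
  have e2 : F₀ + F + H = F₀ + (F + H) := by abel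
  rw [e1, e2] at h1
  exact h1

/-- From smooth rank-one convex functions to all rank-one convex functions. -/
theorem of_smooth {ϑ : E2 → E2} {K : ℝ≥0} (hK : LipschitzWith K ϑ) {Ω : Set E2}
    (hb : Bornology.IsBounded Ω)
    (hs : ∀ W : M2 → ℝ, RankOneConvex W → ContDiff ℝ ∞ (onV W) →
      W 0 * (volume Ω).toReal ≤ ∫ x in Ω, W (grad ϑ x))
    {W : M2 → ℝ} (hW : RankOneConvex W) (F₀ : M2) :
    W F₀ * (volume Ω).toReal ≤ ∫ x in Ω, W (F₀ + grad ϑ x) := by
  have hW1 := shift hW F₀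
  set W1 : M2 → ℝ := fun F => W (F₀ + F) with hW1d
  have : IsFiniteMeasure (volume.restrict Ω) := ⟨by
    rw [Measure.restrict_apply_univ]; exact hb.measure_lt_top⟩
  set v : ℝ := (volume Ω).toReal with hv
  have hv0 : 0 ≤ v := ENNReal.toReal_nonneg
  have key : ∀ δ : ℝ, 0 < δ → W1 0 * v ≤ (∫ x in Ω, W1 (grad ϑ x)) + δ * (2 * v) := by
    intro δ hδ
    obtain ⟨W', h1, h2, h3⟩ := exists_smooth hW1 (K : ℝ) hδ
    have h4 := hs W' h1 h2
    have h5 := h3 0 (fun i j => by simp)
    have i1 : Integrable (fun x => W' (grad ϑ x)) (volume.restrict Ω) :=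
      integrable_comp hK hb h1.continuous
    have i2 : Integrable (fun x => W1 (grad ϑ x)) (volume.restrict Ω) :=
      integrable_comp hK hb hW1.continuous
    have h6 : ∫ x in Ω, W' (grad ϑ x) ≤ ∫ x in Ω, (W1 (grad ϑ x) + δ) := by
      refine integral_mono i1 (i2.add (integrable_const _)) fun x => ?_
      have := abs_le.1 (h3 (grad ϑ x) (fun i j => grad_bound hK x i j))
      simp only [Pi.add_apply]
      linarith [this.2]
    rw [integral_add i2 (integrable_const _), integral_const] at h6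
    simp only [measureReal_restrict_apply_univ, smul_eq_mul] at h6
    have h7 : volume.real Ω = v := rfl
    rw [h7] at h6
    have h8 := abs_le.1 h5
    have h9 : (W1 0 - δ) * v ≤ W' 0 * v := mul_le_mul_of_nonneg_right (by linarith [h8.1]) hv0
    nlinarith
  have h10 : W1 0 * v ≤ ∫ x in Ω, W1 (grad ϑ x) := by
    refine le_of_forall_pos_le_add fun ε hε => ?_
    have h11 := key (ε / (2 * v + 1)) (by positivity)
    have h12 : ε / (2 * v + 1) * (2 * v) ≤ ε := by
      rw [div_mul_eq_mul_div, div_le_iff₀ (by positivity)]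
      nlinarith
    linarith
  simpa [hW1d] using h10

/-- **The quasiconvexity inequality for calibrated maps.** -/
theorem calib {A : E2 → M2} {b ϑ : E2 → E2} (h : Calibrates A b ϑ) {K : ℝ≥0}
    (hK : LipschitzWith K ϑ) {Ω : Set E2}
    (hΩ : IsOpen Ω) (hb : Bornology.IsBounded Ω) (h0 : ∀ x, x ∉ Ω → ϑ x = 0) {W : M2 → ℝ}
    (hW : RankOneConvex W) (F₀ : M2) :
    W F₀ * (volume Ω).toReal ≤ ∫ x in Ω, W (F₀ + grad ϑ x) :=
  of_smooth hK hb (fun _ h1 h2 => smooth_case h hK hΩ hb h0 h1 h2) hW F₀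

end Pool.Agent.W8h56.MC
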