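import Pool.Agent.W8h56.MC.Smooth

set_option autoImplicit false

open Matrix Set Filter Topology MeasureTheory
open scoped NNReal ENNReal ContDiff

namespace Pool.Agent.W8h56.MC

open Pool.Agent.Helper188.Morrey

section

variable {g : V4 → ℝ}

theorem hasDerivAt_line (hg : ContDiff ℝ ∞ g) (F H : V4) (t : ℝ) :
    HasDerivAt (fun t : ℝ => g (F + t • H)) (fderiv ℝ g (F + t • H) H) t := by
  have h1 : HasFDerivAt g (fderiv ℝ g (F + t • H)) (F + t • H) :=
    (hg.differentiable (by simp) _).hasFDerivAt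
  have h2 : HasDerivAt (fun t : ℝ => F + t • H) H t := by
    simpa using ((hasDerivAt_id t).smul_const H).const_add F
  exact h1.comp_hasDerivAt t h2

theorem hasDerivAt_line2 (hg : ContDiff ℝ ∞ g) (F H : V4) (t : ℝ) :
    HasDerivAt (fun t : ℝ => fderiv ℝ g (F + t • H) H)
      (fderiv ℝ (fderiv ℝ g) (F + t • H) H H) t := by
  have hd : ContDiff ℝ ∞ (fderiv ℝ g) := hg.fderiv_right (by norm_cast)
  have h1 : HasFDerivAt (fderiv ℝ g) (fderiv ℝ (fderiv ℝ g) (F + t • H)) (F + t • H) :=
    (hd.differentiable (by simp) _).hasFDerivAt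
  have h2 : HasDerivAt (fun t : ℝ => F + t • H) H t := by
    simpa using ((hasDerivAt_id t).smul_const H).const_add F
  have h3 : HasDerivAt (fun t : ℝ => fderiv ℝ g (F + t • H))
      (fderiv ℝ (fderiv ℝ g) (F + t • H) H) t := h1.comp_hasDerivAt t h2
  exact (h3.clm_apply (hasDerivAt_const t H)).congr_deriv (by simp)

end

theorem line_convex {W : M2 → ℝ} (hW : RankOneConvex W) (F H : V4)
    (hd : (Matrix.of H).det = 0) : ConvexOn ℝ univ (fun t : ℝ => onV W (F + t • H)) :=
  hW.line (Matrix.of F) (Matrix.of H) hd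

theorem first_order {W : M2 → ℝ} (hW : RankOneConvex W) (hs : ContDiff ℝ ∞ (onV W)) (F H : V4)
    (hd : (Matrix.of H).det = 0) :
    onV W F + fderiv ℝ (onV W) F H ≤ onV W (F + H) := by
  have h1 := line_convex hW F H hd
  have h2 := hasDerivAt_line hs F H 0
  have h3 := h1.le_slope_of_hasDerivAt (mem_univ (0:ℝ)) (mem_univ (1:ℝ)) one_pos h2
  simp only [slope_def_field, zero_smul, add_zero, one_smul, sub_zero, div_one] at h3
  linarith

theorem second_order {W : M2 → ℝ} (hW : RankOneConvex W) (hs : ContDiff ℝ ∞ (onV W)) (F H : V4)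
    (hd : (Matrix.of H).det = 0) :
    0 ≤ fderiv ℝ (fderiv ℝ (onV W)) F H H := by
  have h1 := line_convex hW F H hd
  have h2 := fun t => hasDerivAt_line hs F H t
  have h3 := h1.monotoneOn_deriv (fun x _ => (h2 x).differentiableAt)
  have h4 : deriv (fun t : ℝ => onV W (F + t • H)) = fun t => fderiv ℝ (onV W) (F + t • H) H :=
    funext fun t => (h2 t).deriv
  rw [h4] at h3
  have h5 : Monotone (fun t : ℝ => fderiv ℝ (onV W) (F + t • H) H) :=
    fun x y hxy => h3 (mem_univ x) (mem_univ y) hxy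
  have h6 := h5.deriv_nonneg (x := 0)
  rw [(hasDerivAt_line2 hs F H 0).deriv] at h6
  simpa using h6

theorem second_symm {g : V4 → ℝ} (hs : ContDiff ℝ ∞ g) (F H K : V4) :
    fderiv ℝ (fderiv ℝ g) F H K = fderiv ℝ (fderiv ℝ g) F K H :=
  (hs.contDiffAt.isSymmSndFDerivAt (by
    rw [minSmoothness_of_isRCLikeNormedField]; exact WithTop.coe_le_coe.2 le_top)).eq H K

end Pool.Agent.W8h56.MC
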