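import Pool.Agent.W8h56.MC.Ident

set_option autoImplicit false

open Matrix Set Filter Topology MeasureTheory
open scoped NNReal ENNReal ContDiff

namespace Pool.Agent.W8h56.MC

open Pool.Agent.Helper188.Morrey

/-- the bump function -/
noncomputable def bmp : ContDiffBump (0 : E2) := ⟨1, 2, one_pos, one_lt_two⟩

/-- the cut-off functions: zero near the origin, one far from it -/
noncomputable def chi (n : ℝ) (x : E2) : ℝ := 1 - bmp (n • x)

theorem bmp_bound : ∃ M : ℝ, 0 ≤ M ∧ ∀ l x, |dx l bmp x| ≤ M := by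
  have h1 : Continuous (fderiv ℝ (bmp : E2 → ℝ)) :=
    (bmp.contDiff (n := 1)).continuous_fderiv (by simp)
  have h2 : HasCompactSupport (fderiv ℝ (bmp : E2 → ℝ)) := bmp.hasCompactSupport.fderiv (𝕜 := ℝ)
  obtain ⟨M, hM⟩ := h1.bounded_above_of_compact_support h2
  refine ⟨max M 0, le_max_right _ _, fun l x => ?_⟩
  have h3 := ContinuousLinearMap.le_opNorm (fderiv ℝ (bmp : E2 → ℝ) x) (Pi.single l 1)
  have h4 : ‖(Pi.single l (1:ℝ) : E2)‖ ≤ 1 := by
    refine (pi_norm_le_iff_of_nonneg zero_le_one).2 fun k => ?_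
    rw [Pi.single_apply]
    split_ifs <;> simp
  have h5 : 0 ≤ ‖fderiv ℝ (bmp : E2 → ℝ) x‖ := norm_nonneg _
  rw [dx, ← Real.norm_eq_abs]
  calc ‖fderiv ℝ (bmp : E2 → ℝ) x (Pi.single l 1)‖
      ≤ ‖fderiv ℝ (bmp : E2 → ℝ) x‖ * ‖(Pi.single l (1:ℝ) : E2)‖ := h3
    _ ≤ ‖fderiv ℝ (bmp : E2 → ℝ) x‖ * 1 := mul_le_mul_of_nonneg_left h4 h5
    _ ≤ max M 0 := by rw [mul_one]; exact (hM x).trans (le_max_left _ _)

theorem bmp_far {y : E2} (hy : 2 < ‖y‖) (l : Fin 2) : dx l bmp y = 0 := by
  have h1 : y ∉ tsupport (fderiv ℝ (bmp : E2 → ℝ)) := by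
    intro h
    have h2 := tsupport_fderiv_subset ℝ h
    rw [bmp.tsupport_eq, Metric.mem_closedBall, dist_zero_right] at h2
    have : bmp.rOut = 2 := rfl
    rw [this] at h2
    linarith
  rw [dx, image_eq_zero_of_notMem_tsupport h1]
  rfl

theorem chi_contDiff (n : ℝ) : ContDiff ℝ ∞ (chi n) := by
  have h1 : ContDiff ℝ ∞ (bmp : E2 → ℝ) := bmp.contDiff
  have h2 : ContDiff ℝ ∞ (fun x : E2 => n • x) := contDiff_const_smul n
  exact contDiff_const.sub (h1.comp h2)

theorem chi_hd (n : ℝ) (x : E2) :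
    HD (chi n) x (-(n * dx 0 bmp (n • x))) (-(n * dx 1 bmp (n • x))) := by
  have h1 : HasFDerivAt (bmp : E2 → ℝ) (fderiv ℝ (bmp : E2 → ℝ) (n • x)) (n • x) :=
    ((bmp.contDiff (n := 1)).differentiable (by simp) _).hasFDerivAt
  have h2 : HasFDerivAt (fun x : E2 => n • x) (n • ContinuousLinearMap.id ℝ E2) x :=
    (hasFDerivAt_id x).const_smul n
  have h3 := (h1.comp x h2).const_sub 1
  have e : fderiv ℝ (chi n) x = _ := h3.fderiv
  refine ⟨h3.differentiableAt, ?_, ?_⟩
  · rw [dx, e]; simp [dx]
  · rw [dx, e]; simp [dx]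

theorem chi_near {n : ℝ} (hn : 0 < n) {x : E2} (hx : ‖x‖ ≤ 1 / n) : chi n x = 0 := by
  rw [chi, bmp.one_of_mem_closedBall]
  · ring
  · rw [Metric.mem_closedBall, dist_zero_right, norm_smul, Real.norm_eq_abs, abs_of_pos hn]
    show n * ‖x‖ ≤ 1
    rw [le_div_iff₀ hn] at hx
    linarith

theorem chi_far {n : ℝ} (hn : 0 < n) {x : E2} (hx : 2 / n ≤ ‖x‖) : chi n x = 1 := by
  rw [chi, bmp.zero_of_le_dist]
  · ring
  · rw [dist_zero_right, norm_smul, Real.norm_eq_abs, abs_of_pos hn]
    show 2 ≤ n * ‖x‖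
    rw [div_le_iff₀ hn] at hx
    linarith

theorem chi_range (n : ℝ) (x : E2) : 0 ≤ chi n x ∧ chi n x ≤ 1 := by
  rw [chi]
  exact ⟨by linarith [bmp.le_one (x := n • x)], by linarith [bmp.nonneg' (n • x)]⟩

/-- the flux through the cut-off region is small -/
theorem chi_flux {n M C : ℝ} (hn : 0 < n) (hM0 : 0 ≤ M) (hM : ∀ l x, |dx l bmp x| ≤ M) {a b : ℝ}
    {x : E2} (ha : |a| ≤ C) (hb : |b| ≤ C) :
    dx 0 (chi n) x * a + dx 1 (chi n) x * b ≤
      (Metric.closedBall (0 : E2) (2 / n)).indicator (fun _ => 2 * (n * M * C)) x := by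
  rw [(chi_hd n x).2.1, (chi_hd n x).2.2]
  by_cases hx : x ∈ Metric.closedBall (0 : E2) (2 / n)
  · rw [indicator_of_mem hx]
    have key : ∀ (l : Fin 2) (c : ℝ), |c| ≤ C → -(n * dx l bmp (n • x)) * c ≤ n * M * C := by
      intro l c hc
      refine (le_abs_self _).trans ?_
      rw [abs_mul, abs_neg, abs_mul, abs_of_pos hn]
      exact mul_le_mul (mul_le_mul_of_nonneg_left (hM _ _) hn.le) hc (abs_nonneg _) (by positivity)
    linarith [key 0 a ha, key 1 b hb]
  · rw [indicator_of_notMem hx]
    rw [Metric.mem_closedBall, dist_zero_right, not_le, div_lt_iff₀ hn] at hx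
    have h1 : 2 < ‖n • x‖ := by
      rw [norm_smul, Real.norm_eq_abs, abs_of_pos hn]; linarith
    rw [bmp_far h1, bmp_far h1]
    simp

/-- the integral of a partial derivative of a compactly supported function vanishes -/
theorem integral_dx {f : E2 → ℝ} (hf : ContDiff ℝ 1 f) (hs : HasCompactSupport f) (l : Fin 2) :
    ∫ x, dx l f x = 0 := by
  have hc : Continuous (fun x => fderiv ℝ f x (Pi.single l 1)) :=
    (hf.continuous_fderiv (by simp)).clm_apply continuous_const
  have hs' : HasCompactSupport (fun x => fderiv ℝ f x (Pi.single l 1)) := hs.fderiv_apply (𝕜 := ℝ) _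
  have h := integral_mul_fderiv_eq_neg_fderiv_mul_of_integrable (μ := (volume : Measure E2))
    (𝕜 := ℝ) (f := fun _ : E2 => (1 : ℝ)) (g := f) (v := Pi.single l 1) (by simp)
    (by simpa using hc.integrable_of_hasCompactSupport hs')
    (by simpa using hf.continuous.integrable_of_hasCompactSupport hs)
    (fun _ _ => differentiableAt_const _) (fun _ _ => hf.differentiable (by simp) _)
  simpa [dx] using h

theorem integrable_dx {f : E2 → ℝ} (hf : ContDiff ℝ 1 f) (hs : HasCompactSupport f) (l : Fin 2) :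
    Integrable (fun x => dx l f x) := by
  have hc : Continuous (fun x => fderiv ℝ f x (Pi.single l 1)) :=
    (hf.continuous_fderiv (by simp)).clm_apply continuous_const
  have hs' : HasCompactSupport (fun x => fderiv ℝ f x (Pi.single l 1)) := hs.fderiv_apply (𝕜 := ℝ) _
  exact hc.integrable_of_hasCompactSupport hs'

/-- **Divergence theorem with a puncture.**  If a bounded vector field, continuously differentiable
off the origin and of bounded support, has divergence at most `G` off the origin, then the integral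
of `G` is nonnegative. -/
theorem integral_nonneg_of_div {v w G : E2 → ℝ} {R C : ℝ}
    (hv : ∀ x, x ≠ 0 → ContDiffAt ℝ 1 v x) (hw : ∀ x, x ≠ 0 → ContDiffAt ℝ 1 w x)
    (hR : ∀ x : E2, R < ‖x‖ → v x = 0 ∧ w x = 0)
    (hbv : ∀ x, x ≠ 0 → |v x| ≤ C) (hbw : ∀ x, x ≠ 0 → |w x| ≤ C)
    (hG : Integrable G) (hdiv : ∀ x, x ≠ 0 → dx 0 v x + dx 1 w x ≤ G x) :
    0 ≤ ∫ x, G x := by
  obtain ⟨M, hM0, hM⟩ := bmp_bound
  have hC : 0 ≤ C := by
    have : (Pi.single 0 1 : E2) ≠ 0 := by
      intro h
      have := congrFun h 0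
      simp at this
    exact (abs_nonneg _).trans (hbv _ this)
  -- the products with the cut-off
  have hX : ∀ (f : E2 → ℝ), (∀ x, x ≠ 0 → ContDiffAt ℝ 1 f x) → ∀ n : ℝ, 0 < n →
      ContDiff ℝ 1 (fun x => chi n x * f x) := by
    intro f hf n hn
    rw [contDiff_iff_contDiffAt]
    intro x
    by_cases hx : x = 0
    · subst hx
      have : (fun x => chi n x * f x) =ᶠ[𝓝 (0 : E2)] fun _ => 0 := by
        filter_upwards [Metric.closedBall_mem_nhds (0 : E2) (by positivity : 0 < 1 / n)] with x hx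
        rw [Metric.mem_closedBall, dist_zero_right] at hx
        rw [chi_near hn hx, zero_mul]
      exact contDiffAt_const.congr_of_eventuallyEq this
    · exact ((chi_contDiff n).of_le (by exact_mod_cast le_top)).contDiffAt.mul (hf x hx)
  have hS : ∀ (f : E2 → ℝ), (∀ x : E2, R < ‖x‖ → f x = 0) → ∀ n : ℝ,
      HasCompactSupport (fun x => chi n x * f x) := by
    intro f hf n
    refine HasCompactSupport.intro (K := Metric.closedBall 0 R) (isCompact_closedBall _ _)
      fun x hx => ?_
    rw [Metric.mem_closedBall, dist_zero_right, not_le] at hx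
    rw [hf x hx, mul_zero]
  have key : ∀ n : ℕ, 0 ≤ (∫ x, chi (n + 1) x * G x)
      + 2 * ((n + 1) * M * C) * (volume (Metric.closedBall (0 : E2) (2 / (n + 1)))).toReal := by
    intro n
    have hn : (0 : ℝ) < n + 1 := by positivity
    have h0 : ∫ x, (dx 0 (fun x => chi (n + 1) x * v x) x + dx 1 (fun x => chi (n + 1) x * w x) x)
        = 0 := by
      rw [integral_add (integrable_dx (hX v hv _ hn) (hS v (fun x hx => (hR x hx).1) _) 0)
        (integrable_dx (hX w hw _ hn) (hS w (fun x hx => (hR x hx).2) _) 1),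
        integral_dx (hX v hv _ hn) (hS v (fun x hx => (hR x hx).1) _) 0,
        integral_dx (hX w hw _ hn) (hS w (fun x hx => (hR x hx).2) _) 1, add_zero]
    have hIG : Integrable (fun x => chi (n + 1) x * G x) := by
      refine hG.bdd_mul (c := 1) (chi_contDiff _).continuous.aestronglyMeasurable ?_
      refine Eventually.of_forall fun x => ?_
      rw [Real.norm_eq_abs, abs_of_nonneg (chi_range _ x).1]
      exact (chi_range _ x).2
    have hII : Integrable ((Metric.closedBall (0 : E2) (2 / (n + 1))).indicator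
        (fun _ => 2 * ((n + 1) * M * C))) := by
      rw [integrable_indicator_iff Metric.isClosed_closedBall.measurableSet]
      exact continuousOn_const.integrableOn_compact (isCompact_closedBall _ _)
    have h1 : ∫ x, (dx 0 (fun x => chi (n + 1) x * v x) x + dx 1 (fun x => chi (n + 1) x * w x) x)
        ≤ ∫ x, (chi (n + 1) x * G x + (Metric.closedBall (0 : E2) (2 / (n + 1))).indicator
        (fun _ => 2 * ((n + 1) * M * C)) x) := by
      refine integral_mono_ae ((integrable_dx (hX v hv _ hn) (hS v (fun x hx => (hR x hx).1) _) 0).add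
        (integrable_dx (hX w hw _ hn) (hS w (fun x hx => (hR x hx).2) _) 1)) (hIG.add hII) ?_
      have hne : ∀ᵐ x : E2, x ≠ 0 := by
        have : (volume : Measure E2) {0} = 0 := measure_singleton 0
        exact compl_mem_ae_iff.2 this
      filter_upwards [hne] with x hx
      have hv1 := HD.of_diff ((hv x hx).differentiableAt (by simp))
      have hw1 := HD.of_diff ((hw x hx).differentiableAt (by simp))
      have hc1 := HD.of_diff (chi_hd (n + 1) x).1
      rw [(hc1.mul hv1).2.1, (hc1.mul hw1).2.2]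
      have h2 := chi_flux hn hM0 hM (x := x) (hbv x hx) (hbw x hx)
      have h3 := mul_le_mul_of_nonneg_left (hdiv x hx) (chi_range (n + 1) x).1
      linarith
    rw [h0, integral_add hIG hII, integral_indicator Metric.isClosed_closedBall.measurableSet,
      setIntegral_const, smul_eq_mul, mul_comm (volume.real _)] at h1
    exact h1
  have hlim1 : Tendsto (fun n : ℕ => ∫ x, chi (n + 1) x * G x) atTop (𝓝 (∫ x, G x)) := by
    refine tendsto_integral_of_dominated_convergence (fun x => ‖G x‖) ?_ hG.norm ?_ ?_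
    · intro n
      exact (chi_contDiff _).continuous.aestronglyMeasurable.mul hG.aestronglyMeasurable
    · intro n
      refine Eventually.of_forall fun x => ?_
      rw [norm_mul]
      refine mul_le_of_le_one_left (norm_nonneg _) ?_
      rw [Real.norm_eq_abs, abs_of_nonneg (chi_range _ x).1]
      exact (chi_range _ x).2
    · have hne : ∀ᵐ x : E2, x ≠ 0 := by
        have : (volume : Measure E2) {0} = 0 := measure_singleton 0
        exact compl_mem_ae_iff.2 this
      filter_upwards [hne] with x hx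
      have hx0 : 0 < ‖x‖ := norm_pos_iff.2 hx
      refine tendsto_const_nhds.congr' ?_
      obtain ⟨N, hN⟩ := exists_nat_gt (2 / ‖x‖)
      filter_upwards [eventually_ge_atTop N] with n hn
      have hn0 : (0 : ℝ) < n + 1 := by positivity
      have h1 : (N : ℝ) ≤ n := by exact_mod_cast hn
      rw [chi_far hn0, one_mul]
      rw [div_le_iff₀ hn0]
      rw [div_lt_iff₀ hx0] at hN
      nlinarith
  have hvol : ∀ n : ℕ, 2 * ((n + 1) * M * C)
      * (volume (Metric.closedBall (0 : E2) (2 / (n + 1)))).toReal = 32 * M * C * (1 / (n + 1)) := by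
    intro n
    have hn : (0 : ℝ) < n + 1 := by positivity
    rw [Real.volume_pi_closedBall _ (by positivity), ENNReal.toReal_ofReal (by positivity)]
    simp only [Fintype.card_fin]
    field_simp
    ring
  have hlim2 : Tendsto (fun n : ℕ => 32 * M * C * (1 / ((n : ℝ) + 1))) atTop (𝓝 (32 * M * C * 0)) :=
    tendsto_one_div_add_atTop_nhds_zero_nat.const_mul _
  have hlim := hlim1.add hlim2
  rw [mul_zero, add_zero] at hlim
  refine ge_of_tendsto' hlim fun n => ?_
  have := key n
  rwa [hvol n] at this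

end Pool.Agent.W8h56.MC
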