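import Mathlib

set_option autoImplicit false

namespace Pool.Agent.W8h56.MC

/-- The complex number `x₀ + i x₁`. -/
noncomputable def toC (x : Fin 2 → ℝ) : ℂ := ⟨x 0, x 1⟩

/-- `V` is a direction field off the origin: it is twice continuously differentiable and nowhere
zero off the origin, and at every point other than the origin the second derivative of `V` in every
direction is a nonpositive multiple of `V`. -/
structure DirField (V : (Fin 2 → ℝ) → (Fin 2 → ℝ)) : Prop where
  smooth : ContDiffOn ℝ 2 V {0}ᶜ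
  ne : ∀ x, x ≠ 0 → V x ≠ 0
  second : ∀ x, x ≠ 0 → ∀ ξ : Fin 2 → ℝ, ∃ a : ℝ, 0 ≤ a ∧
    fderiv ℝ (fderiv ℝ V) x ξ ξ = -(a • V x)

end Pool.Agent.W8h56.MC
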