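import Pool.Agent.W8h56.MC.ParabCal

set_option autoImplicit false

open Matrix Set Filter Topology MeasureTheory
open scoped NNReal ENNReal ContDiff

namespace Pool.Agent.W8h56.MC

open Pool.Agent.Helper188.Morrey

/-- two positive semidefinite quadratic forms in two variables have a nonnegative product -/
theorem psd_pair {c0 h c1 q0 q q1 : ℝ} (hc : ∀ a b : ℝ, 0 ≤ c0 * a ^ 2 + 2 * h * a * b + c1 * b ^ 2)
    (hq : ∀ a b : ℝ, 0 ≤ q0 * a ^ 2 + 2 * q * a * b + q1 * b ^ 2) :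
    0 ≤ c0 * q0 + 2 * h * q + c1 * q1 := by
  have a0 : 0 ≤ c0 := by simpa using hc 1 0
  have a1 : 0 ≤ c1 := by simpa using hc 0 1
  have b0 : 0 ≤ q0 := by simpa using hq 1 0
  have b1 : 0 ≤ q1 := by simpa using hq 0 1
  have dc : h ^ 2 ≤ c0 * c1 := by
    rcases eq_or_lt_of_le a0 with h0 | h0
    · rw [← h0] at hc ⊢
      have hh : h = 0 := by
        by_contra hne
        have h1 := hc (-(c1 + 1)) (2 * h)
        have h2 : 0 < h ^ 2 := by positivity
        nlinarith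
      rw [hh]; simp
    · have h1 := hc (-h) c0
      have h2 : 0 ≤ c0 * (c0 * c1 - h ^ 2) := by nlinarith
      have := nonneg_of_mul_nonneg_right h2 h0
      linarith
  have dq : q ^ 2 ≤ q0 * q1 := by
    rcases eq_or_lt_of_le b0 with h0 | h0
    · rw [← h0] at hq ⊢
      have hh : q = 0 := by
        by_contra hne
        have h1 := hq (-(q1 + 1)) (2 * q)
        have h2 : 0 < q ^ 2 := by positivity
        nlinarith
      rw [hh]; simp
    · have h1 := hq (-q) q0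
      have h2 : 0 ≤ q0 * (q0 * q1 - q ^ 2) := by nlinarith
      have := nonneg_of_mul_nonneg_right h2 h0
      linarith
  have e : (2 * h * q) ^ 2 ≤ (c0 * q0 + c1 * q1) ^ 2 := by
    have h1 : h ^ 2 * q ^ 2 ≤ (c0 * c1) * (q0 * q1) :=
      mul_le_mul dc dq (sq_nonneg _) (mul_nonneg a0 a1)
    nlinarith [sq_nonneg (c0 * q0 - c1 * q1)]
  have h3 := sq_le_sq.1 e
  have h4 : 0 ≤ c0 * q0 + c1 * q1 := by positivity
  rw [abs_of_nonneg h4] at h3
  linarith [neg_abs_le (2 * h * q)]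

/-- the space-time plane -/
abbrev Pr := ℝ × E2

section

variable {G : Pr → E2} {g : V4 → ℝ} {s : E2 → ℝ} {x : E2}

/-- the gradient of the family in space -/
noncomputable def Bm (G : Pr → E2) (p : Pr) : V4 := fun k i => fderiv ℝ G p (0, Pi.single i 1) k

/-- the derivative of the family in the parameter -/
noncomputable def Sv (G : Pr → E2) (p : Pr) : E2 := fderiv ℝ G p (1, 0)

/-- the stress along the family -/
noncomputable def tt (g : V4 → ℝ) (G : Pr → E2) (k i : Fin 2) (p : Pr) : ℝ :=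
  fderiv ℝ g (Bm G p) (E k i)

theorem fderivG_contDiff (hG : ContDiff ℝ 2 G) : ContDiff ℝ 1 (fderiv ℝ G) :=
  hG.fderiv_right (by norm_num)

theorem Bm_contDiff (hG : ContDiff ℝ 2 G) : ContDiff ℝ 1 (Bm G) := by
  refine contDiff_pi.2 fun k => contDiff_pi.2 fun i => ?_
  have h1 : ContDiff ℝ 1 (fun p => fderiv ℝ G p (0, Pi.single i 1)) :=
    (fderivG_contDiff hG).clm_apply contDiff_const
  exact contDiff_pi.1 h1 k

theorem Sv_contDiff (hG : ContDiff ℝ 2 G) : ContDiff ℝ 1 (Sv G) :=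
  (fderivG_contDiff hG).clm_apply contDiff_const

theorem tt_contDiff (hg : ContDiff ℝ ∞ g) (hG : ContDiff ℝ 2 G) (k i : Fin 2) :
    ContDiff ℝ 1 (tt g G k i) := by
  have hd : ContDiff ℝ 1 (fderiv ℝ g) := hg.fderiv_right (by norm_cast)
  exact (hd.comp (Bm_contDiff hG)).clm_apply contDiff_const

/-- the energy along the scaled family -/
noncomputable def Ph (g : V4 → ℝ) (G : Pr → E2) (q : ℝ × Pr × E2) : ℝ :=
  g (Bm G (q.1 * q.2.1.1, q.2.1.2)) + q.1 *
    ((tt g G 0 0 (q.1 * q.2.1.1, q.2.1.2) * Sv G (q.1 * q.2.1.1, q.2.1.2) 0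
      + tt g G 1 0 (q.1 * q.2.1.1, q.2.1.2) * Sv G (q.1 * q.2.1.1, q.2.1.2) 1) * q.2.2 0
    + (tt g G 0 1 (q.1 * q.2.1.1, q.2.1.2) * Sv G (q.1 * q.2.1.1, q.2.1.2) 0
      + tt g G 1 1 (q.1 * q.2.1.1, q.2.1.2) * Sv G (q.1 * q.2.1.1, q.2.1.2) 1) * q.2.2 1)

theorem Ph_contDiff (hg : ContDiff ℝ ∞ g) (hG : ContDiff ℝ 2 G) : ContDiff ℝ 1 (Ph g G) := by
  have h0 : ContDiff ℝ 1 (fun q : ℝ × Pr × E2 => ((q.1 * q.2.1.1, q.2.1.2) : Pr)) := by
    fun_prop
  have hB := (Bm_contDiff hG).comp h0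
  have hg1 : ContDiff ℝ 1 g := hg.of_le (by exact_mod_cast le_top)
  have hT := fun k i => (tt_contDiff hg hG k i).comp h0
  have hS := fun k => (contDiff_pi.1 (Sv_contDiff hG) k).comp h0
  have hc : ContDiff ℝ 1 (fun q : ℝ × Pr × E2 => q.1) := contDiff_fst
  have ha : ∀ i, ContDiff ℝ 1 (fun q : ℝ × Pr × E2 => q.2.2 i) := fun i => by fun_prop
  exact (hg1.comp hB).add (hc.mul (((((hT 0 0).mul (hS 0)).add ((hT 1 0).mul (hS 1))).mul (ha 0)).add
    ((((hT 0 1).mul (hS 0)).add ((hT 1 1).mul (hS 1))).mul (ha 1))))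

/-- the field -/
noncomputable def Xi (g : V4 → ℝ) (G : Pr → E2) (l : ℝ) (i : Fin 2) (p : Pr) : ℝ :=
  p.1 * (tt g G 0 i (l * p.1, p.2) * Sv G (l * p.1, p.2) 0
    + tt g G 1 i (l * p.1, p.2) * Sv G (l * p.1, p.2) 1)

theorem Xi_contDiff (hg : ContDiff ℝ ∞ g) (hG : ContDiff ℝ 2 G) (l : ℝ) (i : Fin 2) :
    ContDiff ℝ 1 (Xi g G l i) := by
  have h0 : ContDiff ℝ 1 (fun q : Pr => ((l * q.1, q.2) : Pr)) := by fun_prop
  have hT := fun k => (tt_contDiff hg hG k i).comp h0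
  have hS := fun k => (contDiff_pi.1 (Sv_contDiff hG) k).comp h0
  exact contDiff_fst.mul (((hT 0).mul (hS 0)).add ((hT 1).mul (hS 1)))

/-- derivative of a function of `(l s(y), y)` -/
theorem hd_family {f : Pr → ℝ} (hf : ContDiff ℝ 1 f) (l : ℝ) (hs : DifferentiableAt ℝ s x) :
    HD (fun y => f (l * s y, y)) x
      (l * dx 0 s x * fderiv ℝ f (l * s x, x) (1, 0)
        + fderiv ℝ f (l * s x, x) (0, Pi.single 0 1))
      (l * dx 1 s x * fderiv ℝ f (l * s x, x) (1, 0)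
        + fderiv ℝ f (l * s x, x) (0, Pi.single 1 1)) := by
  have h1 : HasFDerivAt f (fderiv ℝ f (l * s x, x)) (l * s x, x) :=
    (hf.differentiable (by simp) _).hasFDerivAt
  have h2 : HasFDerivAt (fun y => ((l * s y, y) : Pr))
      ((l • fderiv ℝ s x).prod (ContinuousLinearMap.id ℝ E2)) x :=
    (hs.hasFDerivAt.const_mul l).prodMk (hasFDerivAt_id x)
  have h3 := HasFDerivAt.comp (g := f) (f := fun y => ((l * s y, y) : Pr)) x h1 h2
  have e : fderiv ℝ (fun y => f (l * s y, y)) x = _ := h3.fderiv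
  have key : ∀ i : Fin 2, dx i (fun y => f (l * s y, y)) x =
      l * dx i s x * fderiv ℝ f (l * s x, x) (1, 0)
        + fderiv ℝ f (l * s x, x) (0, Pi.single i 1) := by
    intro i
    rw [dx, e]
    simp only [ContinuousLinearMap.comp_apply, ContinuousLinearMap.prod_apply,
      ContinuousLinearMap.smul_apply, ContinuousLinearMap.id_apply, smul_eq_mul]
    have e2 : ((l * (fderiv ℝ s x) (Pi.single i 1), (Pi.single i 1 : E2)) : Pr)
        = (l * dx i s x) • ((1, 0) : Pr) + ((0, Pi.single i 1) : Pr) := by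
      simp [dx]
    rw [e2, map_add, map_smul, smul_eq_mul]
  exact ⟨h3.differentiableAt, key 0, key 1⟩

theorem deriv_family {f : Pr → ℝ} (hf : ContDiff ℝ 1 f) (l c : ℝ) (x : E2) :
    HasDerivAt (fun l => f (l * c, x)) (c * fderiv ℝ f (l * c, x) (1, 0)) l := by
  have h1 : HasFDerivAt f (fderiv ℝ f (l * c, x)) (l * c, x) :=
    (hf.differentiable (by simp) _).hasFDerivAt
  have h2 : HasDerivAt (fun l => ((l * c, x) : Pr)) ((c, 0) : Pr) l := by
    have := ((hasDerivAt_id l).mul_const c).prodMk (hasDerivAt_const l x)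
    simpa using this
  have h3 := h1.comp_hasDerivAt l h2
  have e2 : ((c, 0) : Pr) = c • ((1, 0) : Pr) := by simp
  rw [e2, map_smul, smul_eq_mul] at h3
  exact h3

theorem secG (hG : ContDiff ℝ 2 G) (p v w : Pr) (k : Fin 2) :
    fderiv ℝ (fun p => fderiv ℝ G p w k) p v = fderiv ℝ (fderiv ℝ G) p v w k := by
  have h0 : DifferentiableAt ℝ (fderiv ℝ G) p :=
    (fderivG_contDiff hG).differentiable (by simp) p
  have h1 : HasFDerivAt (fun y => fderiv ℝ G y w) _ p :=
    h0.hasFDerivAt.clm_apply (hasFDerivAt_const w p)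
  have h2 : HasFDerivAt (fun y => fderiv ℝ G y w k) _ p := (hasFDerivAt_pi'.1 h1) k
  rw [h2.fderiv]
  simp

theorem secG_symm (hG : ContDiff ℝ 2 G) (p v w : Pr) :
    fderiv ℝ (fderiv ℝ G) p v w = fderiv ℝ (fderiv ℝ G) p w v :=
  (hG.contDiffAt.isSymmSndFDerivAt (by rw [minSmoothness_of_isRCLikeNormedField])).eq v w

/-- the derivative of the stress -/
theorem tt_fderiv (hg : ContDiff ℝ ∞ g) (hG : ContDiff ℝ 2 G) (k i : Fin 2) (p v : Pr) :
    fderiv ℝ (tt g G k i) p v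
      = fderiv ℝ (fderiv ℝ g) (Bm G p) (fun k j => fderiv ℝ (fderiv ℝ G) p v (0, Pi.single j 1) k)
        (E k i) := by
  have hd : ContDiff ℝ ∞ (fderiv ℝ g) := hg.fderiv_right (by norm_cast)
  have h1 : HasFDerivAt (fderiv ℝ g) (fderiv ℝ (fderiv ℝ g) (Bm G p)) (Bm G p) :=
    (hd.differentiable (by simp) _).hasFDerivAt
  have hB : HasFDerivAt (Bm G) (fderiv ℝ (Bm G) p) p :=
    ((Bm_contDiff hG).differentiable (by simp) p).hasFDerivAt
  have h2 := h1.comp p hB
  have h3 := h2.clm_apply (hasFDerivAt_const (E k i) p)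
  have e : fderiv ℝ (tt g G k i) p = _ := h3.fderiv
  have eB : fderiv ℝ (Bm G) p v
      = fun k j => fderiv ℝ (fderiv ℝ G) p v (0, Pi.single j 1) k := by
    have h4 : HasFDerivAt (Bm G) (ContinuousLinearMap.pi fun k => ContinuousLinearMap.pi fun j =>
        fderiv ℝ (fun p => fderiv ℝ G p (0, Pi.single j 1) k) p) p := by
      refine hasFDerivAt_pi.2 fun k => hasFDerivAt_pi.2 fun j => ?_
      have h5 : ContDiff ℝ 1 (fun p => fderiv ℝ G p (0, Pi.single j 1) k) :=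
        contDiff_pi.1 ((fderivG_contDiff hG).clm_apply contDiff_const) k
      exact (h5.differentiable (by simp) p).hasFDerivAt
    rw [h4.fderiv]
    funext k j
    exact secG hG p v _ k
  rw [e, ← eB]
  simp

theorem g_fderiv (hg : ContDiff ℝ ∞ g) (hG : ContDiff ℝ 2 G) (p v : Pr) :
    fderiv ℝ (fun p => g (Bm G p)) p v =
      fderiv ℝ (fderiv ℝ G) p v (0, Pi.single 0 1) 0 * tt g G 0 0 p
      + fderiv ℝ (fderiv ℝ G) p v (0, Pi.single 1 1) 0 * tt g G 0 1 p
      + fderiv ℝ (fderiv ℝ G) p v (0, Pi.single 0 1) 1 * tt g G 1 0 p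
      + fderiv ℝ (fderiv ℝ G) p v (0, Pi.single 1 1) 1 * tt g G 1 1 p := by
  have h1 : HasFDerivAt g (fderiv ℝ g (Bm G p)) (Bm G p) :=
    (hg.differentiable (by simp) _).hasFDerivAt
  have hB : HasFDerivAt (Bm G) (fderiv ℝ (Bm G) p) p :=
    ((Bm_contDiff hG).differentiable (by simp) p).hasFDerivAt
  have eB : fderiv ℝ (Bm G) p v
      = fun k j => fderiv ℝ (fderiv ℝ G) p v (0, Pi.single j 1) k := by
    have h4 : HasFDerivAt (Bm G) (ContinuousLinearMap.pi fun k => ContinuousLinearMap.pi fun j =>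
        fderiv ℝ (fun p => fderiv ℝ G p (0, Pi.single j 1) k) p) p := by
      refine hasFDerivAt_pi.2 fun k => hasFDerivAt_pi.2 fun j => ?_
      have h5 : ContDiff ℝ 1 (fun p => fderiv ℝ G p (0, Pi.single j 1) k) :=
        contDiff_pi.1 ((fderivG_contDiff hG).clm_apply contDiff_const) k
      exact (h5.differentiable (by simp) p).hasFDerivAt
    rw [h4.fderiv]
    funext k j
    exact secG hG p v _ k
  have e : fderiv ℝ (fun p => g (Bm G p)) p = _ := (h1.comp p hB).fderiv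
  rw [e, ContinuousLinearMap.comp_apply, eB, expand]
  rfl

end

end Pool.Agent.W8h56.MC
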