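import Pool.Agent.W8h56.MC.Fam

set_option autoImplicit false

open Matrix Set Filter Topology MeasureTheory
open scoped NNReal ENNReal ContDiff

namespace Pool.Agent.W8h56.MC

open Pool.Agent.Helper188.Morrey

section

variable {G : Pr → E2} {g : V4 → ℝ} {s : E2 → ℝ} {x : E2}

/-- the derivative of the energy along the scaled family -/
noncomputable def dPh (g : V4 → ℝ) (G : Pr → E2) (q : ℝ × Pr × E2) : ℝ :=
  fderiv ℝ (Ph g G) q (1, 0)

theorem Ph_hasDeriv (hg : ContDiff ℝ ∞ g) (hG : ContDiff ℝ 2 G) (l : ℝ) (p : Pr) (a : E2) :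
    HasDerivAt (fun l => Ph g G (l, p, a)) (dPh g G (l, p, a)) l := by
  have h1 : HasFDerivAt (Ph g G) (fderiv ℝ (Ph g G) (l, p, a)) (l, p, a) :=
    ((Ph_contDiff hg hG).differentiable (by simp) _).hasFDerivAt
  have h2 : HasDerivAt (fun l : ℝ => ((l, p, a) : ℝ × Pr × E2)) (1, 0) l :=
    (hasDerivAt_id l).prodMk (hasDerivAt_const l (p, a))
  exact h1.comp_hasDerivAt l h2

theorem dPh_continuous (hg : ContDiff ℝ ∞ g) (hG : ContDiff ℝ 2 G) : Continuous (dPh g G) :=
  ((Ph_contDiff hg hG).continuous_fderiv (by simp)).clm_apply continuous_const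

/-- the remainder of the family -/
noncomputable def Nn (g : V4 → ℝ) (G : Pr → E2) (p : Pr) : ℝ :=
  fderiv ℝ (tt g G 0 0) p (0, Pi.single 0 1) * Sv G p 0
  + fderiv ℝ (tt g G 1 0) p (0, Pi.single 0 1) * Sv G p 1
  + fderiv ℝ (tt g G 0 1) p (0, Pi.single 1 1) * Sv G p 0
  + fderiv ℝ (tt g G 1 1) p (0, Pi.single 1 1) * Sv G p 1

/-- the pointwise identity -/
theorem div_family (hg : ContDiff ℝ ∞ g) (hG : ContDiff ℝ 2 G) (l : ℝ)
    (hs : DifferentiableAt ℝ s x) :
    dx 0 (fun y => Xi g G l 0 (s y, y)) x + dx 1 (fun y => Xi g G l 1 (s y, y)) x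
      = dPh g G (l, (s x, x), ![dx 0 s x, dx 1 s x]) + s x * Nn g G (l * s x, x) := by
  have hSc : ∀ k, ContDiff ℝ 1 (fun p => Sv G p k) := fun k => contDiff_pi.1 (Sv_contDiff hG) k
  have hT := fun k i => hd_family (f := tt g G k i) (tt_contDiff hg hG k i) l hs
  have hS := fun k => hd_family (f := fun p => Sv G p k) (hSc k) l hs
  have h0 := HD.of_diff hs
  have hX := fun i => h0.mul (((hT 0 i).mul (hS 0)).add ((hT 1 i).mul (hS 1)))
  have eX : ∀ i, (fun y => Xi g G l i (s y, y)) = fun y => s y * (tt g G 0 i (l * s y, y)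
      * Sv G (l * s y, y) 0 + tt g G 1 i (l * s y, y) * Sv G (l * s y, y) 1) := fun i => rfl
  rw [eX, eX, (hX 0).2.1, (hX 1).2.2]
  -- the derivative of the energy
  have hgB : ContDiff ℝ 1 (fun p => g (Bm G p)) :=
    (hg.of_le (by exact_mod_cast le_top)).comp (Bm_contDiff hG)
  have dT := fun k i => deriv_family (f := tt g G k i) (tt_contDiff hg hG k i) l (s x) x
  have dS := fun k => deriv_family (f := fun p => Sv G p k) (hSc k) l (s x) x
  have dB := deriv_family (f := fun p => g (Bm G p)) hgB l (s x) x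
  have hP := dB.add ((hasDerivAt_id l).mul
    (((((dT 0 0).mul (dS 0)).add ((dT 1 0).mul (dS 1))).mul_const (dx 0 s x)).add
    ((((dT 0 1).mul (dS 0)).add ((dT 1 1).mul (dS 1))).mul_const (dx 1 s x))))
  have hP' := Ph_hasDeriv hg hG l (s x, x) ![dx 0 s x, dx 1 s x]
  have eP : (fun l => Ph g G (l, (s x, x), ![dx 0 s x, dx 1 s x])) = _ := rfl
  have hu := hP'.unique hP
  rw [hu, g_fderiv hg hG]
  -- mixed second derivatives
  have hm : ∀ k i, fderiv ℝ (fun p => Sv G p k) (l * s x, x) (0, Pi.single i 1)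
      = fderiv ℝ (fderiv ℝ G) (l * s x, x) (1, 0) (0, Pi.single i 1) k := by
    intro k i
    have h1 : fderiv ℝ (fun p => Sv G p k) (l * s x, x) (0, Pi.single i 1)
        = fderiv ℝ (fderiv ℝ G) (l * s x, x) (0, Pi.single i 1) (1, 0) k :=
      secG hG _ _ _ k
    rw [h1, secG_symm hG]
  rw [hm, hm, hm, hm, Nn]
  simp only [Pi.mul_apply, Pi.add_apply, id]
  ring

/-- The condition on the second derivatives of the family. -/
def Curv (G : Pr → E2) (c : ℝ) (p : Pr) : Prop :=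
  Sv G p = 0 ∨ ∀ ξ : E2, ∃ a : ℝ, 0 ≤ a ∧
    c • fderiv ℝ (fderiv ℝ G) p (0, ξ) (0, ξ) = -(a • Sv G p)

/-- the sign of the remainder -/
theorem Nn_sign {W : M2 → ℝ} (hW : RankOneConvex W) (hs : ContDiff ℝ ∞ (onV W))
    (hG : ContDiff ℝ 2 G) {c : ℝ} {p : Pr} (hc : Curv G c p) : c * Nn (onV W) G p ≤ 0 := by
  rcases hc with h0 | hc
  · rw [Nn, h0]; simp
  by_cases hS : Sv G p = 0
  · rw [Nn, hS]; simp
  set S := Sv G p with hSd
  set Q := fderiv ℝ (fderiv ℝ (onV W)) (Bm G p) with hQ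
  set D : Fin 2 → Fin 2 → E2 := fun i j =>
    fderiv ℝ (fderiv ℝ G) p (0, Pi.single i 1) (0, Pi.single j 1) with hD
  have hsym : D 1 0 = D 0 1 := secG_symm hG _ _ _
  -- the coefficients
  have hexp : ∀ a b : ℝ, fderiv ℝ (fderiv ℝ G) p (0, ![a, b]) (0, ![a, b])
      = (a ^ 2) • D 0 0 + (2 * a * b) • D 0 1 + (b ^ 2) • D 1 1 := by
    intro a b
    have e : ((0, ![a, b]) : Pr) = a • ((0, Pi.single 0 1) : Pr) + b • ((0, Pi.single 1 1) : Pr) := by
      simp only [Prod.smul_mk, Prod.mk_add_mk, smul_zero, add_zero]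
      congr 1
      ext i; fin_cases i <;> simp
    rw [e]
    simp only [map_add, map_smul, ContinuousLinearMap.add_apply, ContinuousLinearMap.smul_apply]
    have e2 : fderiv ℝ (fderiv ℝ G) p (0, Pi.single 1 1) (0, Pi.single 0 1) = D 0 1 := hsym
    rw [e2]
    simp only [hD]
    module
  obtain ⟨c0, hc00, hc0⟩ := hc ![1, 0]
  obtain ⟨c1, hc10, hc1⟩ := hc ![0, 1]
  obtain ⟨c2, hc20, hc2⟩ := hc ![1, 1]
  rw [hexp] at hc0 hc1 hc2
  have k0 : c • D 0 0 = -(c0 • S) := by rw [← hc0]; simp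
  have k1 : c • D 1 1 = -(c1 • S) := by rw [← hc1]; simp
  set h : ℝ := (c2 - c0 - c1) / 2 with hh
  have k2 : c • D 0 1 = -(h • S) := by
    have e1 : (2 : ℝ) • (c • D 0 1) = (2 : ℝ) • (-(h • S)) := by
      have e2 : c • ((1:ℝ) ^ 2 • D 0 0 + (2 * 1 * 1 : ℝ) • D 0 1 + (1:ℝ) ^ 2 • D 1 1)
          = c • D 0 0 + (2 : ℝ) • (c • D 0 1) + c • D 1 1 := by module
      rw [e2, k0, k1] at hc2
      have e3 : (2 : ℝ) • (c • D 0 1) = c0 • S + c1 • S - c2 • S := by
        have := congrArg (fun v => v + c0 • S + c1 • S) hc2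
        calc (2 : ℝ) • (c • D 0 1)
            = -(c0 • S) + (2 : ℝ) • (c • D 0 1) + -(c1 • S) + c0 • S + c1 • S := by module
          _ = -(c2 • S) + c0 • S + c1 • S := this
          _ = _ := by module
      rw [e3, hh]
      module
    have := smul_right_injective E2 (by norm_num : (2:ℝ) ≠ 0) e1
    exact this
  have hpsd : ∀ a b : ℝ, 0 ≤ c0 * a ^ 2 + 2 * h * a * b + c1 * b ^ 2 := by
    intro a b
    obtain ⟨d, hd0, hd⟩ := hc ![a, b]
    rw [hexp] at hd
    have e : c • ((a ^ 2) • D 0 0 + (2 * a * b) • D 0 1 + (b ^ 2) • D 1 1)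
        = -((c0 * a ^ 2 + 2 * h * a * b + c1 * b ^ 2) • S) := by
      have : c • ((a ^ 2) • D 0 0 + (2 * a * b) • D 0 1 + (b ^ 2) • D 1 1)
          = (a ^ 2) • (c • D 0 0) + (2 * a * b) • (c • D 0 1) + (b ^ 2) • (c • D 1 1) := by module
      rw [this, k0, k1, k2]
      module
    rw [e] at hd
    have hd' := neg_injective hd
    have : c0 * a ^ 2 + 2 * h * a * b + c1 * b ^ 2 = d := smul_left_injective ℝ hS hd'
    rw [this]; exact hd0
  -- the rank-one matrices
  set R : E2 → V4 := fun η => fun k j => S k * η j with hR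
  have hRadd : ∀ a b : ℝ, R ![a, b] = a • R ![1, 0] + b • R ![0, 1] := by
    intro a b
    ext k j
    fin_cases j <;> simp [hR, mul_comm]
  have hq : ∀ a b : ℝ, 0 ≤ Q (R ![1, 0]) (R ![1, 0]) * a ^ 2 + 2 * Q (R ![1, 0]) (R ![0, 1]) * a * b
      + Q (R ![0, 1]) (R ![0, 1]) * b ^ 2 := by
    intro a b
    have h1 : 0 ≤ Q (R ![a, b]) (R ![a, b]) := by
      refine second_order hW hs _ _ ?_
      rw [det_fin_two]
      simp only [hR, Matrix.of_apply]
      ring
    rw [hRadd] at h1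
    simp only [map_add, map_smul, ContinuousLinearMap.add_apply, ContinuousLinearMap.smul_apply,
      smul_eq_mul] at h1
    have h2 : Q (R ![0, 1]) (R ![1, 0]) = Q (R ![1, 0]) (R ![0, 1]) := second_symm hs _ _ _
    rw [h2] at h1
    linarith
  have hfin := psd_pair hpsd hq
  -- the remainder in terms of the form
  have hcD : ∀ i : Fin 2, c • (fun k j => D i j k : V4)
      = -((if i = 0 then c0 else h) • R ![1, 0] + (if i = 0 then h else c1) • R ![0, 1]) := by
    intro i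
    ext k j
    have a0 := congrFun k0 k
    have a1 := congrFun k1 k
    have a2 := congrFun k2 k
    simp only [Pi.smul_apply, Pi.neg_apply, smul_eq_mul] at a0 a1 a2
    have a3 : c * D 1 0 k = -(h * S k) := by rw [hsym]; exact a2
    fin_cases i <;> fin_cases j <;>
      simp only [Fin.zero_eta, Fin.mk_one, Pi.smul_apply, Pi.neg_apply, Pi.add_apply, smul_eq_mul,
        if_true, if_neg (one_ne_zero : (1 : Fin 2) ≠ 0), hR, Matrix.cons_val_zero,
        Matrix.cons_val_one] <;> linarith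
  have hN : Nn (onV W) G p = Q (fun k j => D 0 j k : V4) (R ![1, 0])
      + Q (fun k j => D 1 j k : V4) (R ![0, 1]) := by
    have hL : ∀ (L : V4 →L[ℝ] ℝ) (η : E2), L (R η) =
        S 0 * (η 0 * L (E 0 0) + η 1 * L (E 0 1)) + S 1 * (η 0 * L (E 1 0) + η 1 * L (E 1 1)) := by
      intro L η
      rw [expand L]
      simp only [hR]
      ring
    rw [Nn, tt_fderiv hs hG, tt_fderiv hs hG, tt_fderiv hs hG, tt_fderiv hs hG, hL, hL]
    simp only [Matrix.cons_val_zero, Matrix.cons_val_one]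
    ring
  rw [hN]
  have e1 : c * (Q (fun k j => D 0 j k : V4) (R ![1, 0]) + Q (fun k j => D 1 j k : V4) (R ![0, 1]))
      = Q (c • (fun k j => D 0 j k : V4)) (R ![1, 0])
        + Q (c • (fun k j => D 1 j k : V4)) (R ![0, 1]) := by
    simp only [map_smul, ContinuousLinearMap.smul_apply, smul_eq_mul]
    ring
  rw [e1, hcD, hcD]
  simp only [if_true, if_neg (one_ne_zero : (1 : Fin 2) ≠ 0), map_neg, map_add, map_smul,
    ContinuousLinearMap.neg_apply, ContinuousLinearMap.add_apply, ContinuousLinearMap.smul_apply,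
    smul_eq_mul]
  have h2 : Q (R ![0, 1]) (R ![1, 0]) = Q (R ![1, 0]) (R ![0, 1]) := second_symm hs _ _ _
  rw [h2]
  linarith

end

end Pool.Agent.W8h56.MC
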