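import Pool.Agent.W8h56.MC.FamId

set_option autoImplicit false

open Matrix Set Filter Topology MeasureTheory
open scoped NNReal ENNReal ContDiff

namespace Pool.Agent.W8h56.MC

open Pool.Agent.Helper188.Morrey

section

variable {G : Pr → E2} {g : V4 → ℝ} {s : E2 → ℝ} {x : E2} {K : ℝ≥0} {Ω : Set E2}

/-- the gradient of a scalar function as a vector -/
noncomputable def ds (s : E2 → ℝ) (x : E2) : E2 := ![dx 0 s x, dx 1 s x]

theorem dx_measurable (i : Fin 2) : Measurable (fun x => dx i s x) :=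
  measurable_fderiv_apply_const ℝ s (Pi.single i 1)

theorem ds_measurable : Measurable (ds s) := by
  refine measurable_pi_iff.2 fun i => ?_
  fin_cases i
  · exact dx_measurable 0
  · exact dx_measurable 1

theorem single_norm_le (l : Fin 2) : ‖(Pi.single l (1:ℝ) : E2)‖ ≤ 1 := by
  refine (pi_norm_le_iff_of_nonneg zero_le_one).2 fun k => ?_
  rw [Pi.single_apply]
  split_ifs <;> simp

theorem dx_bound (hs : LipschitzWith K s) (i : Fin 2) (x : E2) : |dx i s x| ≤ K := by
  have h1 : ‖fderiv ℝ s x‖ ≤ K := norm_fderiv_le_of_lipschitz ℝ hs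
  have h2 := ContinuousLinearMap.le_opNorm (fderiv ℝ s x) (Pi.single i 1)
  rw [dx, ← Real.norm_eq_abs]
  calc ‖fderiv ℝ s x (Pi.single i 1)‖ ≤ ‖fderiv ℝ s x‖ * ‖(Pi.single i (1:ℝ) : E2)‖ := h2
    _ ≤ K * 1 := mul_le_mul h1 (single_norm_le i) (norm_nonneg _) K.2
    _ = K := mul_one _

theorem ds_bound (hs : LipschitzWith K s) (x : E2) : ‖ds s x‖ ≤ K := by
  refine (pi_norm_le_iff_of_nonneg K.2).2 fun i => ?_
  fin_cases i
  · exact dx_bound hs 0 x
  · exact dx_bound hs 1 x

theorem s_bounded (hs : LipschitzWith K s) {R : ℝ} (hR : 0 ≤ R)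
    (h0 : ∀ x, x ∉ Metric.ball (0 : E2) R → s x = 0) (x : E2) : |s x| ≤ 2 * K * (R + 1) := by
  have hK : (0:ℝ) ≤ K := K.2
  by_cases hx : x ∈ Metric.ball (0 : E2) R
  · set y : E2 := fun _ => R with hy
    have hyn : y ∉ Metric.ball (0 : E2) R := by
      rw [Metric.mem_ball, dist_zero_right, not_lt]
      calc R = |y 0| := by rw [hy, abs_of_nonneg hR]
        _ ≤ ‖y‖ := norm_le_pi_norm y 0
    have hyN : ‖y‖ ≤ R := (pi_norm_le_iff_of_nonneg hR).2 fun i => by
      rw [hy, Real.norm_eq_abs, abs_of_nonneg hR]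
    have h1 := hs.dist_le_mul x y
    rw [h0 y hyn, Real.dist_eq, sub_zero] at h1
    rw [Metric.mem_ball, dist_zero_right] at hx
    have h2 : dist x y ≤ 2 * R := by
      rw [dist_eq_norm]
      calc ‖x - y‖ ≤ ‖x‖ + ‖y‖ := norm_sub_le _ _
        _ ≤ 2 * R := by linarith
    calc |s x| ≤ K * dist x y := h1
      _ ≤ K * (2 * R) := mul_le_mul_of_nonneg_left h2 hK
      _ ≤ 2 * K * (R + 1) := by nlinarith
  · rw [h0 x hx, abs_zero]; positivity

/-- a uniform bound for a continuous function along the family -/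
theorem family_bound (hs : LipschitzWith K s) {R : ℝ} (hR : 0 ≤ R)
    (h0 : ∀ x, x ∉ Metric.ball (0 : E2) R → s x = 0) {φ : ℝ × Pr × E2 → ℝ} (hφ : Continuous φ)
    (L : ℝ) : ∃ C : ℝ, ∀ l : ℝ, |l| ≤ L → ∀ x ∈ Metric.ball (0 : E2) R,
      |φ (l, (s x, x), ds s x)| ≤ C := by
  set M : ℝ := max L (max (max (2 * K * (R + 1)) R) K) with hM
  obtain ⟨C, hC⟩ := (isCompact_closedBall (0 : ℝ × Pr × E2) M).exists_bound_of_continuousOn
    hφ.continuousOn
  refine ⟨C, fun l hl x hx => hC _ ?_⟩
  rw [Metric.mem_closedBall, dist_zero_right, Prod.norm_def, Prod.norm_def, Prod.norm_def]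
  rw [Metric.mem_ball, dist_zero_right] at hx
  refine max_le (hl.trans (le_max_left _ _)) (max_le (max_le ?_ ?_) ?_)
  · exact (s_bounded hs hR h0 x).trans
      ((le_max_left _ _).trans ((le_max_left _ _).trans (le_max_right _ _)))
  · exact hx.le.trans ((le_max_right _ _).trans ((le_max_left _ _).trans (le_max_right _ _)))
  · exact (ds_bound hs x).trans ((le_max_right _ _).trans (le_max_right _ _))

theorem family_measurable (hs : LipschitzWith K s) {φ : ℝ × Pr × E2 → ℝ} (hφ : Continuous φ)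
    (l : ℝ) : Measurable (fun x => φ (l, (s x, x), ds s x)) := by
  have h1 : Measurable (fun x => ((l, (s x, x), ds s x) : ℝ × Pr × E2)) :=
    measurable_const.prodMk ((hs.continuous.measurable.prodMk measurable_id).prodMk ds_measurable)
  exact hφ.measurable.comp h1

theorem family_integrable (hs : LipschitzWith K s) {R : ℝ} (hR : 0 ≤ R)
    (h0 : ∀ x, x ∉ Metric.ball (0 : E2) R → s x = 0) {φ : ℝ × Pr × E2 → ℝ} (hφ : Continuous φ)
    (l : ℝ) : Integrable (fun x => φ (l, (s x, x), ds s x))
      (volume.restrict (Metric.ball (0 : E2) R)) := by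
  have : IsFiniteMeasure ((volume : Measure E2).restrict (Metric.ball (0 : E2) R)) := ⟨by
    rw [Measure.restrict_apply_univ]; exact measure_ball_lt_top⟩
  obtain ⟨C, hC⟩ := family_bound hs hR h0 hφ |l|
  refine Integrable.of_bound (family_measurable hs hφ l).aestronglyMeasurable C ?_
  filter_upwards [ae_restrict_mem Metric.isOpen_ball.measurableSet] with x hx
  exact hC l le_rfl x hx

/-- the energy of the scaled family is differentiable in the scale -/
theorem J_deriv (hg : ContDiff ℝ ∞ g) (hG : ContDiff ℝ 2 G) (hs : LipschitzWith K s) {R : ℝ}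
    (hR : 0 ≤ R) (h0 : ∀ x, x ∉ Metric.ball (0 : E2) R → s x = 0) (l : ℝ) :
    HasDerivAt (fun l => ∫ x in Metric.ball (0 : E2) R, Ph g G (l, (s x, x), ds s x))
      (∫ x in Metric.ball (0 : E2) R, dPh g G (l, (s x, x), ds s x)) l := by
  have : IsFiniteMeasure ((volume : Measure E2).restrict (Metric.ball (0 : E2) R)) := ⟨by
    rw [Measure.restrict_apply_univ]; exact measure_ball_lt_top⟩
  have hPc : Continuous (Ph g G) := (Ph_contDiff hg hG).continuous
  have hdc := dPh_continuous hg hG
  obtain ⟨C, hC⟩ := family_bound hs hR h0 hdc (|l| + 1)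
  refine (hasDerivAt_integral_of_dominated_loc_of_deriv_le (bound := fun _ => C)
    (F := fun l x => Ph g G (l, (s x, x), ds s x)) (F' := fun l x => dPh g G (l, (s x, x), ds s x))
    (s := Metric.ball l 1) (Metric.ball_mem_nhds l one_pos)
    (Eventually.of_forall fun l => (family_measurable hs hPc l).aestronglyMeasurable)
    (family_integrable hs hR h0 hPc l) (family_measurable hs hdc l).aestronglyMeasurable ?_
    (integrable_const _) ?_).2
  · filter_upwards [ae_restrict_mem Metric.isOpen_ball.measurableSet] with x hx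
    intro l' hl'
    refine hC l' ?_ x hx
    rw [Metric.mem_ball, Real.dist_eq] at hl'
    have := abs_sub_abs_le_abs_sub l' l
    linarith
  · exact Eventually.of_forall fun x l' _ => Ph_hasDeriv hg hG l' (s x, x) (ds s x)

/-- the field is Lipschitz -/
theorem Xi_lipschitz (hg : ContDiff ℝ ∞ g) (hG : ContDiff ℝ 2 G) (hs : LipschitzWith K s) {R : ℝ}
    (hR : 0 ≤ R) (h0 : ∀ x, x ∉ Metric.ball (0 : E2) R → s x = 0) (l : ℝ) :
    ∃ C : ℝ≥0, LipschitzWith C (fun y : E2 => (fun i => Xi g G l i (s y, y) : E2)) := by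
  have hM0 : 0 < max (2 * K * (R + 1)) R + 1 := by
    have : 0 ≤ max (2 * (K:ℝ) * (R + 1)) R := hR.trans (le_max_right _ _)
    linarith
  let β : ContDiffBump (0 : Pr) := ⟨max (2 * K * (R + 1)) R + 1, max (2 * K * (R + 1)) R + 2,
    hM0, by linarith⟩
  have hβ : ContDiff ℝ 1 (β : Pr → ℝ) := β.contDiff
  have h1 : ∀ i, ∃ C : ℝ≥0, LipschitzWith C (fun p : Pr => β p * Xi g G l i p) := fun i =>
    ⟨_, ((hβ.mul (Xi_contDiff hg hG l i)).lipschitzWith_of_hasCompactSupport
      (β.hasCompactSupport.mul_right) (by simp)).choose_spec⟩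
  choose C hC using h1
  have h2 : LipschitzWith (max K 1) (fun y : E2 => ((s y, y) : Pr)) := hs.prodMk LipschitzWith.id
  refine ⟨max (C 0) (C 1) * max K 1, ?_⟩
  refine LipschitzWith.of_dist_le_mul fun y z => ?_
  rw [dist_pi_le_iff (by positivity)]
  intro i
  have e : ∀ y : E2, Xi g G l i (s y, y) = β (s y, y) * Xi g G l i (s y, y) := by
    intro y
    by_cases hy : y ∈ Metric.ball (0 : E2) R
    · have : (s y, y) ∈ Metric.closedBall (0 : Pr) β.rIn := by
        rw [Metric.mem_closedBall, dist_zero_right, Prod.norm_def]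
        rw [Metric.mem_ball, dist_zero_right] at hy
        show max _ _ ≤ max (2 * K * (R + 1)) R + 1
        have h3 := s_bounded hs hR h0 y
        have h4 : 2 * (K:ℝ) * (R + 1) ≤ max (2 * K * (R + 1)) R := le_max_left _ _
        have h5 : R ≤ max (2 * (K:ℝ) * (R + 1)) R := le_max_right _ _
        refine max_le ?_ ?_
        · simp only [Real.norm_eq_abs]; linarith
        · simp only; linarith
      rw [β.one_of_mem_closedBall this, one_mul]
    · rw [h0 y hy]
      simp [Xi]
  rw [e y, e z]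
  have h3 := (hC i).comp h2
  have h4 := h3.dist_le_mul y z
  simp only [Function.comp] at h4
  refine h4.trans (mul_le_mul_of_nonneg_right ?_ dist_nonneg)
  push_cast
  refine mul_le_mul_of_nonneg_right ?_ (by positivity)
  fin_cases i
  · exact le_max_left _ _
  · exact le_max_right _ _

/-- the derivative of the energy in the scale is nonnegative -/
theorem J_deriv_nonneg {W : M2 → ℝ} (hW : RankOneConvex W) (hg : ContDiff ℝ ∞ (onV W))
    (hG : ContDiff ℝ 2 G) (hs : LipschitzWith K s) {R : ℝ}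
    (hR : 0 ≤ R) (h0 : ∀ x, x ∉ Metric.ball (0 : E2) R → s x = 0) {l : ℝ}
    (hc : ∀ x, Curv G (s x) (l * s x, x)) :
    0 ≤ ∫ x in Metric.ball (0 : E2) R, dPh (onV W) G (l, (s x, x), ds s x) := by
  obtain ⟨C, hC⟩ := Xi_lipschitz hg hG hs hR h0 l
  set X : E2 → E2 := fun y => (fun i => Xi (onV W) G l i (s y, y) : E2) with hX
  have hX0 : ∀ x, x ∉ Metric.ball (0 : E2) R → X x = 0 := by
    intro x hx
    ext i
    simp [hX, Xi, h0 x hx]
  have h1 := fun i => integral_grad hC Metric.isOpen_ball Metric.isBounded_ball hX0 i i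
  have hi : ∀ i, Integrable (fun x => grad X x i i) (volume.restrict (Metric.ball (0 : E2) R)) :=
    fun i => integrable_comp hC Metric.isBounded_ball (φ := fun A => A i i) (by fun_prop)
  have h2 : ∫ x in Metric.ball (0 : E2) R, (grad X x 0 0 + grad X x 1 1) = 0 := by
    rw [integral_add (hi 0) (hi 1), h1, h1, add_zero]
  rw [← h2]
  refine integral_mono_ae ((hi 0).add (hi 1))
    (family_integrable hs hR h0 (dPh_continuous hg hG) l) ?_
  filter_upwards [ae_restrict_of_ae hs.ae_differentiableAt,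
    ae_restrict_of_ae hC.ae_differentiableAt] with x hx hxX
  have h3 := div_family hg hG l hx
  have h4 := Nn_sign hW hg hG (hc x)
  have e : ∀ i, grad X x i i = dx i (fun y => Xi (onV W) G l i (s y, y)) x := by
    intro i
    rw [grad_apply, ← dx_comp hxX]
  show grad X x 0 0 + grad X x 1 1 ≤ _
  rw [e, e, h3]
  have : ds s x = ![dx 0 s x, dx 1 s x] := rfl
  rw [this]
  linarith

/-- the gradient of the member of the family -/
theorem grad_family (hG : ContDiff ℝ 2 G) (hs : DifferentiableAt ℝ s x) (k i : Fin 2) :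
    grad (fun y => G (s y, y)) x k i = Bm G (s x, x) k i + Sv G (s x, x) k * dx i s x := by
  have h1 : HasFDerivAt G (fderiv ℝ G (s x, x)) (s x, x) :=
    (hG.differentiable (by simp) _).hasFDerivAt
  have h2 : HasFDerivAt (fun y => ((s y, y) : Pr))
      ((fderiv ℝ s x).prod (ContinuousLinearMap.id ℝ E2)) x :=
    hs.hasFDerivAt.prodMk (hasFDerivAt_id x)
  have h3 := HasFDerivAt.comp (g := G) (f := fun y => ((s y, y) : Pr)) x h1 h2
  have e : fderiv ℝ (fun y => G (s y, y)) x = _ := h3.fderiv
  rw [grad_apply, e]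
  simp only [ContinuousLinearMap.comp_apply, ContinuousLinearMap.prod_apply,
    ContinuousLinearMap.id_apply]
  have e2 : (((fderiv ℝ s x) (Pi.single i 1), (Pi.single i 1 : E2)) : Pr)
      = (dx i s x) • ((1, 0) : Pr) + ((0, Pi.single i 1) : Pr) := by
    simp [dx]
  rw [e2, map_add, map_smul]
  simp only [Pi.add_apply, Pi.smul_apply, smul_eq_mul, Bm, Sv]
  ring

theorem grad_zero_family (hG : ContDiff ℝ 2 G) (x : E2) :
    (grad (fun y => G (0, y)) x : V4) = Bm G (0, x) := by
  ext k i
  have h1 : HasFDerivAt G (fderiv ℝ G (0, x)) (0, x) :=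
    (hG.differentiable (by simp) _).hasFDerivAt
  have h2 : HasFDerivAt (fun y => ((0, y) : Pr))
      ((0 : E2 →L[ℝ] ℝ).prod (ContinuousLinearMap.id ℝ E2)) x :=
    (hasFDerivAt_const (0:ℝ) x).prodMk (hasFDerivAt_id x)
  have h3 := HasFDerivAt.comp (g := G) (f := fun y => ((0, y) : Pr)) x h1 h2
  have e : fderiv ℝ (fun y => G (0, y)) x = _ := h3.fderiv
  rw [grad_apply, e]
  simp [Bm]

theorem fderiv_off (hs : LipschitzWith K s) (hΩ : IsOpen Ω) (h0 : ∀ x, x ∉ Ω → s x = 0) :
    ∀ᵐ x : E2, x ∉ Ω → ∀ i, dx i s x = 0 := by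
  have hL : LipschitzWith K (fun y : E2 => (fun _ => s y : E2)) := by
    refine LipschitzWith.of_dist_le_mul fun y z => ?_
    rw [dist_pi_le_iff (by positivity)]
    exact fun _ => hs.dist_le_mul y z
  have h1 := grad_off hL hΩ (fun x hx => by ext i; exact h0 x hx)
  rw [ae_restrict_iff' hΩ.measurableSet.compl] at h1
  filter_upwards [h1, hL.ae_differentiableAt] with x hx hd hxΩ i
  have h2 := hx hxΩ
  have h3 : grad (fun y : E2 => (fun _ => s y : E2)) x 0 i = dx i s x := by
    rw [grad_apply, ← dx_comp hd]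
  rw [← h3, h2]
  rfl

theorem family_lip (hG : ContDiff ℝ 2 G) (hs : LipschitzWith K s) (hb : Bornology.IsBounded Ω) :
    ∃ C : ℝ, 0 ≤ C ∧ (∀ x ∈ Ω, ∀ k i, |Bm G (0, x) k i| ≤ C) ∧
      (∀ x ∈ Ω, DifferentiableAt ℝ s x → ∀ k i, |grad (fun y => G (s y, y)) x k i| ≤ C) := by
  obtain ⟨R, hR⟩ := hb.subset_closedBall 0
  have hR' : ∀ x ∈ Ω, ‖x‖ ≤ |R| := by
    intro x hx
    have := hR hx
    rw [Metric.mem_closedBall, dist_zero_right] at this
    exact this.trans (le_abs_self _)
  set M : ℝ := max (|s 0| + K * |R|) |R| with hM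
  have hc := isCompact_closedBall (0 : Pr) M
  obtain ⟨C1, hC1⟩ := hc.exists_bound_of_continuousOn (Bm_contDiff hG).continuous.continuousOn
  obtain ⟨C2, hC2⟩ := hc.exists_bound_of_continuousOn (Sv_contDiff hG).continuous.continuousOn
  have hK : (0:ℝ) ≤ K := K.2
  have hM0 : 0 ≤ M := (abs_nonneg R).trans (le_max_right _ _)
  have hC10 : 0 ≤ C1 := (norm_nonneg _).trans (hC1 0 (by simpa using hM0))
  have hC20 : 0 ≤ C2 := (norm_nonneg _).trans (hC2 0 (by simpa using hM0))
  have mem0 : ∀ x ∈ Ω, ((0, x) : Pr) ∈ Metric.closedBall (0 : Pr) M := by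
    intro x hx
    rw [Metric.mem_closedBall, dist_zero_right, Prod.norm_def]
    refine max_le (by simpa using hM0) ((hR' x hx).trans (le_max_right _ _))
  have mems : ∀ x ∈ Ω, ((s x, x) : Pr) ∈ Metric.closedBall (0 : Pr) M := by
    intro x hx
    rw [Metric.mem_closedBall, dist_zero_right, Prod.norm_def]
    refine max_le ?_ ((hR' x hx).trans (le_max_right _ _))
    refine le_trans ?_ (le_max_left _ _)
    have h1 := hs.dist_le_mul x 0
    rw [dist_zero_right, Real.dist_eq] at h1
    have h2 : |s x| ≤ |s 0| + |s x - s 0| := by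
      calc |s x| = |s 0 + (s x - s 0)| := by ring_nf
        _ ≤ _ := abs_add_le _ _
    have h3 : K * ‖x‖ ≤ K * |R| := mul_le_mul_of_nonneg_left (hR' x hx) hK
    simp only [Real.norm_eq_abs]
    linarith
  have hent : ∀ (F : V4) (k i : Fin 2), |F k i| ≤ ‖F‖ := fun F k i =>
    (norm_le_pi_norm (F k) i).trans (norm_le_pi_norm F k)
  refine ⟨C1 + C2 * K, by positivity, fun x hx k i => ?_, fun x hx hd k i => ?_⟩
  · have := (hent _ k i).trans (hC1 _ (mem0 x hx))
    nlinarith
  · rw [grad_family hG hd]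
    have h1 := (hent _ k i).trans (hC1 _ (mems x hx))
    have h2 : |Sv G (s x, x) k| ≤ C2 := (norm_le_pi_norm (Sv G (s x, x)) k).trans (hC2 _ (mems x hx))
    calc |Bm G (s x, x) k i + Sv G (s x, x) k * dx i s x|
        ≤ |Bm G (s x, x) k i| + |Sv G (s x, x) k| * |dx i s x| := by
          rw [← abs_mul]; exact abs_add_le _ _
      _ ≤ C1 + C2 * K := add_le_add h1 (mul_le_mul h2 (dx_bound hs i x) (abs_nonneg _) hC20)

theorem mem_cb {C : ℝ} (hC : 0 ≤ C) {F : V4} (h : ∀ i j, |F i j| ≤ C) :
    F ∈ Metric.closedBall (0 : V4) C := by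
  rw [Metric.mem_closedBall, dist_zero_right]
  exact (pi_norm_le_iff_of_nonneg hC).2 fun i => (pi_norm_le_iff_of_nonneg hC).2 fun j => h i j

/-- **Comparison of energies, smooth case.** -/
theorem compare_smooth {W : M2 → ℝ} (hW : RankOneConvex W) (hg : ContDiff ℝ ∞ (onV W))
    (hG : ContDiff ℝ 2 G) (hs : LipschitzWith K s) (hΩ : IsOpen Ω) (hb : Bornology.IsBounded Ω)
    (h0 : ∀ x, x ∉ Ω → s x = 0)
    (hc : ∀ l ∈ Ioo (0:ℝ) 1, ∀ x, Curv G (s x) (l * s x, x)) :
    ∫ x in Ω, W (Matrix.of (Bm G (0, x))) ≤ ∫ x in Ω, W (grad (fun y => G (s y, y)) x) := by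
  obtain ⟨R', hR'⟩ := hb.subset_closedBall 0
  set R : ℝ := |R'| + 1 with hRd
  have hR : 0 ≤ R := by positivity
  have hΩR : Ω ⊆ Metric.ball (0 : E2) R := by
    intro x hx
    have := hR' hx
    rw [Metric.mem_closedBall, dist_zero_right] at this
    rw [Metric.mem_ball, dist_zero_right, hRd]
    linarith [le_abs_self R']
  have h0R : ∀ x, x ∉ Metric.ball (0 : E2) R → s x = 0 := fun x hx => h0 x fun h => hx (hΩR h)
  set J : ℝ → ℝ := fun l => ∫ x in Metric.ball (0 : E2) R, Ph (onV W) G (l, (s x, x), ds s x)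
    with hJ
  have hJd : ∀ l, HasDerivAt J
      (∫ x in Metric.ball (0 : E2) R, dPh (onV W) G (l, (s x, x), ds s x)) l :=
    fun l => J_deriv hg hG hs hR h0R l
  have hmono : MonotoneOn J (Icc 0 1) := by
    refine monotoneOn_of_deriv_nonneg (convex_Icc 0 1)
      (fun l _ => (hJd l).continuousAt.continuousWithinAt)
      (fun l _ => (hJd l).differentiableAt.differentiableWithinAt) ?_
    intro l hl
    rw [interior_Icc] at hl
    rw [(hJd l).deriv]
    exact J_deriv_nonneg hW hg hG hs hR h0R (hc l hl)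
  have h01 : J 0 ≤ J 1 := hmono (by simp) (by simp) zero_le_one
  have hPc : Continuous (Ph (onV W) G) := (Ph_contDiff hg hG).continuous
  have i0 := family_integrable hs hR h0R hPc 0
  have i1 := family_integrable hs hR h0R hPc 1
  have h2 : 0 ≤ ∫ x in Metric.ball (0 : E2) R,
      (Ph (onV W) G (1, (s x, x), ds s x) - Ph (onV W) G (0, (s x, x), ds s x)) := by
    rw [integral_sub i1 i0]
    exact sub_nonneg.2 h01
  have hoff := fderiv_off hs hΩ h0
  -- the difference vanishes off `Ω`
  have hz : ∀ᵐ x : E2, x ∈ Metric.ball (0 : E2) R \ Ω →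
      Ph (onV W) G (1, (s x, x), ds s x) - Ph (onV W) G (0, (s x, x), ds s x) = 0 := by
    filter_upwards [hoff] with x hx hxd
    have hd := hx hxd.2
    simp only [Ph, h0 x hxd.2, ds, hd]
    simp
  have h3 : ∫ x in Metric.ball (0 : E2) R,
      (Ph (onV W) G (1, (s x, x), ds s x) - Ph (onV W) G (0, (s x, x), ds s x)) =
      ∫ x in Ω, (Ph (onV W) G (1, (s x, x), ds s x) - Ph (onV W) G (0, (s x, x), ds s x)) :=
    setIntegral_eq_of_subset_of_ae_sdiff_eq_zero Metric.isOpen_ball.measurableSet.nullMeasurableSet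
      hΩR hz
  rw [h3, integral_sub (i1.mono_measure (Measure.restrict_mono hΩR le_rfl))
    (i0.mono_measure (Measure.restrict_mono hΩR le_rfl))] at h2
  have e0 : ∫ x in Ω, Ph (onV W) G (0, (s x, x), ds s x)
      = ∫ x in Ω, W (Matrix.of (Bm G (0, x))) := by
    refine integral_congr_ae (Eventually.of_forall fun x => ?_)
    simp only [Ph, zero_mul, add_zero]
    rfl
  have i1' := i1.mono_measure (Measure.restrict_mono hΩR le_rfl)
  -- integrability of the energy of the competitor
  have : IsFiniteMeasure ((volume : Measure E2).restrict Ω) := ⟨by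
    rw [Measure.restrict_apply_univ]; exact hb.measure_lt_top⟩
  obtain ⟨C, hC0, _, hC2⟩ := family_lip hG hs hb
  have hgm : Measurable (fun x => W (grad (fun y => G (s y, y)) x)) := meas_comp hW.continuous
  obtain ⟨B, hB⟩ := (isCompact_closedBall (0 : V4) C).exists_bound_of_continuousOn
    (onV_continuous hW).continuousOn
  have iu : Integrable (fun x => W (grad (fun y => G (s y, y)) x)) (volume.restrict Ω) := by
    refine Integrable.of_bound hgm.aestronglyMeasurable B ?_
    filter_upwards [ae_restrict_of_ae hs.ae_differentiableAt, ae_restrict_mem hΩ.measurableSet]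
      with x hx hxΩ
    exact hB _ (mem_cb hC0 (hC2 x hxΩ hx))
  have h4 : ∫ x in Ω, Ph (onV W) G (1, (s x, x), ds s x)
      ≤ ∫ x in Ω, W (grad (fun y => G (s y, y)) x) := by
    refine integral_mono_ae i1' iu ?_
    filter_upwards [ae_restrict_of_ae hs.ae_differentiableAt] with x hx
    set H : V4 := fun k i => Sv G (s x, x) k * dx i s x with hH
    have h5 := first_order hW hg (Bm G (s x, x)) H (by
      rw [det_fin_two]; simp only [hH, Matrix.of_apply]; ring)
    have h6 : Bm G (s x, x) + H = (grad (fun y => G (s y, y)) x : V4) := by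
      ext k i
      exact (grad_family hG hx k i).symm
    rw [h6, expand] at h5
    have h7 : onV W (grad (fun y => G (s y, y)) x : V4) = W (grad (fun y => G (s y, y)) x) := rfl
    rw [h7] at h5
    refine le_trans (le_of_eq ?_) h5
    simp only [Ph, one_mul, hH, ds, Matrix.cons_val_zero, Matrix.cons_val_one, tt]
    ring
  rw [e0] at h2
  linarith

/-- **Comparison of energies.** -/
theorem compare {W : M2 → ℝ} (hW : RankOneConvex W)
    (hG : ContDiff ℝ 2 G) (hs : LipschitzWith K s) (hΩ : IsOpen Ω) (hb : Bornology.IsBounded Ω)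
    (h0 : ∀ x, x ∉ Ω → s x = 0)
    (hc : ∀ l ∈ Ioo (0:ℝ) 1, ∀ x, Curv G (s x) (l * s x, x)) :
    ∫ x in Ω, W (Matrix.of (Bm G (0, x))) ≤ ∫ x in Ω, W (grad (fun y => G (s y, y)) x) := by
  obtain ⟨C, hC0, hC1, hC2⟩ := family_lip hG hs hb
  have : IsFiniteMeasure ((volume : Measure E2).restrict Ω) := ⟨by
    rw [Measure.restrict_apply_univ]; exact hb.measure_lt_top⟩
  set v : ℝ := (volume Ω).toReal with hv
  have hv0 : 0 ≤ v := ENNReal.toReal_nonneg
  -- integrability for continuous energies
  have hint1 : ∀ {φ : M2 → ℝ}, Continuous φ →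
      Integrable (fun x => φ (Matrix.of (Bm G (0, x)))) (volume.restrict Ω) := by
    intro φ hφ
    obtain ⟨B, hB⟩ := (isCompact_closedBall (0 : V4) C).exists_bound_of_continuousOn
      (f := fun F : V4 => φ (Matrix.of F)) (by
        have : Continuous (fun F : V4 => φ (Matrix.of F)) := hφ.comp continuous_id
        exact this.continuousOn)
    have hcont : Continuous (fun x => φ (Matrix.of (Bm G (0, x)))) := by
      have h1 : Continuous (fun F : V4 => φ (Matrix.of F)) := hφ.comp continuous_id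
      exact h1.comp ((Bm_contDiff hG).continuous.comp (by fun_prop))
    refine Integrable.of_bound hcont.aestronglyMeasurable B ?_
    filter_upwards [ae_restrict_mem hΩ.measurableSet] with x hx
    exact hB _ (mem_cb hC0 (hC1 x hx))
  have hint2 : ∀ {φ : M2 → ℝ}, Continuous φ →
      Integrable (fun x => φ (grad (fun y => G (s y, y)) x)) (volume.restrict Ω) := by
    intro φ hφ
    obtain ⟨B, hB⟩ := (isCompact_closedBall (0 : V4) C).exists_bound_of_continuousOn
      (f := fun F : V4 => φ (Matrix.of F)) (by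
        have : Continuous (fun F : V4 => φ (Matrix.of F)) := hφ.comp continuous_id
        exact this.continuousOn)
    refine Integrable.of_bound (meas_comp hφ).aestronglyMeasurable B ?_
    filter_upwards [ae_restrict_of_ae hs.ae_differentiableAt, ae_restrict_mem hΩ.measurableSet]
      with x hx hxΩ
    exact hB _ (mem_cb hC0 (hC2 x hxΩ hx))
  have key : ∀ δ : ℝ, 0 < δ → ∫ x in Ω, W (Matrix.of (Bm G (0, x)))
      ≤ (∫ x in Ω, W (grad (fun y => G (s y, y)) x)) + δ * (2 * v) := by
    intro δ hδ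
    obtain ⟨W', h1, h2, h3⟩ := exists_smooth hW C hδ
    have h4 := compare_smooth h1 h2 hG hs hΩ hb h0 hc
    have h5 : ∫ x in Ω, (W (Matrix.of (Bm G (0, x))) - δ)
        ≤ ∫ x in Ω, W' (Matrix.of (Bm G (0, x))) := by
      refine integral_mono_ae ((hint1 hW.continuous).sub (integrable_const _))
        (hint1 h1.continuous) ?_
      filter_upwards [ae_restrict_mem hΩ.measurableSet] with x hx
      have := abs_le.1 (h3 (Matrix.of (Bm G (0, x))) (fun i j => hC1 x hx i j))
      linarith [this.1]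
    have h6 : ∫ x in Ω, W' (grad (fun y => G (s y, y)) x)
        ≤ ∫ x in Ω, (W (grad (fun y => G (s y, y)) x) + δ) := by
      refine integral_mono_ae (hint2 h1.continuous)
        ((hint2 hW.continuous).add (integrable_const _)) ?_
      filter_upwards [ae_restrict_of_ae hs.ae_differentiableAt, ae_restrict_mem hΩ.measurableSet]
        with x hx hxΩ
      have := abs_le.1 (h3 (grad (fun y => G (s y, y)) x) (fun i j => hC2 x hxΩ hx i j))
      linarith [this.2]
    rw [integral_sub (hint1 hW.continuous) (integrable_const _), integral_const] at h5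
    rw [integral_add (hint2 hW.continuous) (integrable_const _), integral_const] at h6
    simp only [measureReal_restrict_apply_univ, smul_eq_mul] at h5 h6
    have h7 : volume.real Ω = v := rfl
    rw [h7] at h5 h6
    linarith
  refine le_of_forall_pos_le_add fun ε hε => ?_
  have h11 := key (ε / (2 * v + 1)) (by positivity)
  have h12 : ε / (2 * v + 1) * (2 * v) ≤ ε := by
    rw [div_mul_eq_mul_div, div_le_iff₀ (by positivity)]
    nlinarith
  linarith

end

end Pool.Agent.W8h56.MC
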