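import Pool.Agent.W8h56.MC.Kfold

set_option autoImplicit false

open Matrix Set Filter Topology MeasureTheory
open scoped NNReal ENNReal ContDiff

namespace Pool.Agent.W8h56.MC

open Pool.Agent.Helper188.Morrey

section

variable {V ϑ : E2 → E2} {K : ℝ≥0} {Ω : Set E2}

/-- second derivative along a line of a composition with linear maps -/
theorem second_lin {U : Set E2} (hU : IsOpen U) (hV : ContDiffOn ℝ 2 V U) (M L : E2 →L[ℝ] E2) {x : E2}
    (hx : L x ∈ U) (ξ : E2) :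
    ContDiffAt ℝ 2 (fun y => M (V (L y))) x ∧
    fderiv ℝ (fderiv ℝ (fun y => M (V (L y)))) x ξ ξ
      = M (fderiv ℝ (fderiv ℝ V) (L x) (L ξ) (L ξ)) := by
  have hV2 : ContDiffAt ℝ 2 V (L x) := hV.contDiffAt (hU.mem_nhds hx)
  have hc : ContDiffAt ℝ 2 (fun y => M (V (L y))) x :=
    M.contDiff.contDiffAt.comp x (hV2.comp x L.contDiff.contDiffAt)
  refine ⟨hc, ?_⟩
  have hl : ∀ t : ℝ, HasDerivAt (fun t : ℝ => L x + t • L ξ) (L ξ) t := fun t => by
    simpa using ((hasDerivAt_id t).smul_const (L ξ)).const_add (L x)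
  have hct : Tendsto (fun t : ℝ => L x + t • L ξ) (𝓝 0) (𝓝 (L x)) := by
    have : Continuous (fun t : ℝ => L x + t • L ξ) := by fun_prop
    simpa using this.tendsto 0
  have hd : ∀ᶠ t : ℝ in 𝓝 0, DifferentiableAt ℝ V (L x + t • L ξ) := by
    have : ∀ᶠ y in 𝓝 (L x), DifferentiableAt ℝ V y := by
      have := hV2.eventually (by simp)
      filter_upwards [this] with y hy
      exact hy.differentiableAt (by simp)
    exact hct.eventually this
  have e0 : (fun t : ℝ => M (V (L (x + t • ξ)))) = fun t : ℝ => M (V (L x + t • L ξ)) := by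
    funext t; rw [map_add, map_smul]
  refine lines_second hc ξ (G := fun t => M (fderiv ℝ V (L x + t • L ξ) (L ξ))) ?_ ?_
  · filter_upwards [hd] with t ht
    rw [e0]
    exact M.hasFDerivAt.comp_hasDerivAt t (ht.hasFDerivAt.comp_hasDerivAt t (hl t))
  · have h0 : DifferentiableAt ℝ (fderiv ℝ V) (L x) :=
      (hV2.fderiv_right (m := 1) (by norm_num)).differentiableAt (by simp)
    have h3 : HasDerivAt (fun t : ℝ => fderiv ℝ V (L x + t • L ξ))
        (fderiv ℝ (fderiv ℝ V) (L x) (L ξ)) 0 := by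
      have e : L x + (0 : ℝ) • L ξ = L x := by simp
      have h4 : HasFDerivAt (fderiv ℝ V) (fderiv ℝ (fderiv ℝ V) (L x)) (L x + (0 : ℝ) • L ξ) := by
        rw [e]; exact h0.hasFDerivAt
      exact h4.comp_hasDerivAt (0 : ℝ) (hl 0)
    have h5 : HasDerivAt (fun t : ℝ => fderiv ℝ V (L x + t • L ξ) (L ξ))
        (fderiv ℝ (fderiv ℝ V) (L x) (L ξ) (L ξ)) 0 :=
      (h3.clm_apply (hasDerivAt_const (0:ℝ) (L ξ))).congr_deriv (by simp)
    exact M.hasFDerivAt.comp_hasDerivAt (0:ℝ) h5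

theorem star_eq_smul (F : ℝ → ℝ) (k : ℕ) (x : E2) :
    Pool.Agent.W8h56.MC.star F k x = F (sq x) • ![(toC x ^ k).re, (toC x ^ k).im] := by
  ext i
  fin_cases i <;> simp [Pool.Agent.W8h56.MC.star]

theorem mulVec_ne {M : M2} (hM : M.det ≠ 0) {v : E2} (hv : v ≠ 0) : M *ᵥ v ≠ 0 := by
  intro h
  exact hv (Matrix.eq_zero_of_mulVec_eq_zero hM h)

/-- linear changes of variables -/
theorem DirField.lin (h : DirField V) {M L : M2} (hM : M.det ≠ 0) (hL : L.det ≠ 0) :
    DirField (fun x => M *ᵥ (V (L *ᵥ x))) where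
  smooth := fun x hx => (second_lin isOpen_compl_singleton h.smooth (lm M) (lm L)
    (mulVec_ne hL hx) 0).1.contDiffWithinAt
  ne := fun x hx => mulVec_ne hM (h.ne _ (mulVec_ne hL hx))
  second := by
    intro x hx ξ
    have h1 := (second_lin isOpen_compl_singleton h.smooth (lm M) (lm L)
      (mulVec_ne hL hx) ξ).2
    obtain ⟨a, ha, he⟩ := h.second (L *ᵥ x) (mulVec_ne hL hx) (L *ᵥ ξ)
    refine ⟨a, ha, ?_⟩
    have h2 : fderiv ℝ (fderiv ℝ fun x => M *ᵥ (V (L *ᵥ x))) x ξ ξ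
        = lm M (fderiv ℝ (fderiv ℝ V) (lm L x) (lm L ξ) (lm L ξ)) := h1
    rw [h2, lm_apply L x, lm_apply L ξ, he, map_neg, map_smul]
    rfl

end

end Pool.Agent.W8h56.MC
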