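import Pool.Agent.W8h56.MC.FamV

set_option autoImplicit false

open Matrix Set Filter Topology MeasureTheory
open scoped NNReal ENNReal ContDiff

namespace Pool.Agent.W8h56.MC

open Pool.Agent.Helper188.Morrey

section

variable {Γ : ℝ → E2 → E2}

/-- the family as a map of two variables -/
def unc (Γ : ℝ → E2 → E2) (p : Pr) : E2 := Γ p.1 p.2

theorem unc_Sv (hG : ContDiff ℝ 2 (unc Γ)) (c : ℝ) (x : E2) :
    Sv (unc Γ) (c, x) = deriv (fun t => Γ t x) c := by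
  have h1 : HasFDerivAt (unc Γ) (fderiv ℝ (unc Γ) (c, x)) (c, x) :=
    (hG.differentiable (by simp) _).hasFDerivAt
  have h2 : HasDerivAt (fun t : ℝ => ((t, x) : Pr)) (1, 0) c :=
    (hasDerivAt_id c).prodMk (hasDerivAt_const c x)
  exact (h1.comp_hasDerivAt c h2).deriv.symm

theorem unc_second (hG : ContDiff ℝ 2 (unc Γ)) (c : ℝ) (x ξ : E2) :
    fderiv ℝ (fderiv ℝ (unc Γ)) (c, x) (0, ξ) (0, ξ) = fderiv ℝ (fderiv ℝ (Γ c)) x ξ ξ := by
  have hV : ContDiff ℝ 2 (Γ c) := hG.comp (by fun_prop : ContDiff ℝ 2 (fun y : E2 => ((c, y) : Pr)))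
  have hline : ∀ t : ℝ, ((c, x) : Pr) + t • ((0, ξ) : Pr) = (c, x + t • ξ) := by
    intro t; simp
  have hl : ∀ t : ℝ, HasDerivAt (fun t : ℝ => x + t • ξ) ξ t := fun t => by
    simpa using ((hasDerivAt_id t).smul_const ξ).const_add x
  refine lines_second hG.contDiffAt (0, ξ) (G := fun t => fderiv ℝ (Γ c) (x + t • ξ) ξ) ?_ ?_
  · refine Eventually.of_forall fun t => ?_
    have e : (fun t : ℝ => unc Γ ((c, x) + t • (0, ξ))) = fun t => Γ c (x + t • ξ) := by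
      funext r; rw [hline, unc]
    rw [e]
    exact (hV.differentiable (by simp) _).hasFDerivAt.comp_hasDerivAt t (hl t)
  · have h0 : DifferentiableAt ℝ (fderiv ℝ (Γ c)) x :=
      (hV.fderiv_right (m := 1) (by norm_num)).differentiable (by simp) x
    have h3 : HasDerivAt (fun t : ℝ => fderiv ℝ (Γ c) (x + t • ξ))
        (fderiv ℝ (fderiv ℝ (Γ c)) x ξ) 0 := by
      have e : x + (0 : ℝ) • ξ = x := by simp
      have h4 : HasFDerivAt (fderiv ℝ (Γ c)) (fderiv ℝ (fderiv ℝ (Γ c)) x) (x + (0 : ℝ) • ξ) := by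
        rw [e]; exact h0.hasFDerivAt
      exact h4.comp_hasDerivAt (0 : ℝ) (hl 0)
    exact (h3.clm_apply (hasDerivAt_const (0:ℝ) ξ)).congr_deriv (by simp)

/-- **Comparison along one-parameter families.** -/
theorem compare_families {W : M2 → ℝ} (hW : RankOneConvex W)
    (hΓ : ContDiff ℝ 2 (fun p : ℝ × (Fin 2 → ℝ) => Γ p.1 p.2)) {s : E2 → ℝ} {K : ℝ≥0}
    (hs : LipschitzWith K s) {Ω : Set E2} (hΩ : IsOpen Ω) (hb : Bornology.IsBounded Ω)
    (h0 : ∀ x, x ∉ Ω → s x = 0)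
    (hc : ∀ x, ∀ l ∈ Ioo (0:ℝ) 1, deriv (fun t => Γ t x) (l * s x) = 0 ∨
      ∀ ξ : Fin 2 → ℝ, ∃ a : ℝ, 0 ≤ a ∧ s x • fderiv ℝ (fderiv ℝ (Γ (l * s x))) x ξ ξ
        = -(a • deriv (fun t => Γ t x) (l * s x))) :
    ∫ x in Ω, W (grad (Γ 0) x) ≤ ∫ x in Ω, W (grad (fun y => Γ (s y) y) x) := by
  have hG : ContDiff ℝ 2 (unc Γ) := hΓ
  have h1 := compare hW hG hs hΩ hb h0 (fun l hl x => by
    rcases hc x l hl with h | h
    · left; rw [unc_Sv hG]; exact h
    · right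
      intro ξ
      obtain ⟨a, ha, he⟩ := h ξ
      exact ⟨a, ha, by rw [unc_Sv hG, unc_second hG]; exact he⟩)
  have e : ∀ x, Matrix.of (Bm (unc Γ) (0, x)) = grad (Γ 0) x := by
    intro x
    rw [← grad_zero_family hG]
    rfl
  simp only [e] at h1
  exact h1

/-- maps affine on the level sets of a scalar function -/
theorem level_affine {W : M2 → ℝ} (hW : RankOneConvex W) (F₀ : M2) {A : ℝ → M2} {b : ℝ → E2}
    (hA : ∀ i j, ContDiff ℝ 2 (fun t => A t i j)) (hbb : ∀ i, ContDiff ℝ 2 (fun t => b t i))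
    (hA0 : A 0 = 0) (hb0 : b 0 = 0) {s : E2 → ℝ} {K : ℝ≥0}
    (hs : LipschitzWith K s) {Ω : Set E2} (hΩ : IsOpen Ω) (hb : Bornology.IsBounded Ω)
    (h0 : ∀ x, x ∉ Ω → s x = 0) :
    W F₀ * (volume Ω).toReal ≤ ∫ x in Ω, W (F₀ + grad (fun y => A (s y) *ᵥ y + b (s y)) x) := by
  set Γ : ℝ → E2 → E2 := fun t x => lm F₀ x + (A t *ᵥ x + b t) with hΓd
  have hAc : ContDiff ℝ 2 (fun p : ℝ × (Fin 2 → ℝ) => A p.1 *ᵥ p.2 + b p.1) := by
    refine contDiff_pi.2 fun i => ?_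
    have h1 : ∀ j, ContDiff ℝ 2 (fun p : ℝ × (Fin 2 → ℝ) => A p.1 i j) := fun j =>
      (hA i j).comp contDiff_fst
    have h2 : ∀ j, ContDiff ℝ 2 (fun p : ℝ × (Fin 2 → ℝ) => p.2 j) := fun j => by fun_prop
    have h3 : ContDiff ℝ 2 (fun p : ℝ × (Fin 2 → ℝ) => b p.1 i) := (hbb i).comp contDiff_fst
    have e : (fun p : ℝ × (Fin 2 → ℝ) => (A p.1 *ᵥ p.2 + b p.1) i) = fun p =>
        A p.1 i 0 * p.2 0 + A p.1 i 1 * p.2 1 + b p.1 i := by
      funext p
      simp only [Pi.add_apply, Matrix.mulVec, dotProduct, Fin.sum_univ_two]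
    rw [e]
    exact (((h1 0).mul (h2 0)).add ((h1 1).mul (h2 1))).add h3
  have hΓ : ContDiff ℝ 2 (fun p : ℝ × (Fin 2 → ℝ) => Γ p.1 p.2) :=
    ((lm F₀).contDiff.comp contDiff_snd).add hAc
  have h1 := compare_families hW hΓ hs hΩ hb h0 (fun x l _ => by
    right
    intro ξ
    refine ⟨0, le_rfl, ?_⟩
    set c := l * s x
    have e : Γ c = fun y => (lm F₀ + lm (A c)) y + b c := by
      funext y
      show lm F₀ y + (A c *ᵥ y + b c) = (lm F₀ y + A c *ᵥ y) + b c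
      rw [add_assoc]
    have e2 : fderiv ℝ (Γ c) = fun _ => lm F₀ + lm (A c) := by
      rw [e]
      funext y
      exact (((lm F₀ + lm (A c)).hasFDerivAt (x := y)).add_const (b c)).fderiv
    rw [e2]
    simp)
  have e0 : ∀ x, grad (Γ 0) x = F₀ := by
    intro x
    have e : Γ 0 = fun y => lm F₀ y := by
      funext y
      show lm F₀ y + (A 0 *ᵥ y + b 0) = lm F₀ y
      rw [hA0, hb0, zero_mulVec, add_zero, add_zero]
    rw [e]
    ext i j
    rw [grad_apply, ContinuousLinearMap.fderiv, lm_apply]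
    simp
  simp only [e0] at h1
  rw [setIntegral_const, smul_eq_mul, mul_comm] at h1
  refine h1.trans (le_of_eq (integral_congr_ae ?_))
  filter_upwards [ae_restrict_of_ae hs.ae_differentiableAt] with x hx
  have hd : DifferentiableAt ℝ (fun y => A (s y) *ᵥ y + b (s y)) x := by
    have h2 : DifferentiableAt ℝ (fun p : ℝ × (Fin 2 → ℝ) => A p.1 *ᵥ p.2 + b p.1) (s x, x) :=
      hAc.differentiable (by simp) _
    exact DifferentiableAt.comp (f := fun y : E2 => ((s y, y) : Pr)) x h2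
      (hx.prodMk differentiableAt_id)
  congr 1
  ext k i
  have h2 := ((lm F₀).hasFDerivAt (x := x)).add hd.hasFDerivAt
  have e : fderiv ℝ (fun y => Γ (s y) y) x = _ := h2.fderiv
  rw [grad_apply, e, Matrix.add_apply, grad_apply]
  simp [lm_apply]

end

end Pool.Agent.W8h56.MC
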