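import Pool.Agent.W8h56.MC.FamMain
import Pool.Agent.W8h56.MC.DirDefs

set_option autoImplicit false

open Matrix Set Filter Topology MeasureTheory
open scoped NNReal ENNReal ContDiff

namespace Pool.Agent.W8h56.MC

open Pool.Agent.Helper188.Morrey

theorem lines_second {E F : Type*} [NormedAddCommGroup E] [NormedSpace ℝ E]
    [NormedAddCommGroup F] [NormedSpace ℝ F] {f : E → F} {x : E}
    (h : ContDiffAt ℝ 2 f x) (v : E) {G : ℝ → F} {a : F}
    (hG : ∀ᶠ t : ℝ in 𝓝 0, HasDerivAt (fun t : ℝ => f (x + t • v)) (G t) t)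
    (ha : HasDerivAt G a 0) : fderiv ℝ (fderiv ℝ f) x v v = a := by
  have hl : ∀ t : ℝ, HasDerivAt (fun t : ℝ => x + t • v) v t := fun t => by
    simpa using ((hasDerivAt_id t).smul_const v).const_add x
  have hc : Tendsto (fun t : ℝ => x + t • v) (𝓝 0) (𝓝 x) := by
    have := (hl 0).continuousAt
    simpa [ContinuousAt] using this
  have h1 : ∀ᶠ t : ℝ in 𝓝 0, DifferentiableAt ℝ f (x + t • v) := by
    have : ∀ᶠ y in 𝓝 x, DifferentiableAt ℝ f y := by
      have := h.eventually (by simp)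
      filter_upwards [this] with y hy
      exact hy.differentiableAt (by simp)
    exact hc.eventually this
  have h2 : G =ᶠ[𝓝 0] fun t => fderiv ℝ f (x + t • v) v := by
    filter_upwards [hG, h1] with t ht ht'
    exact ht.unique (ht'.hasFDerivAt.comp_hasDerivAt t (hl t))
  have h0 : DifferentiableAt ℝ (fderiv ℝ f) x :=
    (h.fderiv_right (m := 1) (by norm_num)).differentiableAt (by simp)
  have h3 : HasDerivAt (fun t : ℝ => fderiv ℝ f (x + t • v))
      (fderiv ℝ (fderiv ℝ f) x v) 0 := by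
    have e : x + (0 : ℝ) • v = x := by simp
    have h4 : HasFDerivAt (fderiv ℝ f) (fderiv ℝ (fderiv ℝ f) x) (x + (0 : ℝ) • v) := by
      rw [e]; exact h0.hasFDerivAt
    exact h4.comp_hasDerivAt (0 : ℝ) (hl 0)
  have h5 : HasDerivAt (fun t : ℝ => fderiv ℝ f (x + t • v) v)
      (fderiv ℝ (fderiv ℝ f) x v v) 0 :=
    (h3.clm_apply (hasDerivAt_const (0:ℝ) v)).congr_deriv (by simp)
  exact h5.unique (ha.congr_of_eventuallyEq h2.symm)

theorem cut_contDiff {F : Type*} [NormedAddCommGroup F] [NormedSpace ℝ F] {f : E2 → F}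
    {m : ℕ} (hf : ContDiffOn ℝ m f {0}ᶜ) {n : ℝ} (hn : 0 < n) :
    ContDiff ℝ m (fun x => chi n x • f x) := by
  rw [contDiff_iff_contDiffAt]
  intro x
  by_cases hx : x = 0
  · subst hx
    have : (fun x => chi n x • f x) =ᶠ[𝓝 (0 : E2)] fun _ => 0 := by
      filter_upwards [Metric.closedBall_mem_nhds (0 : E2) (by positivity : 0 < 1 / n)] with x hx
      rw [Metric.mem_closedBall, dist_zero_right] at hx
      rw [chi_near hn hx, zero_smul]
    exact contDiffAt_const.congr_of_eventuallyEq this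
  · exact ((chi_contDiff n).of_le (by exact_mod_cast le_top)).contDiffAt.smul
      (hf.contDiffAt (isOpen_compl_singleton.mem_nhds hx))

theorem lip_mul {f g : E2 → ℝ} {K L : ℝ≥0} {A B : ℝ} (hf : LipschitzWith K f)
    (hg : LipschitzWith L g) (hA : ∀ x, |f x| ≤ A) (hB : ∀ x, |g x| ≤ B) :
    ∃ C : ℝ≥0, LipschitzWith C (fun x => f x * g x) := by
  have hA0 : 0 ≤ A := (abs_nonneg _).trans (hA 0)
  have hB0 : 0 ≤ B := (abs_nonneg _).trans (hB 0)
  refine ⟨⟨A * L + B * K, by positivity⟩, LipschitzWith.of_dist_le_mul fun x y => ?_⟩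
  have h1 := hf.dist_le_mul x y
  have h2 := hg.dist_le_mul x y
  rw [Real.dist_eq] at h1 h2 ⊢
  show |f x * g x - f y * g y| ≤ (A * L + B * K) * dist x y
  calc |f x * g x - f y * g y| = |f x * (g x - g y) + g y * (f x - f y)| := by ring_nf
    _ ≤ |f x| * |g x - g y| + |g y| * |f x - f y| := by
        rw [← abs_mul, ← abs_mul]; exact abs_add_le _ _
    _ ≤ A * (L * dist x y) + B * (K * dist x y) := by
        refine add_le_add (mul_le_mul (hA x) h2 (abs_nonneg _) hA0)
          (mul_le_mul (hB y) h1 (abs_nonneg _) hB0)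
    _ = _ := by ring

section

variable {V ϑ : E2 → E2} {K : ℝ≥0} {Ω : Set E2}

/-- the linear map of a matrix -/
noncomputable def lm (F₀ : M2) : E2 →L[ℝ] E2 := (Matrix.mulVecLin F₀).toContinuousLinearMap

theorem lm_apply (F₀ : M2) (x : E2) : lm F₀ x = F₀ *ᵥ x := rfl

/-- the family -/
noncomputable def Gv (F₀ : M2) (V : E2 → E2) (n : ℝ) (p : Pr) : E2 :=
  lm F₀ p.2 + p.1 • (chi n p.2 • V p.2)

theorem Gv_contDiff (hV : DirField V) (F₀ : M2) {n : ℝ} (hn : 0 < n) :
    ContDiff ℝ 2 (Gv F₀ V n) := by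
  have h1 : ContDiff ℝ 2 (fun x => chi n x • V x) := cut_contDiff (m := 2) hV.smooth hn
  have h2 : ContDiff ℝ 2 (fun p : Pr => lm F₀ p.2) := (lm F₀).contDiff.comp contDiff_snd
  exact h2.add (contDiff_fst.smul (h1.comp contDiff_snd))

theorem Gv_Bm (hV : DirField V) (F₀ : M2) {n : ℝ} (hn : 0 < n) (x : E2) :
    Matrix.of (Bm (Gv F₀ V n) (0, x)) = F₀ := by
  rw [← grad_zero_family (Gv_contDiff hV F₀ hn)]
  have e : (fun y => Gv F₀ V n (0, y)) = lm F₀ := by
    funext y; simp [Gv]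
  rw [e]
  ext i j
  rw [Matrix.of_apply, grad_apply, ContinuousLinearMap.fderiv, lm_apply]
  simp

theorem Gv_Sv (F₀ : M2) (hV : DirField V) {n : ℝ} (hn : 0 < n) (c : ℝ) (x : E2) :
    Sv (Gv F₀ V n) (c, x) = chi n x • V x := by
  have h1 : HasFDerivAt (Gv F₀ V n) (fderiv ℝ (Gv F₀ V n) (c, x)) (c, x) :=
    ((Gv_contDiff hV F₀ hn).differentiable (by simp) _).hasFDerivAt
  have h2 : HasDerivAt (fun t : ℝ => ((t, x) : Pr)) (1, 0) c :=
    (hasDerivAt_id c).prodMk (hasDerivAt_const c x)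
  have h3 := h1.comp_hasDerivAt c h2
  have h4 : HasDerivAt (fun t : ℝ => Gv F₀ V n (t, x)) ((1:ℝ) • (chi n x • V x)) c := by
    have := ((hasDerivAt_id c).smul_const (chi n x • V x)).const_add (lm F₀ x)
    exact this
  have := h3.unique h4
  rw [one_smul] at this
  exact this

theorem Gv_second (F₀ : M2) (hV : DirField V) {n : ℝ} (hn : 0 < n) (c : ℝ) {x : E2}
    (hx : 2 / n < ‖x‖) (ξ : E2) :
    fderiv ℝ (fderiv ℝ (Gv F₀ V n)) (c, x) (0, ξ) (0, ξ)
      = c • fderiv ℝ (fderiv ℝ V) x ξ ξ := by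
  have hx0 : x ≠ 0 := by
    rintro rfl
    rw [norm_zero] at hx
    have : 0 < 2 / n := by positivity
    linarith
  have hV2 : ContDiffAt ℝ 2 V x := hV.smooth.contDiffAt (isOpen_compl_singleton.mem_nhds hx0)
  have hline : ∀ t : ℝ, ((c, x) : Pr) + t • ((0, ξ) : Pr) = (c, x + t • ξ) := by
    intro t; simp
  have hct : Tendsto (fun t : ℝ => x + t • ξ) (𝓝 0) (𝓝 x) := by
    have : Continuous (fun t : ℝ => x + t • ξ) := by fun_prop
    simpa using this.tendsto 0
  have hfar : ∀ᶠ t : ℝ in 𝓝 0, 2 / n < ‖x + t • ξ‖ :=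
    hct.eventually (continuous_norm.continuousAt.eventually (lt_mem_nhds hx))
  have hd : ∀ᶠ t : ℝ in 𝓝 0, DifferentiableAt ℝ V (x + t • ξ) := by
    have : ∀ᶠ y in 𝓝 x, DifferentiableAt ℝ V y := by
      have := hV2.eventually (by simp)
      filter_upwards [this] with y hy
      exact hy.differentiableAt (by simp)
    exact hct.eventually this
  have hl : ∀ t : ℝ, HasDerivAt (fun t : ℝ => x + t • ξ) ξ t := fun t => by
    simpa using ((hasDerivAt_id t).smul_const ξ).const_add x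
  refine lines_second (Gv_contDiff hV F₀ hn).contDiffAt (0, ξ)
    (G := fun t => lm F₀ ξ + c • fderiv ℝ V (x + t • ξ) ξ) ?_ ?_
  · filter_upwards [hfar.eventually_nhds, hd] with t ht htd
    have e : (fun t : ℝ => Gv F₀ V n ((c, x) + t • (0, ξ))) =ᶠ[𝓝 t]
        fun t => lm F₀ (x + t • ξ) + c • V (x + t • ξ) := by
      filter_upwards [ht] with r hr
      rw [hline, Gv]
      simp only
      rw [chi_far hn hr.le, one_smul]
    have h1 : HasDerivAt (fun t : ℝ => lm F₀ (x + t • ξ) + c • V (x + t • ξ))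
        (lm F₀ ξ + c • fderiv ℝ V (x + t • ξ) ξ) t :=
      ((lm F₀).hasFDerivAt.comp_hasDerivAt t (hl t)).add
        ((htd.hasFDerivAt.comp_hasDerivAt t (hl t)).const_smul c)
    exact h1.congr_of_eventuallyEq e
  · have h0 : DifferentiableAt ℝ (fderiv ℝ V) x :=
      (hV2.fderiv_right (m := 1) (by norm_num)).differentiableAt (by simp)
    have h3 : HasDerivAt (fun t : ℝ => fderiv ℝ V (x + t • ξ))
        (fderiv ℝ (fderiv ℝ V) x ξ) 0 := by
      have e : x + (0 : ℝ) • ξ = x := by simp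
      have h4 : HasFDerivAt (fderiv ℝ V) (fderiv ℝ (fderiv ℝ V) x) (x + (0 : ℝ) • ξ) := by
        rw [e]; exact h0.hasFDerivAt
      exact h4.comp_hasDerivAt (0 : ℝ) (hl 0)
    have h5 : HasDerivAt (fun t : ℝ => fderiv ℝ V (x + t • ξ) ξ)
        (fderiv ℝ (fderiv ℝ V) x ξ ξ) 0 :=
      (h3.clm_apply (hasDerivAt_const (0:ℝ) ξ)).congr_deriv (by simp)
    exact (h5.const_smul c).const_add _

/-- the amplitude of the cut-off map -/
noncomputable def amp (V ϑ : E2 → E2) (n : ℝ) (x : E2) : ℝ :=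
  chi n x * ((ϑ x 0 * V x 0 + ϑ x 1 * V x 1) / sq (V x))

theorem amp_smul (hV : DirField V) (hpar : ∀ x, x ≠ 0 → ∃ c : ℝ, ϑ x = c • V x) (n : ℝ) {x : E2}
    (hx : x ≠ 0) : amp V ϑ n x • V x = chi n x • ϑ x := by
  obtain ⟨c, hc⟩ := hpar x hx
  have hs := (sq_pos (hV.ne x hx)).ne'
  have e : (ϑ x 0 * V x 0 + ϑ x 1 * V x 1) / sq (V x) = c := by
    rw [div_eq_iff hs, hc, sq]
    simp only [Pi.smul_apply, smul_eq_mul]
    ring
  rw [amp, e, mul_smul, ← hc]

theorem amp_off (h0 : ∀ x, x ∉ Ω → ϑ x = 0) (n : ℝ) (x : E2) (hx : x ∉ Ω) : amp V ϑ n x = 0 := by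
  rw [amp, h0 x hx]; simp

theorem amp_lip (hV : DirField V) (hK : LipschitzWith K ϑ) (hb : Bornology.IsBounded Ω)
    (h0 : ∀ x, x ∉ Ω → ϑ x = 0) {n : ℝ} (hn : 0 < n) :
    ∃ C : ℝ≥0, LipschitzWith C (amp V ϑ n) := by
  obtain ⟨R', hR'⟩ := hb.subset_closedBall 0
  set R : ℝ := |R'| + 1 with hRd
  have hR : 0 < R := by positivity
  let β : ContDiffBump (0 : E2) := ⟨R, R + 1, hR, by linarith⟩
  have hβ : ContDiff ℝ 1 (β : E2 → ℝ) := β.contDiff
  have hψ : ∀ k : Fin 2, ContDiff ℝ 1 (fun x => β x * (chi n x * (V x k / sq (V x)))) := by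
    intro k
    have h1 : ContDiffOn ℝ 1 (fun x => V x k / sq (V x)) {0}ᶜ := by
      intro x hx
      have h2 : ContDiffWithinAt ℝ 1 V {0}ᶜ x := (hV.smooth x hx).of_le (by norm_num)
      have hk : ∀ k, ContDiffWithinAt ℝ 1 (fun x => V x k) {0}ᶜ x :=
        fun k => contDiffWithinAt_pi.1 h2 k
      exact (hk k).div (((hk 0).pow 2).add ((hk 1).pow 2)) (sq_pos (hV.ne x hx)).ne'
    have h2 : ContDiff ℝ 1 (fun x => chi n x • (V x k / sq (V x))) := cut_contDiff (m := 1) h1 hn
    exact hβ.mul h2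
  have hψs : ∀ k : Fin 2, HasCompactSupport (fun x => β x * (chi n x * (V x k / sq (V x)))) :=
    fun k => β.hasCompactSupport.mul_right
  have hψL : ∀ k : Fin 2, ∃ C : ℝ≥0,
      LipschitzWith C (fun x => β x * (chi n x * (V x k / sq (V x)))) := fun k =>
    (hψ k).lipschitzWith_of_hasCompactSupport (hψs k) (by simp)
  have hψB : ∀ k : Fin 2, ∃ C : ℝ, ∀ x, ‖β x * (chi n x * (V x k / sq (V x)))‖ ≤ C := fun k =>
    (hψ k).continuous.bounded_above_of_compact_support (hψs k)
  have hθL : ∀ k : Fin 2, LipschitzWith K (fun x => ϑ x k) := fun k x y =>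
    (edist_le_pi_edist _ _ k).trans (hK x y)
  have hθB : ∀ k : Fin 2, ∃ C : ℝ, ∀ x, |ϑ x k| ≤ C := by
    intro k
    have hcs : HasCompactSupport (fun x => ϑ x k) := by
      refine HasCompactSupport.intro (K := closure Ω) hb.isCompact_closure fun x hx => ?_
      rw [h0 x (fun h => hx (subset_closure h))]
      rfl
    obtain ⟨C, hC⟩ := (hθL k).continuous.bounded_above_of_compact_support hcs
    exact ⟨C, hC⟩
  choose C1 hC1 using hψL
  choose C2 hC2 using hψB
  choose C3 hC3 using hθB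
  obtain ⟨L0, hL0⟩ := lip_mul (hθL 0) (hC1 0) (hC3 0) (hC2 0)
  obtain ⟨L1, hL1⟩ := lip_mul (hθL 1) (hC1 1) (hC3 1) (hC2 1)
  refine ⟨L0 + L1, ?_⟩
  have e : amp V ϑ n = fun x => ϑ x 0 * (β x * (chi n x * (V x 0 / sq (V x))))
      + ϑ x 1 * (β x * (chi n x * (V x 1 / sq (V x)))) := by
    funext x
    by_cases hx : x ∈ Ω
    · have h1 : x ∈ Metric.closedBall (0 : E2) β.rIn := by
        have := hR' hx
        rw [Metric.mem_closedBall, dist_zero_right] at this ⊢
        show ‖x‖ ≤ R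
        linarith [le_abs_self R']
      rw [β.one_of_mem_closedBall h1, amp]
      ring
    · rw [amp, h0 x hx]; simp
  rw [e]
  exact hL0.add hL1

theorem Gv_amp (hV : DirField V) (F₀ : M2) (hz : ϑ 0 = 0)
    (hpar : ∀ x, x ≠ 0 → ∃ c : ℝ, ϑ x = c • V x) {n : ℝ} (hn : 0 < n) (x : E2) :
    Gv F₀ V (4 * n) (amp V ϑ n x, x) = lm F₀ x + chi n x • ϑ x := by
  rw [Gv]
  simp only
  congr 1
  by_cases hx : x = 0
  · subst hx
    have : amp V ϑ n 0 = 0 := by rw [amp, hz]; simp
    rw [this, hz]; simp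
  · by_cases h1 : ‖x‖ ≤ 1 / n
    · have : amp V ϑ n x = 0 := by rw [amp, chi_near hn h1]; simp
      rw [this, chi_near hn h1]; simp
    · rw [not_le] at h1
      have h2 : chi (4 * n) x = 1 := by
        refine chi_far (by positivity) ?_
        refine le_trans ?_ h1.le
        rw [div_le_div_iff₀ (by positivity) hn]
        nlinarith
      rw [h2, one_smul, amp_smul hV hpar n hx]

theorem Gv_curv (hV : DirField V) (F₀ : M2) {n : ℝ} (hn : 0 < n) {l : ℝ} (hl : 0 ≤ l) (x : E2) :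
    Curv (Gv F₀ V (4 * n)) (amp V ϑ n x) (l * amp V ϑ n x, x) := by
  have h4 : 0 < 4 * n := by positivity
  by_cases h1 : ‖x‖ ≤ 1 / n
  · have : amp V ϑ n x = 0 := by rw [amp, chi_near hn h1]; simp
    rw [this]
    exact Or.inr fun ξ => ⟨0, le_rfl, by simp⟩
  · rw [not_le] at h1
    have hx0 : x ≠ 0 := by
      rintro rfl
      rw [norm_zero] at h1
      have : 0 < 1 / n := by positivity
      linarith
    have hfar : 2 / (4 * n) < ‖x‖ := by
      refine lt_of_le_of_lt ?_ h1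
      rw [div_le_div_iff₀ (by positivity) hn]
      nlinarith
    refine Or.inr fun ξ => ?_
    obtain ⟨a, ha, he⟩ := hV.second x hx0 ξ
    refine ⟨l * amp V ϑ n x ^ 2 * a, by positivity, ?_⟩
    rw [Gv_second F₀ hV h4 _ hfar ξ, Gv_Sv F₀ hV h4, chi_far h4 hfar.le, one_smul, he]
    module

/-- the gradient of the cut-off map -/
theorem grad_cut (F₀ : M2) (n : ℝ) {x : E2} (hd : DifferentiableAt ℝ ϑ x) (k i : Fin 2) :
    grad (fun y => lm F₀ y + chi n y • ϑ y) x k i
      = F₀ k i + (dx i (chi n) x * ϑ x k + chi n x * grad ϑ x k i) := by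
  have hc : DifferentiableAt ℝ (chi n) x := (chi_hd n x).1
  have h1 := ((lm F₀).hasFDerivAt (x := x)).add (hc.hasFDerivAt.smul hd.hasFDerivAt)
  have e : fderiv ℝ (fun y => lm F₀ y + chi n y • ϑ y) x = _ := h1.fderiv
  rw [grad_apply, e, grad_apply]
  simp [lm_apply, dx]
  ring

/-- **The quasiconvexity inequality for all maps with the direction of a concave field.** -/
theorem qc_direction {W : M2 → ℝ} (hW : RankOneConvex W) (F₀ : M2) (hV : DirField V)
    (hK : LipschitzWith K ϑ) (hΩ : IsOpen Ω) (hb : Bornology.IsBounded Ω)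
    (h0 : ∀ x, x ∉ Ω → ϑ x = 0) (hz : ϑ 0 = 0)
    (hpar : ∀ x, x ≠ 0 → ∃ c : ℝ, ϑ x = c • V x) :
    W F₀ * (volume Ω).toReal ≤ ∫ x in Ω, W (F₀ + grad ϑ x) := by
  obtain ⟨M, hM0, hM⟩ := bmp_bound
  have hfin : IsFiniteMeasure ((volume : Measure E2).restrict Ω) := ⟨by
    rw [Measure.restrict_apply_univ]; exact hb.measure_lt_top⟩
  have hK0 : (0:ℝ) ≤ K := K.2
  -- the inequality for the cut-off maps
  have hn : ∀ n : ℕ, W F₀ * (volume Ω).toReal
      ≤ ∫ x in Ω, W (grad (fun y => lm F₀ y + chi (n + 1) y • ϑ y) x) := by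
    intro n
    have hn0 : (0 : ℝ) < n + 1 := by positivity
    obtain ⟨C, hC⟩ := amp_lip hV hK hb h0 hn0
    have h1 := compare hW (Gv_contDiff hV F₀ (by positivity : (0:ℝ) < 4 * (n + 1))) hC hΩ hb
      (amp_off h0 _) (fun l hl x => Gv_curv hV F₀ hn0 hl.1.le x)
    have e1 : (fun y => Gv F₀ V (4 * (n + 1)) (amp V ϑ (n + 1) y, y))
        = fun y => lm F₀ y + chi (n + 1) y • ϑ y := by
      funext y; exact Gv_amp hV F₀ hz hpar hn0 y
    rw [e1] at h1
    have e2 : ∫ x in Ω, W (Matrix.of (Bm (Gv F₀ V (4 * (n + 1))) (0, x)))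
        = W F₀ * (volume Ω).toReal := by
      simp only [Gv_Bm hV F₀ (by positivity : (0:ℝ) < 4 * (n + 1))]
      rw [setIntegral_const, smul_eq_mul, mul_comm]
      rfl
    rw [e2] at h1
    exact h1
  -- the limit
  have hθ : ∀ x k, |ϑ x k| ≤ K * ‖x‖ := by
    intro x k
    have h1 := hK.dist_le_mul x 0
    rw [hz, dist_zero_right, dist_zero_right] at h1
    exact (norm_le_pi_norm (ϑ x) k).trans h1
  set CF : ℝ := |F₀ 0 0| + |F₀ 0 1| + |F₀ 1 0| + |F₀ 1 1| with hCF
  have hCF0 : 0 ≤ CF := by positivity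
  have hbd : ∀ (n : ℕ) (x : E2), DifferentiableAt ℝ ϑ x → ∀ k i,
      |grad (fun y => lm F₀ y + chi (n + 1) y • ϑ y) x k i| ≤ CF + (2 * M * K + K) := by
    intro n x hd k i
    have hn0 : (0 : ℝ) < n + 1 := by positivity
    have h1 : |dx i (chi (n + 1)) x * ϑ x k| ≤ 2 * M * K := by
      have e : dx i (chi (n + 1)) x = -((n + 1) * dx i bmp (((n:ℝ) + 1) • x)) := by
        fin_cases i
        · exact (chi_hd _ x).2.1
        · exact (chi_hd _ x).2.2
      rw [e]
      by_cases hx : 2 < ‖((n:ℝ) + 1) • x‖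
      · rw [bmp_far hx]
        simp
        positivity
      · rw [not_lt, norm_smul, Real.norm_eq_abs, abs_of_pos hn0] at hx
        rw [abs_mul, abs_neg, abs_mul, abs_of_pos hn0]
        calc (n + 1) * |dx i bmp (((n:ℝ) + 1) • x)| * |ϑ x k|
            ≤ (n + 1) * M * (K * ‖x‖) := by
              refine mul_le_mul (mul_le_mul_of_nonneg_left (hM _ _) hn0.le) (hθ x k)
                (abs_nonneg _) (by positivity)
          _ = M * K * ((n + 1) * ‖x‖) := by ring
          _ ≤ M * K * 2 := mul_le_mul_of_nonneg_left hx (by positivity)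
          _ = 2 * M * K := by ring
    have h2 : |chi (n + 1) x * grad ϑ x k i| ≤ K := by
      rw [abs_mul, abs_of_nonneg (chi_range _ x).1]
      calc chi (n + 1) x * |grad ϑ x k i| ≤ 1 * K :=
            mul_le_mul (chi_range _ x).2 (grad_bound hK x k i) (abs_nonneg _) zero_le_one
        _ = K := one_mul _
    have h3 : |F₀ k i| ≤ CF := by
      have a := abs_nonneg (F₀ 0 0)
      have b := abs_nonneg (F₀ 0 1)
      have c := abs_nonneg (F₀ 1 0)
      have d := abs_nonneg (F₀ 1 1)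
      fin_cases k <;> fin_cases i <;> simp only [hCF, Fin.zero_eta, Fin.mk_one] <;> linarith
    rw [grad_cut F₀ _ hd]
    refine (abs_add_le _ _).trans (add_le_add h3 ((abs_add_le _ _).trans (add_le_add h1 h2)))
  have hC0 : (0:ℝ) ≤ CF + (2 * M * K + K) := by positivity
  obtain ⟨B, hB⟩ := (isCompact_closedBall (0 : V4)
    (CF + (2 * M * K + K))).exists_bound_of_continuousOn
    (onV_continuous hW).continuousOn
  have hlim : Tendsto (fun n : ℕ => ∫ x in Ω, W (grad (fun y => lm F₀ y + chi (n + 1) y • ϑ y) x))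
      atTop (𝓝 (∫ x in Ω, W (F₀ + grad ϑ x))) := by
    refine tendsto_integral_of_dominated_convergence (fun _ => B) ?_ (integrable_const _) ?_ ?_
    · intro n
      exact (meas_comp hW.continuous).aestronglyMeasurable
    · intro n
      filter_upwards [ae_restrict_of_ae hK.ae_differentiableAt] with x hx
      exact hB _ (mem_cb hC0 (hbd n x hx))
    · have hne : ∀ᵐ x : E2, x ≠ 0 := by
        have : (volume : Measure E2) {0} = 0 := measure_singleton 0
        exact compl_mem_ae_iff.2 this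
      filter_upwards [ae_restrict_of_ae hK.ae_differentiableAt, ae_restrict_of_ae hne] with x hx hx0
      have hxn : 0 < ‖x‖ := norm_pos_iff.2 hx0
      refine tendsto_const_nhds.congr' ?_
      obtain ⟨N, hN⟩ := exists_nat_gt (2 / ‖x‖)
      filter_upwards [eventually_ge_atTop N] with n hn
      have hn0 : (0 : ℝ) < n + 1 := by positivity
      have h1 : (N : ℝ) ≤ n := by exact_mod_cast hn
      rw [div_lt_iff₀ hxn] at hN
      have h2 : 2 < ‖((n:ℝ) + 1) • x‖ := by
        rw [norm_smul, Real.norm_eq_abs, abs_of_pos hn0]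
        nlinarith
      have h3 : chi (n + 1) x = 1 := by
        refine chi_far hn0 ?_
        rw [norm_smul, Real.norm_eq_abs, abs_of_pos hn0] at h2
        rw [div_le_iff₀ hn0]
        linarith
      congr 1
      ext k i
      rw [grad_cut F₀ _ hx, h3, Matrix.add_apply]
      have e : dx i (chi (n + 1)) x = 0 := by
        have e : dx i (chi (n + 1)) x = -((n + 1) * dx i bmp (((n:ℝ) + 1) • x)) := by
          fin_cases i
          · exact (chi_hd _ x).2.1
          · exact (chi_hd _ x).2.2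
        rw [e, bmp_far h2]; ring
      rw [e]; ring
  exact ge_of_tendsto' hlim hn

end

end Pool.Agent.W8h56.MC
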