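import Pool.Agent.W8h56.MC.Calc

set_option autoImplicit false

open Matrix Set Filter Topology MeasureTheory
open scoped NNReal ENNReal ContDiff

namespace Pool.Agent.W8h56.MC

open Pool.Agent.Helper188.Morrey

/-- the matrix units -/
def E (k i : Fin 2) : V4 := Pi.single k (Pi.single i 1)

theorem expand (L : V4 →L[ℝ] ℝ) (H : V4) :
    L H = H 0 0 * L (E 0 0) + H 0 1 * L (E 0 1) + H 1 0 * L (E 1 0) + H 1 1 * L (E 1 1) := by
  have e : H = H 0 0 • E 0 0 + H 0 1 • E 0 1 + H 1 0 • E 1 0 + H 1 1 • E 1 1 := by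
    ext i j; fin_cases i <;> fin_cases j <;> simp [E]
  conv_lhs => rw [e]
  simp only [map_add, map_smul, smul_eq_mul]

theorem expand_vec (L : V4 →L[ℝ] ℝ) (u x : E2) : L (vecMulVec u (perp x) : V4) =
    u 0 * (-(x 1) * L (E 0 0) + x 0 * L (E 0 1))
      + u 1 * (-(x 1) * L (E 1 0) + x 0 * L (E 1 1)) := by
  rw [expand L]
  simp only [vecMulVec_apply, perp, Matrix.cons_val_zero, Matrix.cons_val_one]
  ring

section

variable {g : V4 → ℝ} {A : E2 → M2} {b : E2 → E2} {x : E2}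

/-- `A` as a map into the normed space of matrices -/
def AV (A : E2 → M2) : E2 → V4 := fun y => A y

theorem AV_diff (hA : ∀ i j, DifferentiableAt ℝ (fun y => A y i j) x) :
    DifferentiableAt ℝ (AV A) x :=
  differentiableAt_pi.2 fun i => differentiableAt_pi.2 fun j => hA i j

theorem fderiv_AV (hA : ∀ i j, DifferentiableAt ℝ (fun y => A y i j) x) (l : Fin 2) :
    fderiv ℝ (AV A) x (Pi.single l 1) = (dM l A x : V4) := by
  have h1 : HasFDerivAt (AV A)
      (ContinuousLinearMap.pi fun i => ContinuousLinearMap.pi fun j =>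
        fderiv ℝ (fun y => A y i j) x) x :=
    hasFDerivAt_pi.2 fun i => hasFDerivAt_pi.2 fun j => (hA i j).hasFDerivAt
  rw [h1.fderiv]
  rfl

/-- the entries of the derivative of `g` along `A` -/
noncomputable def T (g : V4 → ℝ) (A : E2 → M2) (k i : Fin 2) (y : E2) : ℝ :=
  fderiv ℝ g (AV A y) (E k i)

theorem hd_comp (hg : ContDiff ℝ ∞ g) (hA : ∀ i j, DifferentiableAt ℝ (fun y => A y i j) x) :
    HD (fun y => g (AV A y)) x (fderiv ℝ g (AV A x) (dM 0 A x : V4))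
      (fderiv ℝ g (AV A x) (dM 1 A x : V4)) := by
  have h1 : HasFDerivAt g (fderiv ℝ g (AV A x)) (AV A x) :=
    (hg.differentiable (by simp) _).hasFDerivAt
  have h2 := h1.comp x (AV_diff hA).hasFDerivAt
  refine ⟨h2.differentiableAt, ?_, ?_⟩
  · rw [← fderiv_AV hA 0, dx]
    have := h2.fderiv
    simp only [Function.comp_def] at this
    rw [this]; rfl
  · rw [← fderiv_AV hA 1, dx]
    have := h2.fderiv
    simp only [Function.comp_def] at this
    rw [this]; rfl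

theorem hd_T (hg : ContDiff ℝ ∞ g) (hA : ∀ i j, DifferentiableAt ℝ (fun y => A y i j) x)
    (k i : Fin 2) :
    HD (T g A k i) x (fderiv ℝ (fderiv ℝ g) (AV A x) (dM 0 A x : V4) (E k i))
      (fderiv ℝ (fderiv ℝ g) (AV A x) (dM 1 A x : V4) (E k i)) := by
  have hd : ContDiff ℝ ∞ (fderiv ℝ g) := hg.fderiv_right (by norm_cast)
  have h1 : HasFDerivAt (fderiv ℝ g) (fderiv ℝ (fderiv ℝ g) (AV A x)) (AV A x) :=
    (hd.differentiable (by simp) _).hasFDerivAt
  have h2 := h1.comp x (AV_diff hA).hasFDerivAt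
  have h3 := h2.clm_apply (hasFDerivAt_const (E k i) x)
  refine ⟨h3.differentiableAt, ?_, ?_⟩
  · rw [← fderiv_AV hA 0, dx]
    have e : fderiv ℝ (T g A k i) x = _ := h3.fderiv
    rw [e]; simp
  · rw [← fderiv_AV hA 1, dx]
    have e : fderiv ℝ (T g A k i) x = _ := h3.fderiv
    rw [e]; simp

/-- second partial derivatives commute -/
theorem dx_comm {f : E2 → ℝ} (hf : ContDiffAt ℝ 2 f x) : dx 1 (dx 0 f) x = dx 0 (dx 1 f) x := by
  have h0 : DifferentiableAt ℝ (fderiv ℝ f) x :=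
    (hf.fderiv_right (m := 1) (by norm_num)).differentiableAt (by simp)
  have e : ∀ l m : Fin 2, dx l (dx m f) x = fderiv ℝ (fderiv ℝ f) x (Pi.single l 1) (Pi.single m 1) := by
    intro l m
    have h1 := h0.hasFDerivAt.clm_apply (hasFDerivAt_const (Pi.single m (1:ℝ) : E2) x)
    have h2 : fderiv ℝ (dx m f) x = _ := h1.fderiv
    rw [dx, h2]; simp
  rw [e, e]
  exact (hf.isSymmSndFDerivAt (by rw [minSmoothness_of_isRCLikeNormedField])).eq _ _

theorem dx_diff {f : E2 → ℝ} (hf : ContDiffAt ℝ 2 f x) (l : Fin 2) :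
    DifferentiableAt ℝ (dx l f) x := by
  have h0 : DifferentiableAt ℝ (fderiv ℝ f) x :=
    (hf.fderiv_right (m := 1) (by norm_num)).differentiableAt (by simp)
  exact h0.clm_apply (differentiableAt_const _)

/-- the potential -/
noncomputable def P (g : V4 → ℝ) (A : E2 → M2) (y : E2) : ℝ := g (AV A y) - g 0

/-- the vector field -/
noncomputable def V0 (g : V4 → ℝ) (A : E2 → M2) (b : E2 → E2) (y : E2) : ℝ :=
  1 / 2 * (y 0 * P g A y) +
    ((-(y 1) * T g A 0 0 y + y 0 * T g A 0 1 y) * zt A b 1 y 0 +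
     (-(y 1) * T g A 1 0 y + y 0 * T g A 1 1 y) * zt A b 1 y 1)

noncomputable def V1 (g : V4 → ℝ) (A : E2 → M2) (b : E2 → E2) (y : E2) : ℝ :=
  1 / 2 * (y 1 * P g A y) -
    ((-(y 1) * T g A 0 0 y + y 0 * T g A 0 1 y) * zt A b 0 y 0 +
     (-(y 1) * T g A 1 0 y + y 0 * T g A 1 1 y) * zt A b 0 y 1)

theorem zt_apply (l k : Fin 2) (y : E2) : zt A b l y k =
    1 / 2 * (dx l (fun y => A y k 0) y * y 0 + dx l (fun y => A y k 1) y * y 1)
      + dx l (fun y => b y k) y := by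
  simp only [zt, Pi.add_apply, Pi.smul_apply, smul_eq_mul, dM, dV, Matrix.mulVec, dotProduct,
    Fin.sum_univ_two, Matrix.of_apply]

theorem hd_zt (hA : ∀ i j, ContDiffAt ℝ 2 (fun y => A y i j) x)
    (hb : ∀ i, ContDiffAt ℝ 2 (fun y => b y i) x) (l k : Fin 2) :
    HD (fun y => zt A b l y k) x
      (1 / 2 * (dx 0 (dx l (fun y => A y k 0)) x * x 0 + dx l (fun y => A y k 0) x
        + dx 0 (dx l (fun y => A y k 1)) x * x 1) + dx 0 (dx l (fun y => b y k)) x)
      (1 / 2 * (dx 1 (dx l (fun y => A y k 0)) x * x 0 + dx 1 (dx l (fun y => A y k 1)) x * x 1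
        + dx l (fun y => A y k 1) x) + dx 1 (dx l (fun y => b y k)) x) := by
  have h0 := HD.of_diff (dx_diff (hA k 0) l)
  have h1 := HD.of_diff (dx_diff (hA k 1) l)
  have h2 := HD.of_diff (dx_diff (hb k) l)
  have h := ((HD.const (1/2) x).mul ((h0.mul (HD.coord0 x)).add (h1.mul (HD.coord1 x)))).add h2
  have e : (fun y => zt A b l y k) = fun y => 1 / 2 * (dx l (fun y => A y k 0) y * y 0
      + dx l (fun y => A y k 1) y * y 1) + dx l (fun y => b y k) y := by
    funext y; exact zt_apply l k y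
  rw [e]
  refine ⟨h.1, ?_, ?_⟩
  · rw [h.2.1]; ring
  · rw [h.2.2]; ring

/-- the first-order lower bound of the energy density -/
noncomputable def G (g : V4 → ℝ) (A : E2 → M2) (b : E2 → E2) (y : E2) : ℝ :=
  P g A y + (T g A 0 0 y * ((dM 0 A y *ᵥ y) 0 + dV 0 b y 0)
    + T g A 0 1 y * ((dM 1 A y *ᵥ y) 0 + dV 1 b y 0)
    + T g A 1 0 y * ((dM 0 A y *ᵥ y) 1 + dV 0 b y 1)
    + T g A 1 1 y * ((dM 1 A y *ᵥ y) 1 + dV 1 b y 1))

/-- the remainder -/
noncomputable def Rm (g : V4 → ℝ) (A : E2 → M2) (b : E2 → E2) (y : E2) : ℝ :=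
  fderiv ℝ (fderiv ℝ g) (AV A y) (dM 1 A y : V4) (vecMulVec (zt A b 0 y) (perp y) : V4)
    - fderiv ℝ (fderiv ℝ g) (AV A y) (dM 0 A y : V4) (vecMulVec (zt A b 1 y) (perp y) : V4)

theorem div_identity (hg : ContDiff ℝ ∞ g) (hA : ∀ i j, ContDiffAt ℝ 2 (fun y => A y i j) x)
    (hb : ∀ i, ContDiffAt ℝ 2 (fun y => b y i) x) :
    dx 0 (V0 g A b) x + dx 1 (V1 g A b) x = G g A b x - Rm g A b x := by
  have hA1 : ∀ i j, DifferentiableAt ℝ (fun y => A y i j) x :=
    fun i j => (hA i j).differentiableAt (by simp)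
  have hP : HD (P g A) x _ _ := (hd_comp hg hA1).sub (HD.const (g 0) x)
  have hT := fun k i => hd_T hg hA1 k i
  have hZ := fun l k => hd_zt hA hb l k
  have hc : ∀ k j, dx 1 (dx 0 (fun y => A y k j)) x = dx 0 (dx 1 (fun y => A y k j)) x :=
    fun k j => dx_comm (hA k j)
  have hc' : ∀ k, dx 1 (dx 0 (fun y => b y k)) x = dx 0 (dx 1 (fun y => b y k)) x :=
    fun k => dx_comm (hb k)
  have c0 := HD.coord0 x
  have c1 := HD.coord1 x
  have hV0 : HD (V0 g A b) x _ _ :=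
    ((HD.const (1/2) x).mul (c0.mul hP)).add
      ((((c1.neg.mul (hT 0 0)).add (c0.mul (hT 0 1))).mul (hZ 1 0)).add
       (((c1.neg.mul (hT 1 0)).add (c0.mul (hT 1 1))).mul (hZ 1 1)))
  have hV1 : HD (V1 g A b) x _ _ :=
    ((HD.const (1/2) x).mul (c1.mul hP)).sub
      ((((c1.neg.mul (hT 0 0)).add (c0.mul (hT 0 1))).mul (hZ 0 0)).add
       (((c1.neg.mul (hT 1 0)).add (c0.mul (hT 1 1))).mul (hZ 0 1)))
  rw [hV0.2.1, hV1.2.2, G, Rm, expand (fderiv ℝ g (AV A x)) (dM 0 A x : V4),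
    expand (fderiv ℝ g (AV A x)) (dM 1 A x : V4),
    expand_vec (fderiv ℝ (fderiv ℝ g) (AV A x) (dM 1 A x : V4)),
    expand_vec (fderiv ℝ (fderiv ℝ g) (AV A x) (dM 0 A x : V4))]
  simp only [zt_apply, hc, hc', Matrix.mulVec, dotProduct,
    Fin.sum_univ_two, dM, dV, Matrix.of_apply, T]
  ring

end

end Pool.Agent.W8h56.MC
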