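import Pool.Agent.W8h56.MC.ParabCal
import Pool.Agent.W8h56.MC.DirDefs

set_option autoImplicit false

open Matrix Set Filter Topology MeasureTheory
open scoped NNReal ENNReal ContDiff

namespace Pool.Agent.W8h56.MC

open Pool.Agent.Helper188.Morrey

/-- The map `x ↦ F(|x|²) (x₀ + i x₁)^k` of the plane. -/
noncomputable def star (F : ℝ → ℝ) (k : ℕ) (x : Fin 2 → ℝ) : Fin 2 → ℝ :=
  ![((F (sq x) : ℂ) * toC x ^ k).re, ((F (sq x) : ℂ) * toC x ^ k).im]

section

variable {F : ℝ → ℝ} {k : ℕ} {x : E2}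

/-- the inverse identification -/
noncomputable def rr : ℂ →L[ℝ] E2 :=
  ContinuousLinearMap.pi fun i => if i = 0 then Complex.reCLM else Complex.imCLM

theorem rr_apply (z : ℂ) : rr z = ![z.re, z.im] := by
  ext i; fin_cases i <;> simp [rr]

theorem star_eq (x : E2) : star F k x = rr ((F (sq x) : ℂ) * toC x ^ k) := by
  rw [rr_apply]; rfl

/-- the identification as a linear map -/
noncomputable def cc : E2 →L[ℝ] ℂ :=
  (Complex.ofRealCLM.comp (ContinuousLinearMap.proj (R := ℝ) (φ := fun _ : Fin 2 => ℝ) 0))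
    + Complex.I • (Complex.ofRealCLM.comp
      (ContinuousLinearMap.proj (R := ℝ) (φ := fun _ : Fin 2 => ℝ) 1))

theorem cc_apply (x : E2) : cc x = toC x := by
  apply Complex.ext <;> simp [cc, toC]

theorem second_of_lines {ϑ : E2 → E2} (h : ContDiffAt ℝ 2 ϑ x) (v : E2) {G : ℝ → E2} {a : E2}
    (hG : ∀ᶠ t : ℝ in 𝓝 0, HasDerivAt (fun t : ℝ => ϑ (x + t • v)) (G t) t)
    (ha : HasDerivAt G a 0) : fderiv ℝ (fderiv ℝ ϑ) x v v = a := by
  have hl : ∀ t : ℝ, HasDerivAt (fun t : ℝ => x + t • v) v t := fun t => by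
    simpa using ((hasDerivAt_id t).smul_const v).const_add x
  have hc : Tendsto (fun t : ℝ => x + t • v) (𝓝 0) (𝓝 x) := by
    have := (hl 0).continuousAt
    simpa [ContinuousAt] using this
  have h1 : ∀ᶠ t : ℝ in 𝓝 0, DifferentiableAt ℝ ϑ (x + t • v) := by
    have : ∀ᶠ y in 𝓝 x, DifferentiableAt ℝ ϑ y := by
      have := h.eventually (by simp)
      filter_upwards [this] with y hy
      exact hy.differentiableAt (by simp)
    exact hc.eventually this
  have h2 : G =ᶠ[𝓝 0] fun t => fderiv ℝ ϑ (x + t • v) v := by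
    filter_upwards [hG, h1] with t ht ht'
    exact ht.unique (ht'.hasFDerivAt.comp_hasDerivAt t (hl t))
  have h0 : DifferentiableAt ℝ (fderiv ℝ ϑ) x :=
    (h.fderiv_right (m := 1) (by norm_num)).differentiableAt (by simp)
  have h3 : HasDerivAt (fun t : ℝ => fderiv ℝ ϑ (x + t • v))
      (fderiv ℝ (fderiv ℝ ϑ) x v) 0 := by
    have e : x + (0 : ℝ) • v = x := by simp
    have h4 : HasFDerivAt (fderiv ℝ ϑ) (fderiv ℝ (fderiv ℝ ϑ) x) (x + (0 : ℝ) • v) := by
      rw [e]; exact h0.hasFDerivAt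
    exact h4.comp_hasDerivAt (0 : ℝ) (hl 0)
  have h5 : HasDerivAt (fun t : ℝ => fderiv ℝ ϑ (x + t • v) v)
      (fderiv ℝ (fderiv ℝ ϑ) x v v) 0 :=
    (h3.clm_apply (hasDerivAt_const (0:ℝ) v)).congr_deriv (by simp)
  exact h5.unique (ha.congr_of_eventuallyEq h2.symm)

theorem first_of_line {ϑ : E2 → E2} (h : DifferentiableAt ℝ ϑ x) (v : E2) {a : E2}
    (ha : HasDerivAt (fun t : ℝ => ϑ (x + t • v)) a 0) : fderiv ℝ ϑ x v = a := by
  have hl : HasDerivAt (fun t : ℝ => x + t • v) v 0 := by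
    simpa using ((hasDerivAt_id (0:ℝ)).smul_const v).const_add x
  have e : x + (0 : ℝ) • v = x := by simp
  have h4 : HasFDerivAt ϑ (fderiv ℝ ϑ x) (x + (0 : ℝ) • v) := by
    rw [e]; exact h.hasFDerivAt
  exact (h4.comp_hasDerivAt (0:ℝ) hl).unique ha

theorem sq_add_perp (x : E2) (t : ℝ) : sq (x + t • perp x) = sq x * (1 + t ^ 2) := by
  simp only [sq, Pi.add_apply, Pi.smul_apply, smul_eq_mul, perp0, perp1]
  ring

theorem sq_add_self (x : E2) (t : ℝ) : sq (x + t • x) = sq x * (1 + t) ^ 2 := by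
  simp only [sq, Pi.add_apply, Pi.smul_apply, smul_eq_mul]
  ring

theorem toC_add_perp (x : E2) (t : ℝ) : toC (x + t • perp x) = (1 + t * Complex.I) * toC x := by
  apply Complex.ext <;> simp [toC, perp0, perp1]
  ring

theorem toC_add_self (x : E2) (t : ℝ) : toC (x + t • x) = (1 + t) * toC x := by
  apply Complex.ext <;> simp [toC] <;> ring

theorem star_contDiffAt (hF : ContDiffOn ℝ 3 F (Ioi 0)) (hx : x ≠ 0) :
    ContDiffAt ℝ 3 (star F k) x := by
  have e : star F k = fun x => rr ((F (sq x) : ℂ) * cc x ^ k) := by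
    funext y; rw [star_eq, cc_apply]
  rw [e]
  have hc : ∀ i, ContDiffAt ℝ 3 (fun y : E2 => y i) x := fun i =>
    (ContinuousLinearMap.proj (R := ℝ) (φ := fun _ : Fin 2 => ℝ) i).contDiff.contDiffAt
  have hs : ContDiffAt ℝ 3 sq x := ((hc 0).pow 2).add ((hc 1).pow 2)
  have hF' : ContDiffAt ℝ 3 F (sq x) := hF.contDiffAt (Ioi_mem_nhds (sq_pos hx))
  have h1 : ContDiffAt ℝ 3 (fun x => (F (sq x) : ℂ)) x :=
    Complex.ofRealCLM.contDiff.contDiffAt.comp x (hF'.comp x hs)
  exact rr.contDiff.contDiffAt.comp x (h1.mul (cc.contDiff.contDiffAt.pow k))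

/-- the maps `F(|x|²) (x₀ + i x₁)^k` are outward parabolic with respect to the circles -/
theorem star_outward (hk : 1 ≤ k) (hF : ContDiffOn ℝ 3 F (Ioi 0)) (h0 : ∀ s, 0 < s → 0 ≤ F s)
    (h1 : ∀ s, 0 < s → 2 * s * deriv F s + (k - 1) * F s ≤ 0) :
    Outward (fun _ => 0) (star F k) where
  smooth := fun x hx => (star_contDiffAt hF hx).contDiffWithinAt
  smoothm := contDiffOn_const
  bdd := ⟨0, fun x _ => by simp⟩
  zero := by
    have : toC 0 = 0 := rfl
    rw [star_eq, this, zero_pow (by omega), mul_zero, map_zero]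
  flow := by
    intro x hx
    have hs := sq_pos hx
    set s := sq x with hsd
    set z := toC x with hz
    have hFd : ∀ y, 0 < y → HasDerivAt F (deriv F y) y := fun y hy =>
      (((hF.contDiffAt (Ioi_mem_nhds hy)).differentiableAt (by simp))).hasDerivAt
    have hF2 : DifferentiableAt ℝ (deriv F) s := by
      have h2 : ContDiffAt ℝ 2 (fderiv ℝ F) s :=
        (hF.contDiffAt (Ioi_mem_nhds hs)).fderiv_right (by norm_num)
      have h3 : deriv F = fun y => fderiv ℝ F y 1 := by funext y; simp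
      rw [h3]
      exact (h2.differentiableAt (by simp)).clm_apply (differentiableAt_const _)
    have hc3 := star_contDiffAt (k := k) hF hx
    have hc2 : ContDiffAt ℝ 2 (star F k) x := hc3.of_le (by norm_num)
    have hd : DifferentiableAt ℝ (star F k) x := hc2.differentiableAt (by simp)
    have hτ : tau (fun _ => 0) x = perp x := by simp [tau]
    -- the radial derivative
    have hrad : fderiv ℝ (star F k) x x - star F k x
        = (2 * s * deriv F s + (k - 1) * F s) • rr (z ^ k) := by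
      have hq : HasDerivAt (fun t : ℝ => s * (1 + t) ^ 2) (2 * s) 0 := by
        have := (((hasDerivAt_id (0:ℝ)).const_add 1).pow 2).const_mul s
        refine this.congr_deriv ?_
        simp
        ring
      have hFq : HasDerivAt (fun t : ℝ => F (s * (1 + t) ^ 2)) (deriv F s * (2 * s)) 0 := by
        have h2 : HasDerivAt F (deriv F s) (s * (1 + 0) ^ 2) := by
          have := hFd s hs
          simpa using this
        exact h2.comp (0:ℝ) hq
      have hFc : HasDerivAt (fun t : ℝ => ((F (s * (1 + t) ^ 2) : ℝ) : ℂ))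
          ((deriv F s * (2 * s) : ℝ) : ℂ) 0 := hFq.ofReal_comp
      have hp : HasDerivAt (fun t : ℝ => (1 + (t : ℂ)) ^ k) (k : ℂ) 0 := by
        have h3 : HasDerivAt (fun t : ℝ => 1 + (t : ℂ)) 1 0 :=
          ((hasDerivAt_id (0:ℝ)).ofReal_comp).const_add 1
        refine (h3.pow k).congr_deriv ?_
        simp
      have hprod : HasDerivAt (fun t : ℝ => ((F (s * (1 + t) ^ 2) : ℝ) : ℂ)
          * ((1 + (t : ℂ)) ^ k * z ^ k)) _ 0 := hFc.mul (hp.mul_const (z ^ k))
      have hrr := rr.hasFDerivAt.comp_hasDerivAt (0:ℝ) hprod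
      have e : (fun t : ℝ => star F k (x + t • x)) = fun t : ℝ =>
          rr (((F (s * (1 + t) ^ 2) : ℝ) : ℂ) * ((1 + (t : ℂ)) ^ k * z ^ k)) := by
        funext t
        rw [star_eq, sq_add_self, toC_add_self, mul_pow]
      have h4 := first_of_line hd x (a := _) (by rw [e]; exact hrr)
      rw [h4, star_eq, ← map_sub, ← map_smul]
      congr 1
      rw [Complex.real_smul]
      push_cast
      simp only [← hsd, ← hz]
      simp
      ring
    -- the second derivative along the circle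
    have hang : fderiv ℝ (fderiv ℝ (star F k)) x (perp x) (perp x)
        = (2 * s * deriv F s - k * (k - 1) * F s) • rr (z ^ k) := by
      have hq : ∀ t : ℝ, HasDerivAt (fun t : ℝ => s * (1 + t ^ 2)) (s * (2 * t)) t := by
        intro t
        have := (((hasDerivAt_id t).pow 2).const_add 1).const_mul s
        refine this.congr_deriv ?_
        simp
      have hpos : ∀ t : ℝ, 0 < s * (1 + t ^ 2) := fun t => by positivity
      have hFc : ∀ t : ℝ, HasDerivAt (fun t : ℝ => ((F (s * (1 + t ^ 2)) : ℝ) : ℂ))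
          ((deriv F (s * (1 + t ^ 2)) * (s * (2 * t)) : ℝ) : ℂ) t := fun t =>
        ((hFd _ (hpos t)).comp t (hq t)).ofReal_comp
      have hl : ∀ t : ℝ, HasDerivAt (fun t : ℝ => 1 + (t : ℂ) * Complex.I) Complex.I t := by
        intro t
        have := (((hasDerivAt_id t).ofReal_comp).mul_const Complex.I).const_add 1
        refine this.congr_deriv ?_
        simp
      have hp : ∀ (j : ℕ) (t : ℝ), HasDerivAt (fun t : ℝ => (1 + (t : ℂ) * Complex.I) ^ j)
          ((j : ℂ) * (1 + (t : ℂ) * Complex.I) ^ (j - 1) * Complex.I) t := fun j t => (hl t).pow j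
      set G : ℝ → E2 := fun t => rr (((deriv F (s * (1 + t ^ 2)) * (s * (2 * t)) : ℝ) : ℂ)
          * ((1 + (t : ℂ) * Complex.I) ^ k * z ^ k) + ((F (s * (1 + t ^ 2)) : ℝ) : ℂ)
          * (((k : ℂ) * (1 + (t : ℂ) * Complex.I) ^ (k - 1) * Complex.I) * z ^ k)) with hG
      have e : (fun t : ℝ => star F k (x + t • perp x)) = fun t : ℝ =>
          rr (((F (s * (1 + t ^ 2)) : ℝ) : ℂ) * ((1 + (t : ℂ) * Complex.I) ^ k * z ^ k)) := by
        funext t
        rw [star_eq, sq_add_perp, toC_add_perp, mul_pow]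
      have hGd : ∀ t : ℝ, HasDerivAt (fun t : ℝ => star F k (x + t • perp x)) (G t) t := by
        intro t
        rw [e]
        exact rr.hasFDerivAt.comp_hasDerivAt t ((hFc t).mul ((hp k t).mul_const (z ^ k)))
      have hr0 : HasDerivAt (fun t : ℝ => deriv F (s * (1 + t ^ 2)) * (s * (2 * t)))
          (deriv F s * (2 * s)) 0 := by
        have h2 : HasDerivAt (fun t : ℝ => s * (2 * t)) (2 * s) 0 := by
          refine (((hasDerivAt_id (0:ℝ)).const_mul 2).const_mul s).congr_deriv ?_
          simp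
          ring
        have h3 : HasDerivAt (deriv F) (deriv (deriv F) s) (s * (1 + 0 ^ 2)) := by
          have := hF2.hasDerivAt
          simpa using this
        have h4 := (h3.comp (0:ℝ) (hq 0)).mul h2
        refine h4.congr_deriv ?_
        simp
      have h5 : HasDerivAt (fun t : ℝ => ((deriv F (s * (1 + t ^ 2)) * (s * (2 * t)) : ℝ) : ℂ)
          * ((1 + (t : ℂ) * Complex.I) ^ k * z ^ k) + ((F (s * (1 + t ^ 2)) : ℝ) : ℂ)
          * (((k : ℂ) * (1 + (t : ℂ) * Complex.I) ^ (k - 1) * Complex.I) * z ^ k)) _ 0 :=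
        (hr0.ofReal_comp.mul ((hp k 0).mul_const (z ^ k))).add
          ((hFc 0).mul ((((hp (k - 1) 0).const_mul (k : ℂ)).mul_const Complex.I).mul_const (z ^ k)))
      have h6 := rr.hasFDerivAt.comp_hasDerivAt (0:ℝ) h5
      rw [second_of_lines hc2 (perp x) (Eventually.of_forall hGd) h6, ← map_smul]
      congr 1
      rw [Complex.real_smul]
      have hk1 : ((k - 1 : ℕ) : ℂ) = (k : ℂ) - 1 := by
        rw [Nat.cast_sub hk]; simp
      push_cast
      simp only [hk1]
      simp
      ring_nf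
      simp [Complex.I_sq]
      ring
    rw [hτ]
    set q := 2 * s * deriv F s + (k - 1) * F s with hq
    by_cases hq0 : q = 0
    · left
      rw [hq0, zero_smul, sub_eq_zero] at hrad
      exact hrad
    · right
      have hqn : q < 0 := lt_of_le_of_ne (h1 s hs) hq0
      refine ⟨(2 * s * deriv F s - k * (k - 1) * F s) / q, ?_, ?_⟩
      · rw [hang, hrad, smul_smul, div_mul_cancel₀ _ hq0]
      · have h7 : fderiv ℝ (fun _ : E2 => (0:ℝ)) x (perp x) = 0 := by simp
        rw [h7]
        have hk2 : (1 : ℝ) ≤ k := by exact_mod_cast hk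
        rw [le_div_iff_of_neg hqn]
        have h8 := h0 s hs
        simp only [hq]
        nlinarith [mul_nonneg (mul_nonneg (by linarith : (0:ℝ) ≤ k - 1) (by linarith : (0:ℝ) ≤ k + 1)) h8]

end

end Pool.Agent.W8h56.MC
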