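import Pool.Agent.W8h56.MC.FamV
import Pool.Agent.W8h56.MC.Star

set_option autoImplicit false

open Matrix Set Filter Topology MeasureTheory
open scoped NNReal ENNReal ContDiff

namespace Pool.Agent.W8h56.MC

open Pool.Agent.Helper188.Morrey

section

variable {F : ℝ → ℝ} {k : ℕ} {x : E2}

theorem star_rad (hF : ContDiffOn ℝ 3 F (Ioi 0)) (hx : x ≠ 0) :
    fderiv ℝ (star F k) x x - star F k x
      = (2 * sq x * deriv F (sq x) + (k - 1) * F (sq x)) • rr (toC x ^ k) := by
  have hs := sq_pos hx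
  set s := sq x with hsd
  set z := toC x with hz
  have hFd : ∀ y, 0 < y → HasDerivAt F (deriv F y) y := fun y hy =>
    (((hF.contDiffAt (Ioi_mem_nhds hy)).differentiableAt (by simp))).hasDerivAt
  have hc3 := star_contDiffAt (k := k) hF hx
  have hc2 : ContDiffAt ℝ 2 (star F k) x := hc3.of_le (by norm_num)
  have hd : DifferentiableAt ℝ (star F k) x := hc2.differentiableAt (by simp)
  have hq : HasDerivAt (fun t : ℝ => s * (1 + t) ^ 2) (2 * s) 0 := by
    have := (((hasDerivAt_id (0:ℝ)).const_add 1).pow 2).const_mul s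
    refine this.congr_deriv ?_
    simp
    ring
  have hFq : HasDerivAt (fun t : ℝ => F (s * (1 + t) ^ 2)) (deriv F s * (2 * s)) 0 := by
    have h2 : HasDerivAt F (deriv F s) (s * (1 + 0) ^ 2) := by
      have := hFd s hs
      simpa using this
    exact h2.comp (0:ℝ) hq
  have hFc : HasDerivAt (fun t : ℝ => ((F (s * (1 + t) ^ 2) : ℝ) : ℂ))
      ((deriv F s * (2 * s) : ℝ) : ℂ) 0 := hFq.ofReal_comp
  have hp : HasDerivAt (fun t : ℝ => (1 + (t : ℂ)) ^ k) (k : ℂ) 0 := by
    have h3 : HasDerivAt (fun t : ℝ => 1 + (t : ℂ)) 1 0 :=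
      ((hasDerivAt_id (0:ℝ)).ofReal_comp).const_add 1
    refine (h3.pow k).congr_deriv ?_
    simp
  have hprod : HasDerivAt (fun t : ℝ => ((F (s * (1 + t) ^ 2) : ℝ) : ℂ)
      * ((1 + (t : ℂ)) ^ k * z ^ k)) _ 0 := hFc.mul (hp.mul_const (z ^ k))
  have hrr := rr.hasFDerivAt.comp_hasDerivAt (0:ℝ) hprod
  have e : (fun t : ℝ => star F k (x + t • x)) = fun t : ℝ =>
      rr (((F (s * (1 + t) ^ 2) : ℝ) : ℂ) * ((1 + (t : ℂ)) ^ k * z ^ k)) := by
    funext t
    rw [star_eq, sq_add_self, toC_add_self, mul_pow]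
  have h4 := first_of_line hd x (a := _) (by rw [e]; exact hrr)
  rw [h4, star_eq, ← map_sub, ← map_smul]
  congr 1
  rw [Complex.real_smul]
  push_cast
  simp only [← hsd, ← hz]
  simp
  ring

theorem star_ang (hk : 1 ≤ k) (hF : ContDiffOn ℝ 3 F (Ioi 0)) (hx : x ≠ 0) :
    fderiv ℝ (fderiv ℝ (star F k)) x (perp x) (perp x)
      = (2 * sq x * deriv F (sq x) - k * (k - 1) * F (sq x)) • rr (toC x ^ k) := by
  have hs := sq_pos hx
  set s := sq x with hsd
  set z := toC x with hz
  have hFd : ∀ y, 0 < y → HasDerivAt F (deriv F y) y := fun y hy =>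
    (((hF.contDiffAt (Ioi_mem_nhds hy)).differentiableAt (by simp))).hasDerivAt
  have hF2 : DifferentiableAt ℝ (deriv F) s := by
    have h2 : ContDiffAt ℝ 2 (fderiv ℝ F) s :=
      (hF.contDiffAt (Ioi_mem_nhds hs)).fderiv_right (by norm_num)
    have h3 : deriv F = fun y => fderiv ℝ F y 1 := by funext y; simp
    rw [h3]
    exact (h2.differentiableAt (by simp)).clm_apply (differentiableAt_const _)
  have hc3 := star_contDiffAt (k := k) hF hx
  have hc2 : ContDiffAt ℝ 2 (star F k) x := hc3.of_le (by norm_num)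
  have hq : ∀ t : ℝ, HasDerivAt (fun t : ℝ => s * (1 + t ^ 2)) (s * (2 * t)) t := by
    intro t
    have := (((hasDerivAt_id t).pow 2).const_add 1).const_mul s
    refine this.congr_deriv ?_
    simp
  have hpos : ∀ t : ℝ, 0 < s * (1 + t ^ 2) := fun t => by positivity
  have hFc : ∀ t : ℝ, HasDerivAt (fun t : ℝ => ((F (s * (1 + t ^ 2)) : ℝ) : ℂ))
      ((deriv F (s * (1 + t ^ 2)) * (s * (2 * t)) : ℝ) : ℂ) t := fun t =>
    ((hFd _ (hpos t)).comp t (hq t)).ofReal_comp
  have hl : ∀ t : ℝ, HasDerivAt (fun t : ℝ => 1 + (t : ℂ) * Complex.I) Complex.I t := by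
    intro t
    have := (((hasDerivAt_id t).ofReal_comp).mul_const Complex.I).const_add 1
    refine this.congr_deriv ?_
    simp
  have hp : ∀ (j : ℕ) (t : ℝ), HasDerivAt (fun t : ℝ => (1 + (t : ℂ) * Complex.I) ^ j)
      ((j : ℂ) * (1 + (t : ℂ) * Complex.I) ^ (j - 1) * Complex.I) t := fun j t => (hl t).pow j
  set G : ℝ → E2 := fun t => rr (((deriv F (s * (1 + t ^ 2)) * (s * (2 * t)) : ℝ) : ℂ)
      * ((1 + (t : ℂ) * Complex.I) ^ k * z ^ k) + ((F (s * (1 + t ^ 2)) : ℝ) : ℂ)
      * (((k : ℂ) * (1 + (t : ℂ) * Complex.I) ^ (k - 1) * Complex.I) * z ^ k)) with hG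
  have e : (fun t : ℝ => star F k (x + t • perp x)) = fun t : ℝ =>
      rr (((F (s * (1 + t ^ 2)) : ℝ) : ℂ) * ((1 + (t : ℂ) * Complex.I) ^ k * z ^ k)) := by
    funext t
    rw [star_eq, sq_add_perp, toC_add_perp, mul_pow]
  have hGd : ∀ t : ℝ, HasDerivAt (fun t : ℝ => star F k (x + t • perp x)) (G t) t := by
    intro t
    rw [e]
    exact rr.hasFDerivAt.comp_hasDerivAt t ((hFc t).mul ((hp k t).mul_const (z ^ k)))
  have hr0 : HasDerivAt (fun t : ℝ => deriv F (s * (1 + t ^ 2)) * (s * (2 * t)))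
      (deriv F s * (2 * s)) 0 := by
    have h2 : HasDerivAt (fun t : ℝ => s * (2 * t)) (2 * s) 0 := by
      refine (((hasDerivAt_id (0:ℝ)).const_mul 2).const_mul s).congr_deriv ?_
      simp
      ring
    have h3 : HasDerivAt (deriv F) (deriv (deriv F) s) (s * (1 + 0 ^ 2)) := by
      have := hF2.hasDerivAt
      simpa using this
    have h4 := (h3.comp (0:ℝ) (hq 0)).mul h2
    refine h4.congr_deriv ?_
    simp
  have h5 : HasDerivAt (fun t : ℝ => ((deriv F (s * (1 + t ^ 2)) * (s * (2 * t)) : ℝ) : ℂ)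
      * ((1 + (t : ℂ) * Complex.I) ^ k * z ^ k) + ((F (s * (1 + t ^ 2)) : ℝ) : ℂ)
      * (((k : ℂ) * (1 + (t : ℂ) * Complex.I) ^ (k - 1) * Complex.I) * z ^ k)) _ 0 :=
    (hr0.ofReal_comp.mul ((hp k 0).mul_const (z ^ k))).add
      ((hFc 0).mul ((((hp (k - 1) 0).const_mul (k : ℂ)).mul_const Complex.I).mul_const (z ^ k)))
  have h6 := rr.hasFDerivAt.comp_hasDerivAt (0:ℝ) h5
  rw [second_of_lines hc2 (perp x) (Eventually.of_forall hGd) h6, ← map_smul]
  congr 1
  rw [Complex.real_smul]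
  have hk1 : ((k - 1 : ℕ) : ℂ) = (k : ℂ) - 1 := by
    rw [Nat.cast_sub hk]; simp
  push_cast
  simp only [hk1]
  simp
  ring_nf
  simp [Complex.I_sq]
  ring

/-- the factor making the map homogeneous of degree one -/
noncomputable def Fk (k : ℕ) (s : ℝ) : ℝ := s ^ ((1 - (k : ℝ)) / 2)

theorem Fk_pos (k : ℕ) {s : ℝ} (hs : 0 < s) : 0 < Fk k s := Real.rpow_pos_of_pos hs _

theorem Fk_contDiff (k : ℕ) : ContDiffOn ℝ 3 (Fk k) (Ioi 0) := by
  intro s hs
  have : s ≠ 0 := ne_of_gt hs
  exact (Real.contDiffAt_rpow_const_of_ne this).contDiffWithinAt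

theorem Fk_deriv (k : ℕ) {s : ℝ} (hs : 0 < s) : 2 * s * deriv (Fk k) s = (1 - k) * Fk k s := by
  have h : HasDerivAt (Fk k) (((1 - (k : ℝ)) / 2) * s ^ ((1 - (k : ℝ)) / 2 - 1)) s :=
    Real.hasDerivAt_rpow_const (Or.inl hs.ne')
  rw [h.deriv, Fk, Real.rpow_sub_one hs.ne']
  field_simp

/-- the maps `|x| e^{ikθ}` -/
theorem star_concave (hk : 1 ≤ k) : DirField (star (Fk k) k) where
  smooth := fun x hx => ((star_contDiffAt (Fk_contDiff k) hx).of_le (by norm_num)).contDiffWithinAt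
  ne := by
    intro x hx h
    have hs := sq_pos hx
    have h0 := congrFun h 0
    have h1 := congrFun h 1
    have hz : ((Fk k (sq x) : ℝ) : ℂ) * toC x ^ k = 0 := by
      apply Complex.ext
      · simpa [star] using h0
      · simpa [star] using h1
    rw [mul_eq_zero] at hz
    rcases hz with hz | hz
    · exact (Fk_pos k hs).ne' (by exact_mod_cast hz)
    · have h2 : toC x = 0 := eq_zero_of_pow_eq_zero hz
      apply hx
      have a := congrArg Complex.re h2
      have b := congrArg Complex.im h2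
      simp only [toC, Complex.zero_re, Complex.zero_im] at a b
      ext i; fin_cases i
      · exact a
      · exact b
  second := by
    intro x hx ξ
    have hs := sq_pos hx
    set V := star (Fk k) k with hV
    have hc2 : ∀ y, y ≠ 0 → ContDiffAt ℝ 2 V y := fun y hy =>
      (star_contDiffAt (Fk_contDiff k) hy).of_le (by norm_num)
    -- homogeneity
    have hhom : ∀ y, y ≠ 0 → fderiv ℝ V y y - V y = 0 := by
      intro y hy
      rw [hV, star_rad (Fk_contDiff k) hy, Fk_deriv k (sq_pos hy)]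
      have : (1 - (k:ℝ)) * Fk k (sq y) + (k - 1) * Fk k (sq y) = 0 := by ring
      rw [this, zero_smul]
    have hrad : ∀ v, fderiv ℝ (fderiv ℝ V) x v x = 0 := by
      intro v
      have h0 : DifferentiableAt ℝ (fderiv ℝ V) x :=
        ((hc2 x hx).fderiv_right (m := 1) (by norm_num)).differentiableAt (by simp)
      have hd : DifferentiableAt ℝ V x := (hc2 x hx).differentiableAt (by simp)
      have h1 : HasFDerivAt (fun y => fderiv ℝ V y y - V y) _ x :=
        (h0.hasFDerivAt.clm_apply (hasFDerivAt_id x)).sub hd.hasFDerivAt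
      have h2 : (fun y => fderiv ℝ V y y - V y) =ᶠ[𝓝 x] fun _ => 0 := by
        filter_upwards [isOpen_compl_singleton.mem_nhds hx] with y hy
        exact hhom y hy
      have h3 : HasFDerivAt (fun y => fderiv ℝ V y y - V y) (0 : E2 →L[ℝ] E2) x :=
        (hasFDerivAt_const (0 : E2) x).congr_of_eventuallyEq h2
      have h4 := congrArg (fun L : E2 →L[ℝ] E2 => L v) (h1.unique h3)
      simpa using h4
    have hsym : fderiv ℝ (fderiv ℝ V) x x (perp x) = 0 := by
      have := ((hc2 x hx).isSymmSndFDerivAt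
        (by rw [minSmoothness_of_isRCLikeNormedField])).eq x (perp x)
      rw [this, hrad]
    have hang := star_ang hk (Fk_contDiff k) hx
    -- decomposition of the direction
    set a : ℝ := (ξ 0 * x 0 + ξ 1 * x 1) / sq x with ha
    set b : ℝ := (-(ξ 0 * x 1) + ξ 1 * x 0) / sq x with hb
    have hξ : ξ = a • x + b • perp x := by
      have hss : x 0 ^ 2 + x 1 ^ 2 ≠ 0 := hs.ne'
      ext i; fin_cases i
      · simp only [ha, hb, Fin.zero_eta, Pi.add_apply, Pi.smul_apply, smul_eq_mul, perp0, sq]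
        field_simp
        ring
      · simp only [ha, hb, Fin.mk_one, Pi.add_apply, Pi.smul_apply, smul_eq_mul, perp1, sq]
        field_simp
        ring
    have hk2 : (1 : ℝ) ≤ k := by exact_mod_cast hk
    refine ⟨b ^ 2 * ((k:ℝ) ^ 2 - 1), mul_nonneg (sq_nonneg _) (by nlinarith), ?_⟩
    conv_lhs => rw [hξ]
    simp only [map_add, map_smul, ContinuousLinearMap.add_apply, ContinuousLinearMap.smul_apply,
      hrad, hsym, smul_zero, zero_add, add_zero]
    rw [hang, Fk_deriv k hs, hV, star_eq]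
    have e : ((Fk k (sq x) : ℝ) : ℂ) * toC x ^ k = (Fk k (sq x)) • (toC x ^ k) := by
      rw [Complex.real_smul]
    rw [e, map_smul]
    module

end

end Pool.Agent.W8h56.MC
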