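import Pool.Agent.W8h56.MC.Cut

set_option autoImplicit false

open Matrix Set Filter Topology MeasureTheory
open scoped NNReal ENNReal ContDiff

namespace Pool.Agent.W8h56.MC

open Pool.Agent.Helper188.Morrey

section

variable {A : E2 → M2} {b ϑ : E2 → E2} {x : E2}

theorem Calibrates.cA (h : Calibrates A b ϑ) (hx : x ≠ 0) (i j : Fin 2) :
    ContDiffAt ℝ 2 (fun y => A y i j) x :=
  (h.smoothA i j).contDiffAt (isOpen_compl_singleton.mem_nhds hx)

theorem Calibrates.cb (h : Calibrates A b ϑ) (hx : x ≠ 0) (i : Fin 2) :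
    ContDiffAt ℝ 2 (fun y => b y i) x :=
  (h.smoothb i).contDiffAt (isOpen_compl_singleton.mem_nhds hx)

/-- the columns of the difference of the gradient and `A` -/
noncomputable def Cm (A : E2 → M2) (b : E2 → E2) (x : E2) (k i : Fin 2) : ℝ :=
  (dM i A x *ᵥ x) k + dV i b x k

theorem Cm_apply (k i : Fin 2) : Cm A b x k i =
    dx i (fun y => A y k 0) x * x 0 + dx i (fun y => A y k 1) x * x 1 + dx i (fun y => b y k) x := by
  simp only [Cm, dM, dV, Matrix.mulVec, dotProduct, Fin.sum_univ_two, Matrix.of_apply]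

theorem Calibrates.grad_eq (h : Calibrates A b ϑ) (hx : x ≠ 0) (k i : Fin 2) :
    grad ϑ x k i = A x k i + Cm A b x k i := by
  have e : ∀ k, (fun y => ϑ y k) = fun y => A y k 0 * y 0 + A y k 1 * y 1 + b y k := by
    intro k
    funext y
    rw [h.eq y]
    simp only [Pi.add_apply, Matrix.mulVec, dotProduct, Fin.sum_univ_two]
  have hA := fun i j => HD.of_diff ((h.cA hx i j).differentiableAt (by simp))
  have hb := fun i => HD.of_diff ((h.cb hx i).differentiableAt (by simp))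
  have hd := fun k => (((hA k 0).mul (HD.coord0 x)).add ((hA k 1).mul (HD.coord1 x))).add (hb k)
  have hd' : ∀ k, DifferentiableAt ℝ (fun y => ϑ y k) x := by
    intro k; rw [e k]; exact (hd k).1
  have h1 : HasFDerivAt ϑ (ContinuousLinearMap.pi fun k => fderiv ℝ (fun y => ϑ y k) x) x :=
    hasFDerivAt_pi.2 fun k => (hd' k).hasFDerivAt
  have h2 : grad ϑ x k i = dx i (fun y => ϑ y k) x := by
    rw [grad_apply, h1.fderiv]; rfl
  rw [h2, e k, Cm_apply]
  fin_cases i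
  · have := (hd k).2.1
    simp only [Fin.zero_eta]
    rw [this]; ring
  · have := (hd k).2.2
    simp only [Fin.mk_one]
    rw [this]; ring

theorem zt_eq (l k : Fin 2) : zt A b l x k = 1 / 2 * Cm A b x k l + 1 / 2 * dV l b x k := by
  simp only [zt, Cm, Pi.add_apply, Pi.smul_apply, smul_eq_mul]
  ring

theorem bdd_of_cont (hb : ∃ C : ℝ, ∀ x i j, |A x i j| ≤ C) {φ : V4 → ℝ} (hφ : Continuous φ) :
    ∃ C : ℝ, 0 ≤ C ∧ ∀ x, |φ (AV A x)| ≤ C := by
  obtain ⟨C, hC⟩ := hb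
  have hC0 : 0 ≤ C := (abs_nonneg _).trans (hC 0 0 0)
  obtain ⟨B, hB⟩ := (isCompact_closedBall (0 : V4) C).exists_bound_of_continuousOn hφ.continuousOn
  refine ⟨max B 0, le_max_right _ _, fun x => ?_⟩
  refine (hB (AV A x) ?_).trans (le_max_left _ _)
  rw [Metric.mem_closedBall, dist_zero_right]
  exact (pi_norm_le_iff_of_nonneg hC0).2 fun i => (pi_norm_le_iff_of_nonneg hC0).2 fun j => hC x i j

theorem dx_zero_of {f : E2 → ℝ} (h : f =ᶠ[𝓝 x] fun _ => 0) (l : Fin 2) : dx l f x = 0 := by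
  rw [dx, h.fderiv_eq]; simp

theorem Calibrates.far (h : Calibrates A b ϑ) : ∃ R : ℝ, 0 ≤ R ∧ ∀ x : E2, R < ‖x‖ →
    (∀ᶠ y in 𝓝 x, A y = 0 ∧ b y = 0) := by
  obtain ⟨R, hR⟩ := h.supp
  refine ⟨max R 0, le_max_right _ _, fun x hx => ?_⟩
  have : ∀ᶠ y : E2 in 𝓝 x, max R 0 < ‖y‖ := continuous_norm.continuousAt.eventually (lt_mem_nhds hx)
  filter_upwards [this] with y hy
  exact hR y ((le_max_left _ _).trans hy.le)

theorem far_dx {R : ℝ} (hR : ∀ x : E2, R < ‖x‖ → (∀ᶠ y in 𝓝 x, A y = 0 ∧ b y = 0))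
    (hx : R < ‖x‖) (l k i : Fin 2) : dx l (fun y => A y k i) x = 0 ∧ dx l (fun y => b y k) x = 0 := by
  refine ⟨dx_zero_of ?_ l, dx_zero_of ?_ l⟩
  · filter_upwards [hR x hx] with y hy
    rw [hy.1]; rfl
  · filter_upwards [hR x hx] with y hy
    rw [hy.2]; rfl

theorem far_zt {R : ℝ} (hR : ∀ x : E2, R < ‖x‖ → (∀ᶠ y in 𝓝 x, A y = 0 ∧ b y = 0))
    (hx : R < ‖x‖) (l k : Fin 2) : zt A b l x k = 0 := by
  rw [zt_apply, (far_dx hR hx l k 0).1, (far_dx hR hx l k 1).1, (far_dx hR hx l k 0).2]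
  ring

theorem far_P {g : V4 → ℝ} {R : ℝ} (hR : ∀ x : E2, R < ‖x‖ → (∀ᶠ y in 𝓝 x, A y = 0 ∧ b y = 0))
    (hx : R < ‖x‖) : P g A x = 0 := by
  have h1 := (hR x hx).self_of_nhds.1
  have h2 : AV A x = 0 := h1
  rw [P, h2, sub_self]

theorem abs_coord_le (x : E2) (i : Fin 2) : |x i| ≤ ‖x‖ := norm_le_pi_norm x i

theorem T_contDiffAt {g : V4 → ℝ} (hg : ContDiff ℝ ∞ g) (hA : ∀ i j, ContDiffAt ℝ 2 (fun y => A y i j) x)
    (k i : Fin 2) : ContDiffAt ℝ 1 (T g A k i) x := by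
  have h1 : ContDiffAt ℝ 1 (AV A) x :=
    contDiffAt_pi.2 fun i => contDiffAt_pi.2 fun j => (hA i j).of_le (by norm_num)
  have hd : ContDiff ℝ 1 (fderiv ℝ g) := hg.fderiv_right (by norm_cast)
  exact (hd.contDiffAt.comp x h1).clm_apply contDiffAt_const

theorem P_contDiffAt {g : V4 → ℝ} (hg : ContDiff ℝ ∞ g)
    (hA : ∀ i j, ContDiffAt ℝ 2 (fun y => A y i j) x) : ContDiffAt ℝ 1 (P g A) x := by
  have h1 : ContDiffAt ℝ 1 (AV A) x :=
    contDiffAt_pi.2 fun i => contDiffAt_pi.2 fun j => (hA i j).of_le (by norm_num)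
  have hd : ContDiff ℝ 1 g := hg.of_le (by exact_mod_cast le_top)
  exact (hd.contDiffAt.comp x h1).sub contDiffAt_const

theorem dx_contDiffAt {f : E2 → ℝ} (hf : ContDiffAt ℝ 2 f x) (l : Fin 2) :
    ContDiffAt ℝ 1 (dx l f) x :=
  (hf.fderiv_right (m := 1) (by norm_num)).clm_apply contDiffAt_const

theorem coord_contDiffAt (i : Fin 2) : ContDiffAt ℝ 1 (fun y : E2 => y i) x :=
  (ContinuousLinearMap.proj (R := ℝ) (φ := fun _ : Fin 2 => ℝ) i).contDiff.contDiffAt

theorem zt_contDiffAt (hA : ∀ i j, ContDiffAt ℝ 2 (fun y => A y i j) x)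
    (hb : ∀ i, ContDiffAt ℝ 2 (fun y => b y i) x) (l k : Fin 2) :
    ContDiffAt ℝ 1 (fun y => zt A b l y k) x := by
  have e : (fun y => zt A b l y k) = fun y => 1 / 2 * (dx l (fun y => A y k 0) y * y 0
      + dx l (fun y => A y k 1) y * y 1) + dx l (fun y => b y k) y := by
    funext y; exact zt_apply l k y
  rw [e]
  exact (contDiffAt_const.mul (((dx_contDiffAt (hA k 0) l).mul (coord_contDiffAt 0)).add
    ((dx_contDiffAt (hA k 1) l).mul (coord_contDiffAt 1)))).add (dx_contDiffAt (hb k) l)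

theorem V_contDiffAt {g : V4 → ℝ} (hg : ContDiff ℝ ∞ g)
    (hA : ∀ i j, ContDiffAt ℝ 2 (fun y => A y i j) x)
    (hb : ∀ i, ContDiffAt ℝ 2 (fun y => b y i) x) :
    ContDiffAt ℝ 1 (V0 g A b) x ∧ ContDiffAt ℝ 1 (V1 g A b) x := by
  have hT := fun k i => T_contDiffAt hg hA k i
  have hP := P_contDiffAt hg hA
  have hZ := fun l k => zt_contDiffAt hA hb l k
  have c0 : ContDiffAt ℝ 1 (fun y : E2 => y 0) x := coord_contDiffAt 0
  have c1 : ContDiffAt ℝ 1 (fun y : E2 => y 1) x := coord_contDiffAt 1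
  constructor
  · exact (contDiffAt_const.mul (c0.mul hP)).add
      ((((c1.neg.mul (hT 0 0)).add (c0.mul (hT 0 1))).mul (hZ 1 0)).add
       (((c1.neg.mul (hT 1 0)).add (c0.mul (hT 1 1))).mul (hZ 1 1)))
  · exact (contDiffAt_const.mul (c1.mul hP)).sub
      ((((c1.neg.mul (hT 0 0)).add (c0.mul (hT 0 1))).mul (hZ 0 0)).add
       (((c1.neg.mul (hT 1 0)).add (c0.mul (hT 1 1))).mul (hZ 0 1)))

theorem G_apply {g : V4 → ℝ} (y : E2) : G g A b y = P g A y + (T g A 0 0 y * Cm A b y 0 0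
    + T g A 0 1 y * Cm A b y 0 1 + T g A 1 0 y * Cm A b y 1 0 + T g A 1 1 y * Cm A b y 1 1) := rfl

theorem Cm_contAt (hA : ∀ i j, ContDiffAt ℝ 2 (fun y => A y i j) x)
    (hb : ∀ i, ContDiffAt ℝ 2 (fun y => b y i) x) (k i : Fin 2) :
    ContinuousAt (fun y => Cm A b y k i) x := by
  have e : (fun y => Cm A b y k i) = fun y => dx i (fun y => A y k 0) y * y 0
      + dx i (fun y => A y k 1) y * y 1 + dx i (fun y => b y k) y := by
    funext y; exact Cm_apply k i
  rw [e]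
  exact ((((dx_contDiffAt (hA k 0) i).mul (coord_contDiffAt 0)).add
    ((dx_contDiffAt (hA k 1) i).mul (coord_contDiffAt 1))).add (dx_contDiffAt (hb k) i)).continuousAt

theorem G_contAt {g : V4 → ℝ} (hg : ContDiff ℝ ∞ g)
    (hA : ∀ i j, ContDiffAt ℝ 2 (fun y => A y i j) x)
    (hb : ∀ i, ContDiffAt ℝ 2 (fun y => b y i) x) : ContinuousAt (G g A b) x := by
  have hT := fun k i => (T_contDiffAt hg hA k i).continuousAt
  have hP := (P_contDiffAt hg hA).continuousAt
  have hC := fun k i => Cm_contAt hA hb k i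
  exact hP.add (((((hT 0 0).mul (hC 0 0)).add ((hT 0 1).mul (hC 0 1))).add
    ((hT 1 0).mul (hC 1 0))).add ((hT 1 1).mul (hC 1 1)))

theorem abs_comb {y0 y1 t0 t1 z N CT CZ : ℝ} (hN : 0 ≤ N) (h0 : |y0| ≤ N) (h1 : |y1| ≤ N)
    (ht0 : |t0| ≤ CT) (ht1 : |t1| ≤ CT) (hz : N * |z| ≤ CZ) (hCT : 0 ≤ CT) :
    |(-y1 * t0 + y0 * t1) * z| ≤ 2 * CT * CZ := by
  have a : |(-y1 * t0 + y0 * t1)| ≤ 2 * N * CT := by
    calc |(-y1 * t0 + y0 * t1)| ≤ |-y1 * t0| + |y0 * t1| := abs_add_le _ _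
      _ = |y1| * |t0| + |y0| * |t1| := by rw [abs_mul, abs_mul, abs_neg]
      _ ≤ N * CT + N * CT := add_le_add (mul_le_mul h1 ht0 (abs_nonneg _) hN)
          (mul_le_mul h0 ht1 (abs_nonneg _) hN)
      _ = 2 * N * CT := by ring
  rw [abs_mul]
  calc |(-y1 * t0 + y0 * t1)| * |z| ≤ (2 * N * CT) * |z| :=
        mul_le_mul_of_nonneg_right a (abs_nonneg _)
    _ = 2 * CT * (N * |z|) := by ring
    _ ≤ 2 * CT * CZ := mul_le_mul_of_nonneg_left hz (by positivity)

/-- the vector field is bounded -/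
theorem V_bdd (h : Calibrates A b ϑ) {K : ℝ≥0} (hK : LipschitzWith K ϑ) {g : V4 → ℝ}
    (hg : ContDiff ℝ ∞ g) : ∃ C : ℝ, ∀ x, x ≠ 0 → |V0 g A b x| ≤ C ∧ |V1 g A b x| ≤ C := by
  obtain ⟨R, hR0, hR⟩ := h.far
  obtain ⟨CA, hCA⟩ := h.bddA
  obtain ⟨CB, hCB⟩ := h.bddb
  have hCA0 : 0 ≤ CA := (abs_nonneg _).trans (hCA 0 0 0)
  have hx1 : (Pi.single 0 1 : E2) ≠ 0 := by
    intro h
    have := congrFun h 0
    simp at this
  have hCB0 : 0 ≤ CB := (mul_nonneg (norm_nonneg _) (abs_nonneg _)).trans (hCB _ hx1 0 0)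
  obtain ⟨CP, hCP0, hCP⟩ := bdd_of_cont h.bddA (φ := fun F => g F - g 0) (by
    have := hg.continuous; fun_prop)
  have hT : ∀ k i, ∃ C : ℝ, 0 ≤ C ∧ ∀ x, |T g A k i x| ≤ C := fun k i =>
    bdd_of_cont h.bddA (φ := fun F => fderiv ℝ g F (E k i))
      ((hg.continuous_fderiv (by simp)).clm_apply continuous_const)
  choose CT hCT0 hCT using hT
  set D : ℝ := CT 0 0 + CT 0 1 + CT 1 0 + CT 1 1 with hD
  have hD0 : 0 ≤ D := by
    have := hCT0 0 0; have := hCT0 0 1; have := hCT0 1 0; have := hCT0 1 1; positivity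
  have hTD : ∀ k i x, |T g A k i x| ≤ D := by
    intro k i x
    refine (hCT k i x).trans ?_
    have a := hCT0 0 0; have b := hCT0 0 1; have c := hCT0 1 0; have d := hCT0 1 1
    fin_cases k <;> fin_cases i <;> simp only [hD, Fin.zero_eta, Fin.mk_one] <;> linarith
  set Z : ℝ := 1 / 2 * (R * (K + CA)) + 1 / 2 * CB with hZdef
  have hK0 : (0 : ℝ) ≤ K := K.2
  have hZ0 : 0 ≤ Z := by positivity
  have hZ : ∀ x, x ≠ 0 → ∀ l k, ‖x‖ * |zt A b l x k| ≤ Z := by
    intro x hx l k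
    by_cases hxR : R < ‖x‖
    · rw [far_zt hR hxR, abs_zero, mul_zero]; exact hZ0
    · rw [not_lt] at hxR
      have h1 : |Cm A b x k l| ≤ K + CA := by
        have e : Cm A b x k l = grad ϑ x k l - A x k l := by rw [h.grad_eq hx]; ring
        rw [e]
        calc |grad ϑ x k l - A x k l| ≤ |grad ϑ x k l| + |A x k l| := abs_sub _ _
          _ ≤ K + CA := add_le_add (grad_bound hK x k l) (hCA x k l)
      rw [zt_eq]
      calc ‖x‖ * |1 / 2 * Cm A b x k l + 1 / 2 * dV l b x k|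
          ≤ ‖x‖ * (|1 / 2 * Cm A b x k l| + |1 / 2 * dV l b x k|) :=
            mul_le_mul_of_nonneg_left (abs_add_le _ _) (norm_nonneg _)
        _ = 1 / 2 * (‖x‖ * |Cm A b x k l|) + 1 / 2 * (‖x‖ * |dV l b x k|) := by
            rw [abs_mul, abs_mul, abs_of_pos (by norm_num : (0:ℝ) < 1 / 2)]; ring
        _ ≤ 1 / 2 * (R * (K + CA)) + 1 / 2 * CB := by
            have h2 : ‖x‖ * |Cm A b x k l| ≤ R * (K + CA) :=
              mul_le_mul hxR h1 (abs_nonneg _) hR0
            have h3 := hCB x hx l k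
            linarith
  have hPb : ∀ x (i : Fin 2), |1 / 2 * (x i * P g A x)| ≤ 1 / 2 * (R * CP) := by
    intro x i
    by_cases hxR : R < ‖x‖
    · rw [far_P hR hxR]
      simp only [mul_zero, abs_zero]
      positivity
    · rw [not_lt] at hxR
      rw [abs_mul, abs_mul, abs_of_pos (by norm_num : (0:ℝ) < 1 / 2)]
      refine mul_le_mul_of_nonneg_left (mul_le_mul ((abs_coord_le x i).trans hxR) (hCP x)
        (abs_nonneg _) hR0) (by norm_num)
  refine ⟨1 / 2 * (R * CP) + (2 * D * Z + 2 * D * Z), fun x hx => ⟨?_, ?_⟩⟩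
  · refine (abs_add_le _ _).trans (add_le_add (hPb x 0) ((abs_add_le _ _).trans (add_le_add ?_ ?_)))
    · exact abs_comb (norm_nonneg x) (abs_coord_le x 0) (abs_coord_le x 1) (hTD _ _ _) (hTD _ _ _)
        (hZ x hx 1 0) hD0
    · exact abs_comb (norm_nonneg x) (abs_coord_le x 0) (abs_coord_le x 1) (hTD _ _ _) (hTD _ _ _)
        (hZ x hx 1 1) hD0
  · refine (abs_sub _ _).trans (add_le_add (hPb x 1) ((abs_add_le _ _).trans (add_le_add ?_ ?_)))
    · exact abs_comb (norm_nonneg x) (abs_coord_le x 0) (abs_coord_le x 1) (hTD _ _ _) (hTD _ _ _)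
        (hZ x hx 0 0) hD0
    · exact abs_comb (norm_nonneg x) (abs_coord_le x 0) (abs_coord_le x 1) (hTD _ _ _) (hTD _ _ _)
        (hZ x hx 0 1) hD0

/-- the lower bound of the energy density is integrable -/
theorem G_integrable (h : Calibrates A b ϑ) {K : ℝ≥0} (hK : LipschitzWith K ϑ) {g : V4 → ℝ}
    (hg : ContDiff ℝ ∞ g) : Integrable (G g A b) := by
  obtain ⟨R, hR0, hR⟩ := h.far
  obtain ⟨CA, hCA⟩ := h.bddA
  have hCA0 : 0 ≤ CA := (abs_nonneg _).trans (hCA 0 0 0)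
  obtain ⟨CP, hCP0, hCP⟩ := bdd_of_cont h.bddA (φ := fun F => g F - g 0) (by
    have := hg.continuous; fun_prop)
  have hT : ∀ k i, ∃ C : ℝ, 0 ≤ C ∧ ∀ x, |T g A k i x| ≤ C := fun k i =>
    bdd_of_cont h.bddA (φ := fun F => fderiv ℝ g F (E k i))
      ((hg.continuous_fderiv (by simp)).clm_apply continuous_const)
  choose CT hCT0 hCT using hT
  have hK0 : (0 : ℝ) ≤ K := K.2
  have hne : ∀ᵐ x : E2, x ≠ 0 := by
    have : (volume : Measure E2) {0} = 0 := measure_singleton 0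
    exact compl_mem_ae_iff.2 this
  have hC : ∀ x, x ≠ 0 → ∀ k l, |Cm A b x k l| ≤ K + CA := by
    intro x hx k l
    have e : Cm A b x k l = grad ϑ x k l - A x k l := by rw [h.grad_eq hx]; ring
    rw [e]
    calc |grad ϑ x k l - A x k l| ≤ |grad ϑ x k l| + |A x k l| := abs_sub _ _
      _ ≤ K + CA := add_le_add (grad_bound hK x k l) (hCA x k l)
  have hTC : ∀ x, x ≠ 0 → ∀ k l, |T g A k l x * Cm A b x k l| ≤ CT k l * (K + CA) := by
    intro x hx k l
    rw [abs_mul]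
    exact mul_le_mul (hCT k l x) (hC x hx k l) (abs_nonneg _) (hCT0 k l)
  -- measurability
  have hm : AEStronglyMeasurable (G g A b) volume := by
    have h1 : ContinuousOn (G g A b) {0}ᶜ := fun x hx =>
      (G_contAt hg (fun i j => h.cA hx i j) (fun i => h.cb hx i)).continuousWithinAt
    have h2 : AEStronglyMeasurable (G g A b) (volume.restrict {0}ᶜ) :=
      h1.aestronglyMeasurable (measurableSet_singleton _).compl
    have h3 : (volume : Measure E2).restrict {0}ᶜ = volume :=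
      Measure.restrict_eq_self_of_ae_mem hne
    rwa [h3] at h2
  -- bounded support
  have hsupp : ∀ x : E2, x ∉ Metric.closedBall (0 : E2) R → G g A b x = 0 := by
    intro x hx
    rw [Metric.mem_closedBall, dist_zero_right, not_le] at hx
    have hc : ∀ k i, Cm A b x k i = 0 := by
      intro k i
      rw [Cm_apply, (far_dx hR hx i k 0).1, (far_dx hR hx i k 1).1, (far_dx hR hx i k 0).2]
      ring
    rw [G_apply, far_P hR hx]
    simp only [hc]
    ring
  have hon : IntegrableOn (G g A b) (Metric.closedBall (0 : E2) R) := by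
    have : IsFiniteMeasure ((volume : Measure E2).restrict (Metric.closedBall (0 : E2) R)) := ⟨by
      rw [Measure.restrict_apply_univ]; exact measure_closedBall_lt_top⟩
    refine Integrable.of_bound hm.restrict (CP + (CT 0 0 * (K + CA) + CT 0 1 * (K + CA)
      + CT 1 0 * (K + CA) + CT 1 1 * (K + CA))) ?_
    filter_upwards [ae_restrict_of_ae hne] with x hx
    rw [Real.norm_eq_abs, G_apply]
    refine (abs_add_le _ _).trans (add_le_add (hCP x) ?_)
    refine (abs_add_le _ _).trans (add_le_add ?_ (hTC x hx 1 1))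
    refine (abs_add_le _ _).trans (add_le_add ?_ (hTC x hx 1 0))
    exact (abs_add_le _ _).trans (add_le_add (hTC x hx 0 0) (hTC x hx 0 1))
  exact hon.integrable_of_forall_notMem_eq_zero hsupp

/-- the bilinear form of second derivatives -/
noncomputable def Qf (g : V4 → ℝ) (F : V4) : M2 →ₗ[ℝ] M2 →ₗ[ℝ] ℝ :=
  LinearMap.mk₂ ℝ (fun H K : M2 => fderiv ℝ (fderiv ℝ g) F (H : V4) (K : V4))
    (fun a b c => by
      have : fderiv ℝ (fderiv ℝ g) F ((a : V4) + (b : V4)) = _ := map_add _ _ _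
      exact congrArg (fun L : V4 →L[ℝ] ℝ => L c) this)
    (fun r a c => by
      have : fderiv ℝ (fderiv ℝ g) F (r • (a : V4)) = _ := map_smul _ _ _
      exact congrArg (fun L : V4 →L[ℝ] ℝ => L c) this)
    (fun a b c => map_add (fderiv ℝ (fderiv ℝ g) F (a : V4)) (b : V4) (c : V4))
    (fun r a c => map_smul (fderiv ℝ (fderiv ℝ g) F (a : V4)) r (c : V4))

theorem Rm_nonneg (h : Calibrates A b ϑ) {W : M2 → ℝ} (hW : RankOneConvex W)
    (hs : ContDiff ℝ ∞ (onV W)) (hx : x ≠ 0) : 0 ≤ Rm (onV W) A b x := by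
  have h1 := h.ineq x hx (Qf (onV W) (AV A x)) (fun H K => second_symm hs (AV A x) H K)
    (fun H hH => second_order hW hs (AV A x) H (det_eq_zero_of_rank hH.le))
  rw [Rm]
  have h2 : fderiv ℝ (fderiv ℝ (onV W)) (AV A x) (dM 0 A x : V4)
      (vecMulVec (zt A b 1 x) (perp x) : V4) ≤
      fderiv ℝ (fderiv ℝ (onV W)) (AV A x) (dM 1 A x : V4)
      (vecMulVec (zt A b 0 x) (perp x) : V4) := h1
  linarith

theorem G_le (h : Calibrates A b ϑ) {W : M2 → ℝ} (hW : RankOneConvex W)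
    (hs : ContDiff ℝ ∞ (onV W)) (hx : x ≠ 0) : G (onV W) A b x ≤ W (grad ϑ x) - W 0 := by
  have h1 := det_eq_zero_of_rank (h.rank x hx)
  have e : ∀ k i, (grad ϑ x - A x) k i = Cm A b x k i := by
    intro k i
    rw [Matrix.sub_apply, h.grad_eq hx]; ring
  set H : V4 := grad ϑ x - A x with hH
  have h2 := first_order hW hs (AV A x) H h1
  have h3 : AV A x + H = (grad ϑ x : V4) := by
    show A x + (grad ϑ x - A x) = grad ϑ x
    rw [add_sub_cancel]
  rw [h3, expand] at h2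
  rw [G_apply, P]
  have e' : ∀ k i, H k i = Cm A b x k i := e
  rw [e', e', e', e'] at h2
  have h4 : onV W (grad ϑ x : V4) = W (grad ϑ x) := rfl
  have h5 : onV W 0 = W 0 := rfl
  rw [h4] at h2
  rw [h5]
  simp only [T]
  linarith

/-- **The quasiconvexity inequality for calibrated maps and smooth rank-one convex functions.** -/
theorem smooth_case (h : Calibrates A b ϑ) {K : ℝ≥0} (hK : LipschitzWith K ϑ) {Ω : Set E2}
    (hΩ : IsOpen Ω) (hb : Bornology.IsBounded Ω) (h0 : ∀ x, x ∉ Ω → ϑ x = 0) {W : M2 → ℝ}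
    (hW : RankOneConvex W) (hs : ContDiff ℝ ∞ (onV W)) :
    W 0 * (volume Ω).toReal ≤ ∫ x in Ω, W (grad ϑ x) := by
  obtain ⟨C, hC⟩ := V_bdd h hK hs
  obtain ⟨R, hR0, hR⟩ := h.far
  have hGi := G_integrable h hK hs
  have hne : ∀ᵐ x : E2, x ≠ 0 := by
    have : (volume : Measure E2) {0} = 0 := measure_singleton 0
    exact compl_mem_ae_iff.2 this
  have h1 : 0 ≤ ∫ x, G (onV W) A b x := by
    refine integral_nonneg_of_div (v := V0 (onV W) A b) (w := V1 (onV W) A b) (R := R) (C := C)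
      (fun x hx => (V_contDiffAt hs (fun i j => h.cA hx i j) (fun i => h.cb hx i)).1)
      (fun x hx => (V_contDiffAt hs (fun i j => h.cA hx i j) (fun i => h.cb hx i)).2)
      ?_ (fun x hx => (hC x hx).1) (fun x hx => (hC x hx).2) hGi ?_
    · intro x hx
      rw [V0, V1, far_P hR hx]
      simp only [far_zt hR hx]
      constructor <;> ring
    · intro x hx
      rw [div_identity hs (fun i j => h.cA hx i j) (fun i => h.cb hx i)]
      linarith [Rm_nonneg h hW hs hx]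
  have hWc := hW.continuous
  have : IsFiniteMeasure (volume.restrict Ω) := ⟨by
    rw [Measure.restrict_apply_univ]; exact hb.measure_lt_top⟩
  have iW : Integrable (fun x => W (grad ϑ x)) (volume.restrict Ω) := integrable_comp hK hb hWc
  have iS : IntegrableOn (fun x => W (grad ϑ x) - W 0) Ω := iW.sub (integrable_const _)
  have hoff : ∀ᵐ x : E2, x ∉ Ω → W (grad ϑ x) - W 0 = 0 := by
    have := grad_off hK hΩ h0
    rw [ae_restrict_iff' hΩ.measurableSet.compl] at this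
    filter_upwards [this] with x hx hx'
    rw [hx hx', sub_self]
  have iF : Integrable (fun x => W (grad ϑ x) - W 0) :=
    iS.integrable_of_ae_notMem_eq_zero hoff
  have h2 : ∫ x, G (onV W) A b x ≤ ∫ x, (W (grad ϑ x) - W 0) := by
    refine integral_mono_ae hGi iF ?_
    filter_upwards [hne] with x hx
    exact G_le h hW hs hx
  have h3 : ∫ x, (W (grad ϑ x) - W 0) = ∫ x in Ω, (W (grad ϑ x) - W 0) :=
    (setIntegral_eq_integral_of_ae_compl_eq_zero hoff).symm
  rw [h3, integral_sub iW (integrable_const _), integral_const] at h2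
  simp only [measureReal_restrict_apply_univ, smul_eq_mul] at h2
  have h4 : volume.real Ω = (volume Ω).toReal := rfl
  rw [h4] at h2
  linarith

end

end Pool.Agent.W8h56.MC
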