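import Pool.Agent.W8h56.MC.Calib

set_option autoImplicit false

open Matrix Set Filter Topology MeasureTheory
open scoped NNReal ENNReal ContDiff

namespace Pool.Agent.W8h56.MC

open Pool.Agent.Helper188.Morrey

/-- The direction field `x^⊥ + m(x) x`. -/
def tau (m : (Fin 2 → ℝ) → ℝ) (x : Fin 2 → ℝ) : Fin 2 → ℝ := perp x + m x • x

/-- The square of the Euclidean length. -/
def sq (x : Fin 2 → ℝ) : ℝ := x 0 ^ 2 + x 1 ^ 2

/-- the matrix field of a parabolic map -/
noncomputable def Am (m : E2 → ℝ) (ϑ : E2 → E2) (x : E2) : M2 := Matrix.of fun k j =>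
  (ϑ x k * x j + ((dx 0 (fun y => ϑ y k) x * tau m x 0 + dx 1 (fun y => ϑ y k) x * tau m x 1)
    - m x * ϑ x k) * perp x j) / sq x

section

variable {m : E2 → ℝ} {ϑ : E2 → E2} {x : E2}

theorem sq_pos (hx : x ≠ 0) : 0 < sq x := by
  have : x 0 ≠ 0 ∨ x 1 ≠ 0 := by
    by_contra h
    push Not at h
    exact hx (by ext i; fin_cases i; exacts [h.1, h.2])
  rw [sq]
  rcases this with h | h
  · positivity
  · positivity

theorem norm_sq_le (x : E2) : ‖x‖ ^ 2 ≤ sq x := by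
  have h : ‖x‖ = max |x 0| |x 1| := by
    refine le_antisymm ?_ (max_le (norm_le_pi_norm x 0) (norm_le_pi_norm x 1))
    refine (pi_norm_le_iff_of_nonneg (by positivity)).2 fun i => ?_
    fin_cases i
    · exact le_max_left _ _
    · exact le_max_right _ _
  rw [h, sq]
  rcases le_total |x 0| |x 1| with h1 | h1
  · rw [max_eq_right h1, sq_abs]; nlinarith [sq_nonneg (x 0)]
  · rw [max_eq_left h1, sq_abs]; nlinarith [sq_nonneg (x 1)]

theorem comp_contDiffAt {n : WithTop ℕ∞} (h : ContDiffAt ℝ n ϑ x) (k : Fin 2) :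
    ContDiffAt ℝ n (fun y => ϑ y k) x := contDiffAt_pi.1 h k

theorem dx_comp (h : DifferentiableAt ℝ ϑ x) (l k : Fin 2) :
    dx l (fun y => ϑ y k) x = fderiv ℝ ϑ x (Pi.single l 1) k := by
  have h1 : HasFDerivAt ϑ (ContinuousLinearMap.pi fun k => fderiv ℝ (fun y => ϑ y k) x) x :=
    hasFDerivAt_pi.2 fun k => (differentiableAt_pi.1 h k).hasFDerivAt
  rw [h1.fderiv]; rfl

theorem fderiv_vec (h : DifferentiableAt ℝ ϑ x) (v : E2) (k : Fin 2) :
    fderiv ℝ ϑ x v k = dx 0 (fun y => ϑ y k) x * v 0 + dx 1 (fun y => ϑ y k) x * v 1 := by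
  have e : v = v 0 • (Pi.single 0 1 : E2) + v 1 • (Pi.single 1 1 : E2) := by
    ext i; fin_cases i <;> simp
  conv_lhs => rw [e]
  rw [map_add, map_smul, map_smul, dx_comp h, dx_comp h]
  simp only [Pi.add_apply, Pi.smul_apply, smul_eq_mul]
  ring

/-- second derivatives through partial derivatives -/
theorem dxx_comp (h : ContDiffAt ℝ 2 ϑ x) (l n k : Fin 2) :
    dx l (dx n (fun y => ϑ y k)) x
      = fderiv ℝ (fderiv ℝ ϑ) x (Pi.single l 1) (Pi.single n 1) k := by
  have h0 : DifferentiableAt ℝ (fderiv ℝ ϑ) x :=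
    (h.fderiv_right (m := 1) (by norm_num)).differentiableAt (by simp)
  have h1 : HasFDerivAt (fun y => fderiv ℝ ϑ y (Pi.single n 1)) _ x :=
    h0.hasFDerivAt.clm_apply (hasFDerivAt_const (Pi.single n (1:ℝ) : E2) x)
  have h2 : HasFDerivAt (fun y => fderiv ℝ ϑ y (Pi.single n 1) k) _ x := (hasFDerivAt_pi'.1 h1) k
  have h3 : (dx n (fun y => ϑ y k)) =ᶠ[𝓝 x] fun y => fderiv ℝ ϑ y (Pi.single n 1) k := by
    have : ∀ᶠ y in 𝓝 x, DifferentiableAt ℝ ϑ y := by
      have := h.eventually (by simp)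
      filter_upwards [this] with y hy
      exact hy.differentiableAt (by simp)
    filter_upwards [this] with y hy
    exact dx_comp hy n k
  rw [dx, h3.fderiv_eq, h2.fderiv]
  simp

theorem fderiv2_vec (h : ContDiffAt ℝ 2 ϑ x) (v w : E2) (k : Fin 2) :
    fderiv ℝ (fderiv ℝ ϑ) x v w k =
      v 0 * w 0 * dx 0 (dx 0 (fun y => ϑ y k)) x + v 0 * w 1 * dx 0 (dx 1 (fun y => ϑ y k)) x
      + v 1 * w 0 * dx 1 (dx 0 (fun y => ϑ y k)) x + v 1 * w 1 * dx 1 (dx 1 (fun y => ϑ y k)) x := by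
  have e : ∀ v : E2, v = v 0 • (Pi.single 0 1 : E2) + v 1 • (Pi.single 1 1 : E2) := by
    intro v; ext i; fin_cases i <;> simp
  conv_lhs => rw [e v, e w]
  simp only [map_add, map_smul, ContinuousLinearMap.add_apply, ContinuousLinearMap.smul_apply,
    Pi.add_apply, Pi.smul_apply, smul_eq_mul, dxx_comp h]
  ring

theorem HD.inv {g : E2 → ℝ} {c d : ℝ} (hg : HD g x c d) (h0 : g x ≠ 0) :
    HD (fun y => (g y)⁻¹) x (-c / g x ^ 2) (-d / g x ^ 2) := by
  have h := (hasDerivAt_inv h0).comp_hasFDerivAt x hg.1.hasFDerivAt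
  have e : fderiv ℝ (fun y => (g y)⁻¹) x = _ := h.fderiv
  refine ⟨h.differentiableAt, ?_, ?_⟩
  · rw [← hg.2.1, dx, e]
    simp only [ContinuousLinearMap.smul_apply, smul_eq_mul, dx]
    field_simp
  · rw [← hg.2.2, dx, e]
    simp only [ContinuousLinearMap.smul_apply, smul_eq_mul, dx]
    field_simp

theorem HD.div {f g : E2 → ℝ} {a b c d : ℝ} (hf : HD f x a b) (hg : HD g x c d) (h0 : g x ≠ 0) :
    HD (fun y => f y / g y) x ((a * g x - f x * c) / g x ^ 2) ((b * g x - f x * d) / g x ^ 2) := by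
  have h := hf.mul (hg.inv h0)
  have e : (fun y => f y / g y) = fun y => f y * (g y)⁻¹ := by
    funext y; rw [div_eq_mul_inv]
  rw [e]
  refine ⟨h.1, ?_, ?_⟩
  · rw [h.2.1]; field_simp; ring
  · rw [h.2.2]; field_simp; ring

theorem perp0 (x : E2) : perp x 0 = -(x 1) := rfl
theorem perp1 (x : E2) : perp x 1 = x 0 := rfl
theorem tau0 (m : E2 → ℝ) (x : E2) : tau m x 0 = -(x 1) + m x * x 0 := rfl
theorem tau1 (m : E2 → ℝ) (x : E2) : tau m x 1 = x 0 + m x * x 1 := rfl

theorem hd_perp (x : E2) (j : Fin 2) :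
    HD (fun y => perp y j) x (if j = 0 then 0 else 1) (if j = 0 then -1 else 0) := by
  fin_cases j
  · have := (HD.coord1 x).neg
    simpa [perp0] using this
  · have := HD.coord0 x
    simpa [perp1] using this

theorem hd_coord (x : E2) (j : Fin 2) :
    HD (fun y => y j) x (if j = 0 then 1 else 0) (if j = 0 then 0 else 1) := by
  fin_cases j
  · simpa using HD.coord0 x
  · simpa using HD.coord1 x

theorem hd_sq (x : E2) : HD sq x (2 * x 0) (2 * x 1) := by
  have h := ((HD.coord0 x).mul (HD.coord0 x)).add ((HD.coord1 x).mul (HD.coord1 x))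
  have e : sq = fun y : E2 => y 0 * y 0 + y 1 * y 1 := by
    funext y; rw [sq]; ring
  rw [e]
  refine ⟨h.1, ?_, ?_⟩
  · rw [h.2.1]; ring
  · rw [h.2.2]; ring

/-- the derivative of the matrix field along the direction field -/
theorem Am_tau (hx : x ≠ 0) (hm : DifferentiableAt ℝ m x) (h : ContDiffAt ℝ 2 ϑ x) (k j : Fin 2) :
    HD (fun y => Am m ϑ y k j) x (dx 0 (fun y => Am m ϑ y k j) x) (dx 1 (fun y => Am m ϑ y k j) x) ∧
    tau m x 0 * dx 0 (fun y => Am m ϑ y k j) x + tau m x 1 * dx 1 (fun y => Am m ϑ y k j) x =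
      (fderiv ℝ (fderiv ℝ ϑ) x (tau m x) (tau m x) k
        + (fderiv ℝ m x (tau m x) - 1 - m x ^ 2) * (fderiv ℝ ϑ x x k - ϑ x k)) * perp x j / sq x := by
  have hd : DifferentiableAt ℝ ϑ x := h.differentiableAt (by simp)
  have hf := HD.of_diff (differentiableAt_pi.1 hd k)
  have hf0 := HD.of_diff (dx_diff (comp_contDiffAt h k) 0)
  have hf1 := HD.of_diff (dx_diff (comp_contDiffAt h k) 1)
  have hmm := HD.of_diff hm
  have c0 := HD.coord0 x
  have c1 := HD.coord1 x
  have hs := hd_sq x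
  have hs0 : sq x ≠ 0 := (sq_pos hx).ne'
  have ht0 := c1.neg.add (hmm.mul c0)
  have ht1 := c0.add (hmm.mul c1)
  have hA := ((((hf.mul (hd_coord x j))).add ((((hf0.mul ht0).add (hf1.mul ht1)).sub
    (hmm.mul hf)).mul (hd_perp x j)))).div hs hs0
  have e : (fun y => Am m ϑ y k j) = fun y => (ϑ y k * y j + ((dx 0 (fun y => ϑ y k) y
      * (-(y 1) + m y * y 0) + dx 1 (fun y => ϑ y k) y * (y 0 + m y * y 1))
      - m y * ϑ y k) * perp y j) / sq y := rfl
  rw [e]
  refine ⟨HD.of_diff hA.1, ?_⟩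
  rw [hA.2.1, hA.2.2, fderiv2_vec h, fderiv_vec hd, dx_comm (comp_contDiffAt h k), tau0, tau1]
  have em : fderiv ℝ m x (tau m x) = dx 0 m x * tau m x 0 + dx 1 m x * tau m x 1 := by
    have e : tau m x = tau m x 0 • (Pi.single 0 1 : E2) + tau m x 1 • (Pi.single 1 1 : E2) := by
      ext i; fin_cases i <;> simp
    conv_lhs => rw [e]
    rw [map_add, map_smul, map_smul]
    simp only [smul_eq_mul, dx]
    ring
  rw [em, tau0, tau1]
  have hss : x 0 ^ 2 + x 1 ^ 2 ≠ 0 := hs0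
  fin_cases j
  · simp only [Fin.zero_eta, if_true, perp0, sq]
    field_simp
    ring
  · simp only [Fin.mk_one, if_neg (one_ne_zero : (1 : Fin 2) ≠ 0), perp1, sq]
    field_simp
    ring

end

end Pool.Agent.W8h56.MC
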