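import Pool.Agent.W8h56.MC.Parab

set_option autoImplicit false

open Matrix Set Filter Topology MeasureTheory
open scoped NNReal ENNReal ContDiff

namespace Pool.Agent.W8h56.MC

open Pool.Agent.Helper188.Morrey

section

variable {m : E2 → ℝ} {ϑ : E2 → E2} {x : E2}

theorem perp_abs (x : E2) (j : Fin 2) : |perp x j| ≤ ‖x‖ := by
  fin_cases j
  · simp only [Fin.zero_eta, perp0, abs_neg]; exact abs_coord_le x 1
  · simp only [Fin.mk_one, perp1]; exact abs_coord_le x 0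

theorem perp_norm (x : E2) : ‖perp x‖ ≤ ‖x‖ :=
  (pi_norm_le_iff_of_nonneg (norm_nonneg _)).2 fun j => perp_abs x j

theorem Am_apply (hd : DifferentiableAt ℝ ϑ x) (k j : Fin 2) : Am m ϑ x k j =
    (ϑ x k * x j + (fderiv ℝ ϑ x (tau m x) k - m x * ϑ x k) * perp x j) / sq x := by
  rw [fderiv_vec hd]; rfl

/-- the defect of homogeneity -/
noncomputable def pv (ϑ : E2 → E2) (x : E2) : E2 := fderiv ℝ ϑ x x - ϑ x

/-- the covector of the rank-one part -/
noncomputable def nv (m : E2 → ℝ) (x : E2) : E2 := fun j => (x j - m x * perp x j) / sq x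

theorem grad_sub_Am (hx : x ≠ 0) (hd : DifferentiableAt ℝ ϑ x) :
    grad ϑ x - Am m ϑ x = vecMulVec (pv ϑ x) (nv m x) := by
  have hs0 : x 0 ^ 2 + x 1 ^ 2 ≠ 0 := (sq_pos hx).ne'
  ext k j
  rw [Matrix.sub_apply, grad_apply, ← dx_comp hd, vecMulVec_apply, Am_apply hd, pv, nv,
    Pi.sub_apply, fderiv_vec hd (tau m x), fderiv_vec hd x, tau0, tau1]
  fin_cases j
  · simp only [Fin.zero_eta, perp0, sq]
    field_simp
    ring
  · simp only [Fin.mk_one, perp1, sq]
    field_simp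
    ring

theorem Am_contDiffAt (hx : x ≠ 0) (hm : ContDiffAt ℝ 2 m x) (h : ContDiffAt ℝ 3 ϑ x)
    (k j : Fin 2) : ContDiffAt ℝ 2 (fun y => Am m ϑ y k j) x := by
  have h2 : ContDiffAt ℝ 2 ϑ x := h.of_le (by norm_num)
  have hf := comp_contDiffAt h2 k
  have hfd : ∀ l, ContDiffAt ℝ 2 (dx l (fun y => ϑ y k)) x := fun l =>
    ((comp_contDiffAt h k).fderiv_right (m := 2) (by norm_num)).clm_apply contDiffAt_const
  have hc : ∀ i, ContDiffAt ℝ 2 (fun y : E2 => y i) x := fun i =>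
    (ContinuousLinearMap.proj (R := ℝ) (φ := fun _ : Fin 2 => ℝ) i).contDiff.contDiffAt
  have ht0 : ContDiffAt ℝ 2 (fun y => tau m y 0) x := ((hc 1).neg).add (hm.mul (hc 0))
  have ht1 : ContDiffAt ℝ 2 (fun y => tau m y 1) x := (hc 0).add (hm.mul (hc 1))
  have hp : ContDiffAt ℝ 2 (fun y => perp y j) x := by
    fin_cases j
    · exact (hc 1).neg
    · exact hc 0
  have hs : ContDiffAt ℝ 2 sq x := ((hc 0).pow 2).add ((hc 1).pow 2)
  exact ((hf.mul (hc j)).add ((((hfd 0).mul ht0).add ((hfd 1).mul ht1)).sub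
    (hm.mul hf) |>.mul hp)).div hs (sq_pos hx).ne'

/-- The condition on the map: along the direction field the second derivative is a multiple of
the defect of homogeneity, with a factor bounded below. -/
structure Outward (m : (Fin 2 → ℝ) → ℝ) (ϑ : (Fin 2 → ℝ) → (Fin 2 → ℝ)) : Prop where
  smooth : ContDiffOn ℝ 3 ϑ {0}ᶜ
  smoothm : ContDiffOn ℝ 2 m {0}ᶜ
  bdd : ∃ C : ℝ, ∀ x, x ≠ 0 → |m x| ≤ C
  zero : ϑ 0 = 0
  flow : ∀ x, x ≠ 0 → fderiv ℝ ϑ x x = ϑ x ∨ ∃ c : ℝ,
    fderiv ℝ (fderiv ℝ ϑ) x (tau m x) (tau m x) = c • (fderiv ℝ ϑ x x - ϑ x) ∧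
      1 + m x ^ 2 - fderiv ℝ m x (tau m x) ≤ c

theorem Outward.c3 (h : Outward m ϑ) (hx : x ≠ 0) : ContDiffAt ℝ 3 ϑ x :=
  h.smooth.contDiffAt (isOpen_compl_singleton.mem_nhds hx)

theorem Outward.c2 (h : Outward m ϑ) (hx : x ≠ 0) : ContDiffAt ℝ 2 ϑ x :=
  (h.c3 hx).of_le (by norm_num)

theorem Outward.cm (h : Outward m ϑ) (hx : x ≠ 0) : ContDiffAt ℝ 2 m x :=
  h.smoothm.contDiffAt (isOpen_compl_singleton.mem_nhds hx)

theorem Outward.hd (h : Outward m ϑ) (hx : x ≠ 0) : DifferentiableAt ℝ ϑ x :=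
  (h.c2 hx).differentiableAt (by simp)

theorem Outward.eq (h : Outward m ϑ) (x : E2) : ϑ x = Am m ϑ x *ᵥ x + (fun _ => 0) := by
  by_cases hx : x = 0
  · subst hx
    rw [h.zero]
    ext i
    simp
  · have hs0 : x 0 ^ 2 + x 1 ^ 2 ≠ 0 := (sq_pos hx).ne'
    ext k
    simp only [Pi.add_apply, add_zero, Matrix.mulVec, dotProduct, Fin.sum_univ_two,
      Am_apply (h.hd hx), perp0, perp1, sq]
    field_simp
    ring

theorem Outward.ineq (h : Outward m ϑ) (hx : x ≠ 0)
    (Q : M2 →ₗ[ℝ] M2 →ₗ[ℝ] ℝ) (hQ : ∀ H : M2, H.rank = 1 → 0 ≤ Q H H) :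
    Q (dM 0 (Am m ϑ) x) (vecMulVec (zt (Am m ϑ) (fun _ => 0) 1 x) (perp x)) ≤
      Q (dM 1 (Am m ϑ) x) (vecMulVec (zt (Am m ϑ) (fun _ => 0) 0 x) (perp x)) := by
  have hs := sq_pos hx
  have hA : ∀ i j, ContDiffAt ℝ 2 (fun y => Am m ϑ y i j) x :=
    fun i j => Am_contDiffAt hx (h.cm hx) (h.c3 hx) i j
  -- the columns
  have hz : ∀ l, zt (Am m ϑ) (fun _ => 0) l x = (1 / 2 * nv m x l) • pv ϑ x := by
    intro l
    ext k
    have e1 : Cm (Am m ϑ) (fun _ => 0) x k l = (grad ϑ x - Am m ϑ x) k l := by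
      have e : ∀ k, (fun y => ϑ y k) = fun y => Am m ϑ y k 0 * y 0 + Am m ϑ y k 1 * y 1 := by
        intro k
        funext y
        conv_lhs => rw [h.eq y]
        simp only [Pi.add_apply, Matrix.mulVec, dotProduct, Fin.sum_univ_two, add_zero]
      have hA1 := fun i j => HD.of_diff ((hA i j).differentiableAt (by simp))
      have hd := (((hA1 k 0).mul (HD.coord0 x)).add ((hA1 k 1).mul (HD.coord1 x)))
      rw [Matrix.sub_apply, grad_apply, ← dx_comp (h.hd hx), e k, Cm_apply]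
      have hz : dx l (fun _ : E2 => (0 : E2) k) x = 0 := by simp [dx]
      rw [hz]
      fin_cases l
      · simp only [Fin.zero_eta]
        rw [hd.2.1]; ring
      · simp only [Fin.mk_one]
        rw [hd.2.2]; ring
    have hz : dV l (fun _ : E2 => (0 : E2)) x k = 0 := by simp [dV, dx]
    have e0 : zt (Am m ϑ) (fun _ => 0) l x k = 1 / 2 * Cm (Am m ϑ) (fun _ => 0) x k l
        + 1 / 2 * dV l (fun _ : E2 => (0 : E2)) x k := zt_eq l k
    rw [e0, hz, e1, grad_sub_Am hx (h.hd hx), vecMulVec_apply]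
    simp only [Pi.smul_apply, smul_eq_mul]
    ring
  have hv : ∀ c : ℝ, vecMulVec (c • pv ϑ x) (perp x) = c • vecMulVec (pv ϑ x) (perp x) := by
    intro c
    ext i j
    simp only [vecMulVec_apply, Pi.smul_apply, smul_eq_mul, Matrix.smul_apply]
    ring
  rw [hz, hz, hv, hv, map_smul, map_smul, smul_eq_mul, smul_eq_mul]
  -- the derivative along the direction field
  have hn0 : nv m x 0 = tau m x 1 / sq x := by rw [nv, tau1, perp0]; ring
  have hn1 : nv m x 1 = -(tau m x 0 / sq x) := by rw [nv, tau0, perp1]; ring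
  have ht : ∀ k j, tau m x 0 * dM 0 (Am m ϑ) x k j + tau m x 1 * dM 1 (Am m ϑ) x k j =
      (fderiv ℝ (fderiv ℝ ϑ) x (tau m x) (tau m x) k
        + (fderiv ℝ m x (tau m x) - 1 - m x ^ 2) * (fderiv ℝ ϑ x x k - ϑ x k)) * perp x j / sq x :=
    fun k j => (Am_tau hx ((h.cm hx).differentiableAt (by simp)) (h.c2 hx) k j).2
  rcases h.flow x hx with h0 | ⟨c, hc1, hc2⟩
  · have hp : pv ϑ x = 0 := by rw [pv, h0, sub_self]
    have hp2 : vecMulVec (pv ϑ x) (perp x) = 0 := by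
      ext i j; rw [hp]; simp [vecMulVec_apply]
    rw [hp2]
    simp
  · have hM : tau m x 0 • dM 0 (Am m ϑ) x + tau m x 1 • dM 1 (Am m ϑ) x =
        ((c + (fderiv ℝ m x (tau m x) - 1 - m x ^ 2)) / sq x) • vecMulVec (pv ϑ x) (perp x) := by
      ext k j
      have h1 := ht k j
      rw [hc1] at h1
      simp only [Matrix.add_apply, Matrix.smul_apply, smul_eq_mul, vecMulVec_apply, pv,
        Pi.sub_apply, Pi.smul_apply] at h1 ⊢
      rw [h1]
      ring
    have hQM := congrArg (fun M => Q M (vecMulVec (pv ϑ x) (perp x))) hM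
    simp only [map_add, map_smul, LinearMap.add_apply, LinearMap.smul_apply, smul_eq_mul] at hQM
    have hpos : 0 ≤ Q (vecMulVec (pv ϑ x) (perp x)) (vecMulVec (pv ϑ x) (perp x)) := by
      by_cases hz : vecMulVec (pv ϑ x) (perp x) = 0
      · rw [hz]; simp
      · refine hQ _ (rank_eq_one_of_det hz ?_)
        rw [det_fin_two]
        simp only [vecMulVec_apply]
        ring
    have hc3 : 0 ≤ (c + (fderiv ℝ m x (tau m x) - 1 - m x ^ 2)) / sq x :=
      div_nonneg (by linarith) hs.le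
    have hfin := mul_nonneg hc3 hpos
    rw [← hQM] at hfin
    rw [hn0, hn1]
    have h5 : 0 ≤ 1 / 2 * (tau m x 0 * Q (dM 0 (Am m ϑ) x) (vecMulVec (pv ϑ x) (perp x)) +
        tau m x 1 * Q (dM 1 (Am m ϑ) x) (vecMulVec (pv ϑ x) (perp x))) / sq x :=
      div_nonneg (mul_nonneg (by norm_num) hfin) hs.le
    have h6 : 1 / 2 * (tau m x 0 * Q (dM 0 (Am m ϑ) x) (vecMulVec (pv ϑ x) (perp x)) +
        tau m x 1 * Q (dM 1 (Am m ϑ) x) (vecMulVec (pv ϑ x) (perp x))) / sq x =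
        1 / 2 * (tau m x 1 / sq x) * Q (dM 1 (Am m ϑ) x) (vecMulVec (pv ϑ x) (perp x)) -
        1 / 2 * -(tau m x 0 / sq x) * Q (dM 0 (Am m ϑ) x) (vecMulVec (pv ϑ x) (perp x)) := by
      ring
    rw [h6] at h5
    linarith

theorem Outward.calibrates (h : Outward m ϑ) {K : ℝ≥0} (hK : LipschitzWith K ϑ) {Ω : Set E2}
    (hb : Bornology.IsBounded Ω) (h0 : ∀ x, x ∉ Ω → ϑ x = 0) :
    Calibrates (Am m ϑ) (fun _ => 0) ϑ where
  smoothA i j := fun x hx => (Am_contDiffAt hx (h.cm hx) (h.c3 hx) i j).contDiffWithinAt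
  smoothb i := contDiffOn_const
  supp := by
    obtain ⟨R, hR⟩ := hb.subset_closedBall 0
    refine ⟨R + 1, fun x hx => ⟨?_, rfl⟩⟩
    have h1 : ϑ =ᶠ[𝓝 x] fun _ => 0 := by
      have : ∀ᶠ y : E2 in 𝓝 x, R < ‖y‖ :=
        continuous_norm.continuousAt.eventually (lt_mem_nhds (by linarith))
      filter_upwards [this] with y hy
      refine h0 y fun hyΩ => ?_
      have := hR hyΩ
      rw [Metric.mem_closedBall, dist_zero_right] at this
      linarith
    ext k j
    have h2 : ϑ x = 0 := h1.self_of_nhds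
    have h3 : ∀ l, dx l (fun y => ϑ y k) x = 0 := fun l => dx_zero_of (by
      filter_upwards [h1] with y hy
      rw [hy]; rfl) l
    simp only [Am, Matrix.of_apply, h2, h3, Pi.zero_apply, Matrix.zero_apply]
    simp
  bddA := by
    obtain ⟨C, hC⟩ := h.bdd
    have hx1 : (Pi.single 0 1 : E2) ≠ 0 := by
      intro h
      have := congrFun h 0
      simp at this
    have hC0 : 0 ≤ C := (abs_nonneg _).trans (hC _ hx1)
    have hK0 : (0 : ℝ) ≤ K := K.2
    refine ⟨K + (K * (1 + C) + C * K), fun x k j => ?_⟩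
    by_cases hx : x = 0
    · subst hx
      have : Am m ϑ 0 k j = 0 := by simp [Am, sq]
      rw [this, abs_zero]
      positivity
    · have hs := sq_pos hx
      have hn := norm_sq_le x
      have hϑ : ∀ k, |ϑ x k| ≤ K * ‖x‖ := by
        intro k
        have h1 := hK.dist_le_mul x 0
        rw [h.zero, dist_zero_right, dist_zero_right] at h1
        exact (norm_le_pi_norm (ϑ x) k).trans h1
      have hτ : ‖tau m x‖ ≤ (1 + C) * ‖x‖ := by
        rw [tau]
        calc ‖perp x + m x • x‖ ≤ ‖perp x‖ + ‖m x • x‖ := norm_add_le _ _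
          _ ≤ ‖x‖ + C * ‖x‖ := by
              refine add_le_add (perp_norm x) ?_
              rw [norm_smul]
              exact mul_le_mul_of_nonneg_right (hC x hx) (norm_nonneg _)
          _ = (1 + C) * ‖x‖ := by ring
      have hw : |fderiv ℝ ϑ x (tau m x) k| ≤ K * ((1 + C) * ‖x‖) := by
        have h1 : ‖fderiv ℝ ϑ x‖ ≤ K := norm_fderiv_le_of_lipschitz ℝ hK
        have h2 := ContinuousLinearMap.le_opNorm (fderiv ℝ ϑ x) (tau m x)
        refine (norm_le_pi_norm (fderiv ℝ ϑ x (tau m x)) k).trans (h2.trans ?_)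
        exact mul_le_mul h1 hτ (norm_nonneg _) hK0
      rw [Am_apply (h.hd hx), abs_div, abs_of_pos hs, div_le_iff₀ hs]
      calc |ϑ x k * x j + (fderiv ℝ ϑ x (tau m x) k - m x * ϑ x k) * perp x j|
          ≤ |ϑ x k * x j| + |(fderiv ℝ ϑ x (tau m x) k - m x * ϑ x k) * perp x j| := abs_add_le _ _
        _ ≤ |ϑ x k| * |x j| + (|fderiv ℝ ϑ x (tau m x) k| + |m x| * |ϑ x k|) * |perp x j| := by
            rw [abs_mul, abs_mul]
            refine add_le_add le_rfl (mul_le_mul_of_nonneg_right ?_ (abs_nonneg _))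
            rw [← abs_mul]
            exact abs_sub _ _
        _ ≤ (K * ‖x‖) * ‖x‖ + (K * ((1 + C) * ‖x‖) + C * (K * ‖x‖)) * ‖x‖ := by
            refine add_le_add (mul_le_mul (hϑ k) (abs_coord_le x j) (abs_nonneg _) (by positivity)) ?_
            refine mul_le_mul (add_le_add hw (mul_le_mul (hC x hx) (hϑ k) (abs_nonneg _) hC0))
              (perp_abs x j) (abs_nonneg _) (by positivity)
        _ = (K + (K * (1 + C) + C * K)) * ‖x‖ ^ 2 := by ring
        _ ≤ (K + (K * (1 + C) + C * K)) * sq x :=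
            mul_le_mul_of_nonneg_left hn (by positivity)
  bddb := by
    refine ⟨0, fun x _ l i => ?_⟩
    have : dV l (fun _ : E2 => (0 : E2)) x i = 0 := by simp [dV, dx]
    rw [this, abs_zero, mul_zero]
  eq x := h.eq x
  rank x hx := by
    rw [grad_sub_Am hx (h.hd hx)]
    exact rank_vecMulVec_le _ _
  ineq x hx Q _ hQ := h.ineq hx Q hQ

/-- **The quasiconvexity inequality for outward parabolic maps.** -/
theorem Outward.qc (h : Outward m ϑ) {K : ℝ≥0} (hK : LipschitzWith K ϑ) {Ω : Set E2}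
    (hΩ : IsOpen Ω) (hb : Bornology.IsBounded Ω) (h0 : ∀ x, x ∉ Ω → ϑ x = 0) {W : M2 → ℝ}
    (hW : RankOneConvex W) (F₀ : M2) :
    W F₀ * (volume Ω).toReal ≤ ∫ x in Ω, W (F₀ + grad ϑ x) :=
  calib (h.calibrates hK hb h0) hK hΩ hb h0 hW F₀

end

end Pool.Agent.W8h56.MC
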