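import Pool.Agent.Helper188.Morrey.Transport

set_option autoImplicit false

open Matrix Set Filter Topology MeasureTheory
open scoped NNReal ENNReal Convolution ContDiff

namespace Pool.Agent.W8h56.MC

open Pool.Agent.Helper188.Morrey

/-- the space of `2 × 2` matrices as a normed space -/
abbrev V4 := Fin 2 → Fin 2 → ℝ

/-- a matrix function seen on the normed space -/
def onV (W : M2 → ℝ) : V4 → ℝ := fun F => W (Matrix.of F)

theorem onV_continuous {W : M2 → ℝ} (hW : RankOneConvex W) : Continuous (onV W) :=
  hW.continuous.comp continuous_id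

theorem exists_smooth {W : M2 → ℝ} (hW : RankOneConvex W) (R : ℝ) {δ : ℝ} (hδ : 0 < δ) :
    ∃ W' : M2 → ℝ, RankOneConvex W' ∧ ContDiff ℝ ∞ (onV W') ∧
      ∀ F : M2, (∀ i j, |F i j| ≤ R) → |W' F - W F| ≤ δ := by
  set g : V4 → ℝ := onV W with hg
  have hgc : Continuous g := onV_continuous hW
  have hK : IsCompact (Metric.closedBall (0 : V4) (|R| + 1)) := isCompact_closedBall _ _
  have huc := hK.uniformContinuousOn_of_continuous hgc.continuousOn
  rw [Metric.uniformContinuousOn_iff] at huc
  obtain ⟨r, hr, hr2⟩ := huc δ hδ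
  set s : ℝ := min r 1 with hs
  have hs0 : 0 < s := lt_min hr one_pos
  let φ : ContDiffBump (0 : V4) := ⟨s / 4, s / 2, by positivity, by linarith⟩
  have hρc : Continuous (φ.normed volume) := φ.continuous_normed
  have hρs : HasCompactSupport (φ.normed volume) := φ.hasCompactSupport_normed
  set h : V4 → ℝ := (φ.normed volume) ⋆[ContinuousLinearMap.lsmul ℝ ℝ, volume] g with hh
  have hint : ∀ F : V4, Integrable (fun G : V4 => φ.normed volume G * g (F - G)) := by
    intro F
    refine Continuous.integrable_of_hasCompactSupport (by fun_prop) ?_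
    exact hρs.mul_right
  have hdef : ∀ F : V4, h F = ∫ G : V4, φ.normed volume G * g (F - G) := fun F => rfl
  have hk : ∀ F H G : M2, H.rank = 1 → ∀ t : ℝ, 0 ≤ t → t ≤ 1 →
      W ((1 - t) • F + t • (F + H) - G) ≤ (1 - t) * W (F - G) + t * W (F + H - G) := by
    intro F H G hH t ht0 ht1
    have h1 := hW (F - G) H hH t ht0 ht1
    have e1 : (1 - t) • (F - G) + t • (F - G + H) = (1 - t) • F + t • (F + H) - G := by
      module
    have e2 : F - G + H = F + H - G := by abel
    rwa [e1, e2] at h1
  have hkV : ∀ F H G : V4, (Matrix.of H).rank = 1 → ∀ t : ℝ, 0 ≤ t → t ≤ 1 →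
      g ((1 - t) • F + t • (F + H) - G) ≤ (1 - t) * g (F - G) + t * g (F + H - G) :=
    fun F H G hH t h0 h1 => hk F H G hH t h0 h1
  have hconv : ∀ F H : V4, (Matrix.of H).rank = 1 → ∀ t : ℝ, 0 ≤ t → t ≤ 1 →
      h ((1 - t) • F + t • (F + H)) ≤ (1 - t) * h F + t * h (F + H) := by
    intro F H hH t ht0 ht1
    rw [hdef, hdef, hdef, ← integral_const_mul, ← integral_const_mul,
      ← integral_add ((hint _).const_mul _) ((hint _).const_mul _)]
    refine integral_mono (hint _) (((hint _).const_mul _).add ((hint _).const_mul _)) fun G => ?_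
    have h2 : 0 ≤ φ.normed volume G := φ.nonneg_normed G
    have h3 := hkV F H G hH t ht0 ht1
    calc φ.normed volume G * g ((1 - t) • F + t • (F + H) - G)
        ≤ φ.normed volume G * ((1 - t) * g (F - G) + t * g (F + H - G)) :=
          mul_le_mul_of_nonneg_left h3 h2
      _ = _ := by ring
  refine ⟨fun F => h F, ?_, ?_, ?_⟩
  · intro F H hH t ht0 ht1
    exact hconv F H hH t ht0 ht1
  · exact hρs.contDiff_convolution_left _ φ.contDiff_normed hgc.locallyIntegrable
  · have key : ∀ F : V4, (∀ i j, |F i j| ≤ R) → |h F - g F| ≤ δ := by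
      intro F hF
      have h1 := φ.dist_normed_convolution_le (μ := volume) (x₀ := F) (g := g) (ε := δ)
        hgc.aestronglyMeasurable ?_
      · rwa [Real.dist_eq] at h1
      · intro G hG
        have hFn : ‖F‖ ≤ |R| := by
          refine (pi_norm_le_iff_of_nonneg (abs_nonneg _)).2 fun i =>
            (pi_norm_le_iff_of_nonneg (abs_nonneg _)).2 fun j => ?_
          exact (hF i j).trans (le_abs_self _)
        have hGd : dist G F < s / 2 := by
          have := hG
          rw [Metric.mem_ball] at this
          exact this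
        refine (hr2 G ?_ F ?_ ?_).le
        · rw [Metric.mem_closedBall, dist_zero_right]
          have h3 : ‖G‖ ≤ ‖F‖ + dist G F := by
            rw [dist_eq_norm]
            calc ‖G‖ = ‖F + (G - F)‖ := by rw [add_sub_cancel]
              _ ≤ _ := norm_add_le _ _
          have h4 : s ≤ 1 := min_le_right _ _
          linarith
        · rw [Metric.mem_closedBall, dist_zero_right]
          linarith
        · have h4 : s ≤ r := min_le_left _ _
          linarith
    intro F hF
    exact key F hF

end Pool.Agent.W8h56.MC
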